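import Pool.Agent.H70.SS.CM

/-!
# Cameron-Martin formula and the second moment inequality

PROOF of `cameron_martin`: for one coordinate `gaussianReal a 1` has density
`exp (a z - a ^ 2 / 2)` with respect to `gaussianReal 0 1` (compare the two densities,
`gaussianPDFReal`), `gaussianReal_map_const_add`; for the product use that a product of densities is
the density of the product (`Measure.pi_eq` on boxes, or the real Lebesgue density of `gam`).

PROOF of `second_moment`. With `Λ(ω, z) = exp (∑ c, s ω c * z c - (∑ c, s ω c ^ 2) / 2)` and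
`Φ z = ∫ ω, Λ(ω, z)`: the left hand side is `(∫ z, ψ z * Φ z) ^ 2` (`cameron_martin` and Fubini:
everything is bounded by `exp (B ∑ |z c|)`, integrable by `integrable_exp_abs`), which by
Cauchy-Schwarz is at most `(∫ ψ ^ 2) (∫ Φ ^ 2) ≤ (∫ ψ) (∫ Φ ^ 2)`, and
`∫ Φ ^ 2 = ∫ ∫ ∫ Λ(ω, z) Λ(ω', z) = ∫ ∫ exp (∑ c, s ω c * s ω' c)` (`integral_exp_lin` for
`b = s ω + s ω'`).
-/

set_option autoImplicit false

namespace Pool.Agent.H70.SS

open MeasureTheory ProbabilityTheory
open scoped BigOperators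

/-- the one-dimensional density -/
private noncomputable def den (a x : ℝ) : ℝ := Real.exp (x * a - a ^ 2 / 2)

private theorem den_meas (a : ℝ) : Measurable (den a) := by
  unfold den
  fun_prop

private theorem den_int (a : ℝ) : Integrable (den a) (gaussianReal 0 1) := by
  have h := (integrable_exp_mul_gaussianReal (μ := 0) (v := 1) a).mul_const (Real.exp (-(a ^ 2 / 2)))
  refine h.congr (ae_of_all _ fun x => ?_)
  show Real.exp (a * x) * Real.exp (-(a ^ 2 / 2)) = den a x
  unfold den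
  rw [← Real.exp_add]
  congr 1
  ring

private theorem gauss_shift (a : ℝ) :
    gaussianReal a 1 = (gaussianReal 0 1).withDensity fun x => ENNReal.ofReal (den a x) := by
  rw [gaussianReal_of_var_ne_zero _ one_ne_zero, gaussianReal_of_var_ne_zero _ one_ne_zero,
    ← withDensity_mul _ (measurable_gaussianPDF 0 1) (den_meas a).ennreal_ofReal]
  congr 1
  ext x
  simp only [Pi.mul_apply]
  rw [gaussianPDF, gaussianPDF, ← ENNReal.ofReal_mul (gaussianPDFReal_nonneg 0 1 x)]
  congr 1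
  rw [gaussianPDFReal_def, gaussianPDFReal_def]
  simp only [NNReal.coe_one, mul_one, sub_zero]
  unfold den
  rw [mul_assoc, ← Real.exp_add]
  congr 2
  ring

private theorem gauss_apply (a : ℝ) {S : Set ℝ} (hS : MeasurableSet S) :
    gaussianReal a 1 S = ENNReal.ofReal (∫ x in S, den a x ∂(gaussianReal 0 1)) := by
  rw [gauss_shift a, withDensity_apply _ hS,
    ofReal_integral_eq_lintegral_ofReal (den_int a).integrableOn
      (ae_of_all _ fun x => (Real.exp_pos _).le)]

private theorem prod_den {σ : Type*} [Fintype σ] (s z : σ → ℝ) :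
    Real.exp (∑ c, z c * s c - (∑ c, s c ^ 2) / 2) = ∏ c, den (s c) (z c) := by
  unfold den
  rw [← Real.exp_sum, Finset.sum_sub_distrib, Finset.sum_div]

private theorem gam_shift {σ : Type*} [Fintype σ] (s : σ → ℝ) :
    (Measure.pi fun c => gaussianReal (s c) 1) =
      (gam σ).withDensity fun z =>
        ENNReal.ofReal (Real.exp (∑ c, z c * s c - (∑ c, s c ^ 2) / 2)) := by
  classical
  refine Measure.pi_eq fun S hS => ?_
  have hbox : MeasurableSet (Set.pi Set.univ S) := MeasurableSet.univ_pi hS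
  have hint : Integrable (fun z : σ → ℝ => ∏ c, den (s c) (z c)) (gam σ) :=
    Integrable.fintype_prod (f := fun c : σ => den (s c)) fun c => den_int (s c)
  rw [withDensity_apply _ hbox]
  simp only [prod_den]
  rw [← ofReal_integral_eq_lintegral_ofReal hint.integrableOn
    (ae_of_all _ fun z => Finset.prod_nonneg fun c _ => (Real.exp_pos _).le)]
  have h1 : ∫ z in Set.pi Set.univ S, ∏ c, den (s c) (z c) ∂(gam σ) =
      ∏ c, ∫ x in S c, den (s c) x ∂(gaussianReal 0 1) := by
    rw [← integral_indicator hbox]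
    have h2 : (Set.indicator (Set.pi Set.univ S) fun z : σ → ℝ => ∏ c, den (s c) (z c)) =
        fun z => ∏ c, (Set.indicator (S c) (den (s c))) (z c) := by
      ext z
      by_cases hz : z ∈ Set.pi Set.univ S
      · rw [Set.indicator_of_mem hz]
        refine Finset.prod_congr rfl fun c _ => ?_
        rw [Set.indicator_of_mem (hz c (Set.mem_univ c))]
      · rw [Set.indicator_of_notMem hz]
        simp only [Set.mem_pi, Set.mem_univ, forall_true_left, not_forall] at hz
        obtain ⟨c, hc⟩ := hz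
        exact (Finset.prod_eq_zero (Finset.mem_univ c) (Set.indicator_of_notMem hc _)).symm
    rw [h2, integral_fintype_prod_eq_prod (fun c : σ => Set.indicator (S c) (den (s c)))]
    refine Finset.prod_congr rfl fun c _ => ?_
    rw [integral_indicator (hS c)]
  rw [h1, ENNReal.ofReal_prod_of_nonneg]
  · refine Finset.prod_congr rfl fun c _ => ?_
    rw [gauss_apply (s c) (hS c)]
  · intro c _
    exact integral_nonneg fun x => (Real.exp_pos _).le

theorem cameron_martin {σ : Type*} [Fintype σ] (s : σ → ℝ) (ψ : (σ → ℝ) → ℝ)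
    (hψ : Measurable ψ) (h0 : ∀ z, 0 ≤ ψ z) (h1 : ∀ z, ψ z ≤ 1) :
    ∫ z, ψ (s + z) ∂(gam σ) =
      ∫ z, ψ z * Real.exp (∑ c, z c * s c - (∑ c, s c ^ 2) / 2) ∂(gam σ) := by
  have hmap : (gam σ).map (fun z => s + z) = Measure.pi fun c => gaussianReal (s c) 1 := by
    have h2 : (fun z : σ → ℝ => s + z) = fun z c => (fun x => s c + x) (z c) := by
      ext z c
      rfl
    have : ∀ c : σ, SigmaFinite ((gaussianReal 0 1).map fun x => s c + x) := by
      intro c
      rw [gaussianReal_map_const_add]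
      infer_instance
    rw [h2, Measure.pi_map_pi (μ := fun _ : σ => gaussianReal 0 1)
      (f := fun (c : σ) (x : ℝ) => s c + x) fun c => (measurable_const_add (s c)).aemeasurable]
    congr 1
    ext c : 1
    rw [gaussianReal_map_const_add, zero_add]
  have h3 : ∫ z, ψ (s + z) ∂(gam σ) = ∫ z, ψ z ∂((gam σ).map fun z => s + z) := by
    rw [integral_map (by fun_prop) hψ.aestronglyMeasurable]
  have hD : Measurable fun z : σ → ℝ =>
      Real.exp (∑ c, z c * s c - (∑ c, s c ^ 2) / 2) := by fun_prop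
  rw [h3, hmap, gam_shift s,
    integral_withDensity_eq_integral_toReal_smul hD.ennreal_ofReal
      (ae_of_all _ fun _ => ENNReal.ofReal_lt_top)]
  refine integral_congr_ae (ae_of_all _ fun z => ?_)
  simp only [smul_eq_mul]
  rw [ENNReal.toReal_ofReal (Real.exp_pos _).le, mul_comm]

section Second

variable {σ Ω : Type*} [Fintype σ] [MeasurableSpace Ω] (P : Measure Ω) [IsProbabilityMeasure P]

private theorem swap_bd {f : Ω → (σ → ℝ) → ℝ} (hf : Measurable (Function.uncurry f)) (B : ℝ)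
    (hb : ∀ ω z, |f ω z| ≤ Real.exp (B * ∑ c, |z c|)) :
    ∫ ω, ∫ z, f ω z ∂(gam σ) ∂P = ∫ z, ∫ ω, f ω z ∂P ∂(gam σ) := by
  refine integral_integral_swap ?_
  have h1 : Integrable (fun p : Ω × (σ → ℝ) => Real.exp (B * ∑ c, |p.2 c|)) (P.prod (gam σ)) :=
    (integrable_exp_abs (ι := σ) B).comp_snd P
  refine h1.mono' hf.aestronglyMeasurable (ae_of_all _ fun p => ?_)
  rw [Real.norm_eq_abs]
  exact hb p.1 p.2

end Second

theorem second_moment {σ Ω : Type*} [Fintype σ] [MeasurableSpace Ω] (P : Measure Ω)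
    [IsProbabilityMeasure P] (s : Ω → σ → ℝ) (hs : Measurable s) (B : ℝ)
    (hB : ∀ ω c, |s ω c| ≤ B) (ψ : (σ → ℝ) → ℝ) (hψ : Measurable ψ) (h0 : ∀ z, 0 ≤ ψ z)
    (h1 : ∀ z, ψ z ≤ 1) :
    (∫ ω, ∫ z, ψ (s ω + z) ∂(gam σ) ∂P) ^ 2 ≤
      (∫ z, ψ z ∂(gam σ)) * ∫ ω, ∫ ω', Real.exp (∑ c, s ω c * s ω' c) ∂P ∂P := by
  set Λ : Ω → (σ → ℝ) → ℝ := fun ω z =>
    Real.exp (∑ c, z c * s ω c - (∑ c, s ω c ^ 2) / 2) with hΛ
  have hsc : ∀ c, Measurable fun ω => s ω c := fun c => (measurable_pi_apply c).comp hs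
  have hΛm : Measurable (Function.uncurry Λ) := by
    have e1 : Measurable fun p : Ω × (σ → ℝ) =>
        ∑ c, p.2 c * s p.1 c - (∑ c, s p.1 c ^ 2) / 2 := by
      refine (Finset.measurable_sum _ fun c _ => ?_).sub
        ((Finset.measurable_sum _ fun c _ => ?_).div_const 2)
      · exact ((measurable_pi_apply c).comp measurable_snd).mul ((hsc c).comp measurable_fst)
      · exact ((hsc c).comp measurable_fst).pow_const 2
    exact Real.measurable_exp.comp e1
  have hΛ0 : ∀ ω z, 0 < Λ ω z := fun ω z => Real.exp_pos _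
  have hΛb : ∀ ω z, Λ ω z ≤ Real.exp (B * ∑ c, |z c|) := by
    intro ω z
    refine Real.exp_le_exp.2 ?_
    have e1 : ∑ c, z c * s ω c ≤ B * ∑ c, |z c| := by
      rw [Finset.mul_sum]
      refine Finset.sum_le_sum fun c _ => ?_
      calc z c * s ω c ≤ |z c * s ω c| := le_abs_self _
        _ = |s ω c| * |z c| := by rw [abs_mul, mul_comm]
        _ ≤ B * |z c| := mul_le_mul_of_nonneg_right (hB ω c) (abs_nonneg _)
    have e2 : 0 ≤ ∑ c, s ω c ^ 2 := Finset.sum_nonneg fun c _ => sq_nonneg _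
    linarith
  set Φ : (σ → ℝ) → ℝ := fun z => ∫ ω, Λ ω z ∂P with hΦ
  have hΦm : StronglyMeasurable Φ := hΛm.stronglyMeasurable.integral_prod_left
  have hΛi : ∀ z, Integrable (fun ω => Λ ω z) P := by
    intro z
    refine (integrable_const (Real.exp (B * ∑ c, |z c|))).mono'
      (hΛm.comp (measurable_id.prodMk measurable_const)).aestronglyMeasurable
      (ae_of_all _ fun ω => ?_)
    rw [Real.norm_eq_abs, abs_of_pos (hΛ0 ω z)]
    exact hΛb ω z
  have hΦ0 : ∀ z, 0 ≤ Φ z := fun z => integral_nonneg fun ω => (hΛ0 ω z).le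
  have hΦb : ∀ z, Φ z ≤ Real.exp (B * ∑ c, |z c|) := by
    intro z
    have e1 : Φ z ≤ ∫ _ω, Real.exp (B * ∑ c, |z c|) ∂P :=
      integral_mono (hΛi z) (integrable_const _) fun ω => hΛb ω z
    simpa using e1
  have hexp2 : ∀ z : σ → ℝ, Real.exp (B * ∑ c, |z c|) * Real.exp (B * ∑ c, |z c|) =
      Real.exp (2 * B * ∑ c, |z c|) := by
    intro z
    rw [← Real.exp_add]
    congr 1
    ring
  -- step 1
  have step1 : ∫ ω, ∫ z, ψ (s ω + z) ∂(gam σ) ∂P = ∫ z, ψ z * Φ z ∂(gam σ) := by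
    have e1 : ∀ ω, ∫ z, ψ (s ω + z) ∂(gam σ) = ∫ z, ψ z * Λ ω z ∂(gam σ) := fun ω =>
      cameron_martin (s ω) ψ hψ h0 h1
    simp only [e1]
    rw [swap_bd P (f := fun ω z => ψ z * Λ ω z) ((hψ.comp measurable_snd).mul hΛm) B]
    · refine integral_congr_ae (ae_of_all _ fun z => ?_)
      exact integral_const_mul _ _
    · intro ω z
      rw [abs_mul, abs_of_nonneg (h0 z), abs_of_pos (hΛ0 ω z)]
      calc ψ z * Λ ω z ≤ 1 * Λ ω z := mul_le_mul_of_nonneg_right (h1 z) (hΛ0 ω z).le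
        _ = Λ ω z := one_mul _
        _ ≤ _ := hΛb ω z
  -- step 2
  have hint2 : Integrable (fun z => Φ z * Φ z) (gam σ) := by
    refine (integrable_exp_abs (ι := σ) (2 * B)).mono' (hΦm.mul hΦm).aestronglyMeasurable
      (ae_of_all _ fun z => ?_)
    rw [Real.norm_eq_abs, abs_of_nonneg (mul_nonneg (hΦ0 z) (hΦ0 z)), ← hexp2 z]
    exact mul_le_mul (hΦb z) (hΦb z) (hΦ0 z) (Real.exp_pos _).le
  have hint1 : Integrable (fun z => ψ z * Φ z) (gam σ) := by
    refine (integrable_exp_abs (ι := σ) B).mono'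
      (hψ.stronglyMeasurable.mul hΦm).aestronglyMeasurable (ae_of_all _ fun z => ?_)
    rw [Real.norm_eq_abs, abs_of_nonneg (mul_nonneg (h0 z) (hΦ0 z))]
    calc ψ z * Φ z ≤ 1 * Φ z := mul_le_mul_of_nonneg_right (h1 z) (hΦ0 z)
      _ = Φ z := one_mul _
      _ ≤ _ := hΦb z
  have hint0 : Integrable (fun z => ψ z * ψ z) (gam σ) := by
    refine (integrable_const (1 : ℝ)).mono' (hψ.mul hψ).aestronglyMeasurable
      (ae_of_all _ fun z => ?_)
    rw [Real.norm_eq_abs, abs_of_nonneg (mul_nonneg (h0 z) (h0 z))]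
    exact mul_le_one₀ (h1 z) (h0 z) (h1 z)
  have hintψ : Integrable ψ (gam σ) := by
    refine (integrable_const (1 : ℝ)).mono' hψ.aestronglyMeasurable (ae_of_all _ fun z => ?_)
    rw [Real.norm_eq_abs, abs_of_nonneg (h0 z)]
    exact h1 z
  have cs : (∫ z, ψ z * Φ z ∂(gam σ)) ^ 2 ≤
      (∫ z, ψ z * ψ z ∂(gam σ)) * ∫ z, Φ z * Φ z ∂(gam σ) := by
    have hq : ∀ t : ℝ, 0 ≤ (∫ z, ψ z * ψ z ∂(gam σ)) * (t * t) +
        (2 * ∫ z, ψ z * Φ z ∂(gam σ)) * t + ∫ z, Φ z * Φ z ∂(gam σ) := by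
      intro t
      have e1 : 0 ≤ ∫ z, (t * ψ z + Φ z) ^ 2 ∂(gam σ) := integral_nonneg fun z => sq_nonneg _
      have e2 : ∫ z, (t * ψ z + Φ z) ^ 2 ∂(gam σ) =
          (∫ z, ψ z * ψ z ∂(gam σ)) * (t * t) +
          (2 * ∫ z, ψ z * Φ z ∂(gam σ)) * t + ∫ z, Φ z * Φ z ∂(gam σ) := by
        have e3 : ∀ z, (t * ψ z + Φ z) ^ 2 =
            ((t * t) * (ψ z * ψ z) + (2 * t) * (ψ z * Φ z)) + Φ z * Φ z := fun z => by ring
        simp only [e3]
        have hadd : Integrable (fun z => (t * t) * (ψ z * ψ z) + (2 * t) * (ψ z * Φ z))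
            (gam σ) := (hint0.const_mul _).add (hint1.const_mul _)
        rw [integral_add hadd hint2,
          integral_add (hint0.const_mul _) (hint1.const_mul _), integral_const_mul,
          integral_const_mul]
        ring
      rw [← e2]
      exact e1
    have h5 := discrim_le_zero hq
    unfold discrim at h5
    nlinarith [h5]
  have hψψ : ∫ z, ψ z * ψ z ∂(gam σ) ≤ ∫ z, ψ z ∂(gam σ) := by
    refine integral_mono hint0 hintψ fun z => ?_
    calc ψ z * ψ z ≤ 1 * ψ z := mul_le_mul_of_nonneg_right (h1 z) (h0 z)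
      _ = ψ z := one_mul _
  -- step 3
  have step3 : ∫ z, Φ z * Φ z ∂(gam σ) =
      ∫ ω, ∫ ω', Real.exp (∑ c, s ω c * s ω' c) ∂P ∂P := by
    have e1 : ∫ z, Φ z * Φ z ∂(gam σ) = ∫ ω, ∫ z, Λ ω z * Φ z ∂(gam σ) ∂P := by
      rw [swap_bd P (f := fun ω z => Λ ω z * Φ z)
        (hΛm.mul (hΦm.measurable.comp measurable_snd)) (2 * B)]
      · refine integral_congr_ae (ae_of_all _ fun z => ?_)
        exact (integral_mul_const (Φ z) _).symm
      · intro ω z
        rw [abs_of_nonneg (mul_nonneg (hΛ0 ω z).le (hΦ0 z)), ← hexp2 z]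
        exact mul_le_mul (hΛb ω z) (hΦb z) (hΦ0 z) (Real.exp_pos _).le
    rw [e1]
    refine integral_congr_ae (ae_of_all _ fun ω => ?_)
    have hωm : Measurable (Λ ω) := hΛm.comp (measurable_const.prodMk measurable_id)
    have e2 : ∫ z, Λ ω z * Φ z ∂(gam σ) = ∫ ω', ∫ z, Λ ω z * Λ ω' z ∂(gam σ) ∂P := by
      rw [swap_bd P (f := fun ω' z => Λ ω z * Λ ω' z)
        ((hωm.comp measurable_snd).mul hΛm) (2 * B)]
      · refine integral_congr_ae (ae_of_all _ fun z => ?_)
        exact (integral_const_mul (Λ ω z) _).symm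
      · intro ω' z
        rw [abs_of_nonneg (mul_nonneg (hΛ0 ω z).le (hΛ0 ω' z).le), ← hexp2 z]
        exact mul_le_mul (hΛb ω z) (hΛb ω' z) (hΛ0 ω' z).le (Real.exp_pos _).le
    show ∫ z, Λ ω z * Φ z ∂(gam σ) = _
    rw [e2]
    refine integral_congr_ae (ae_of_all _ fun ω' => ?_)
    show ∫ z, Λ ω z * Λ ω' z ∂(gam σ) = _
    have e3 : ∀ z, Λ ω z * Λ ω' z =
        Real.exp (∑ c, z c * (s ω c + s ω' c)) *
          Real.exp (-((∑ c, s ω c ^ 2) / 2 + (∑ c, s ω' c ^ 2) / 2)) := by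
      intro z
      rw [← Real.exp_add, ← Real.exp_add]
      congr 1
      have e4 : ∑ c, z c * (s ω c + s ω' c) = ∑ c, z c * s ω c + ∑ c, z c * s ω' c := by
        rw [← Finset.sum_add_distrib]
        exact Finset.sum_congr rfl fun c _ => by ring
      rw [e4]
      ring
    simp only [e3]
    rw [integral_mul_const, integral_exp_lin, ← Real.exp_add]
    congr 1
    have e5 : ∑ c, (s ω c + s ω' c) ^ 2 =
        ∑ c, s ω c ^ 2 + ∑ c, s ω' c ^ 2 + 2 * ∑ c, s ω c * s ω' c := by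
      rw [Finset.mul_sum, ← Finset.sum_add_distrib, ← Finset.sum_add_distrib]
      exact Finset.sum_congr rfl fun c _ => by ring
    rw [e5]
    ring
  rw [step1]
  refine cs.trans ?_
  rw [step3]
  refine mul_le_mul_of_nonneg_right hψψ ?_
  exact integral_nonneg fun ω => integral_nonneg fun ω' => (Real.exp_pos _).le

end Pool.Agent.H70.SS
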