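import Pool.Agent.H70.SS.Defs

/-!
# The Gaussian integral of a quadratic exponential

PROOF. `gam ι` is a product measure and `exp (κ / 2 ∑ w l ^ 2) = ∏ exp (κ / 2 w l ^ 2)`
(`MeasureTheory.integral_fintype_prod_eq_prod`, `Integrable.fintype_prod`); in one variable
`∫ exp (κ / 2 x ^ 2) (√(2π))⁻¹ exp (- x ^ 2 / 2) dx = (√(2π))⁻¹ √(2π / (1 - κ)) = (√(1 - κ))⁻¹`
(`integral_gaussianReal_eq_integral_smul`, `integral_gaussian`, `integrable_exp_neg_mul_sq`).
-/

set_option autoImplicit false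

namespace Pool.Agent.H70.SS

open MeasureTheory ProbabilityTheory
open scoped BigOperators

private theorem pdf_mul (κ x : ℝ) :
    gaussianPDFReal 0 1 x * Real.exp (κ / 2 * x ^ 2) =
      (Real.sqrt (2 * Real.pi))⁻¹ * Real.exp (-((1 - κ) / 2) * x ^ 2) := by
  rw [gaussianPDFReal_def]
  simp only [NNReal.coe_one, mul_one, sub_zero]
  rw [mul_assoc, ← Real.exp_add]
  congr 2
  ring

private theorem one_int {κ : ℝ} (h1 : κ < 1) :
    Integrable (fun x : ℝ => Real.exp (κ / 2 * x ^ 2)) (gaussianReal 0 1) := by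
  rw [gaussianReal_of_var_ne_zero _ one_ne_zero,
    integrable_withDensity_iff_integrable_smul' (measurable_gaussianPDF 0 1)
      (ae_of_all _ fun _ => gaussianPDF_lt_top)]
  have h2 : Integrable (fun x : ℝ =>
      (Real.sqrt (2 * Real.pi))⁻¹ * Real.exp (-((1 - κ) / 2) * x ^ 2)) volume :=
    (integrable_exp_neg_mul_sq (by linarith : (0 : ℝ) < (1 - κ) / 2)).const_mul _
  refine h2.congr (ae_of_all _ fun x => ?_)
  simp only [toReal_gaussianPDF, smul_eq_mul]
  rw [pdf_mul]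

private theorem one_eq (κ : ℝ) :
    ∫ x, Real.exp (κ / 2 * x ^ 2) ∂(gaussianReal 0 1) = (Real.sqrt (1 - κ))⁻¹ := by
  rw [integral_gaussianReal_eq_integral_smul one_ne_zero]
  simp only [smul_eq_mul, pdf_mul]
  rw [integral_const_mul, integral_gaussian]
  have h2 : Real.pi / ((1 - κ) / 2) = 2 * Real.pi / (1 - κ) := by
    field_simp
  rw [h2, Real.sqrt_div (by positivity)]
  have h3 : Real.sqrt (2 * Real.pi) ≠ 0 := by positivity
  field_simp

theorem integral_exp_quad {ι : Type*} [Fintype ι] {κ : ℝ} (h1 : κ < 1) :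
    ∫ w, Real.exp (κ / 2 * ∑ l, w l ^ 2) ∂(gam ι) = ((Real.sqrt (1 - κ))⁻¹) ^ Fintype.card ι := by
  have h2 : ∀ w : ι → ℝ, Real.exp (κ / 2 * ∑ l, w l ^ 2) =
      ∏ l, Real.exp (κ / 2 * w l ^ 2) := by
    intro w
    rw [Finset.mul_sum, Real.exp_sum]
  simp only [h2]
  rw [integral_fintype_prod_eq_pow (fun x : ℝ => Real.exp (κ / 2 * x ^ 2)), one_eq]

theorem integrable_exp_quad {ι : Type*} [Fintype ι] {κ : ℝ} (h1 : κ < 1) :
    Integrable (fun w : ι → ℝ => Real.exp (κ / 2 * ∑ l, w l ^ 2)) (gam ι) := by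
  have h2 : ∀ w : ι → ℝ, Real.exp (κ / 2 * ∑ l, w l ^ 2) =
      ∏ l, Real.exp (κ / 2 * w l ^ 2) := by
    intro w
    rw [Finset.mul_sum, Real.exp_sum]
  simp only [h2]
  exact Integrable.fintype_prod (f := fun _ : ι => fun x : ℝ => Real.exp (κ / 2 * x ^ 2))
    fun _ => one_int h1

end Pool.Agent.H70.SS
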