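import Pool.Agent.H70.SS.Defs

/-!
# Signals: shifts, rotations, inner products

`data_symm`: compare with `obs_eq`, `shift_zero`, `data_eq` in the file `LinearDegree`
(`data ρ lam ω = symm (shift ρ lam ω.1 + ω.2)` is `data_eq` without polynomials; start with
`h0 : obs ρ lam ω.1 ω.2 k i j = (1/√(n d_k)) * gue (shift ρ lam ω.1 + ω.2) k i j` from there).
`shift_eq`: `ρ(g_i g_j⁻¹) = ρ(g_i) ρ(g_j)ᴴ` entrywise (`mul_entry`, `inv_entry` of
`Pool.Agent.H28.Schur`).
`rotate_gshift`: expand both sides, all sums are finite; `O` is real.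
`gshift_inner`: as `shift_inner`, `sum_signal` in the file `LinearDegree`: for one `k`,
`∑_{i,j} (∑_e X_i e conj X_j e) conj(∑_e' X'_i e' conj X'_j e') = ∑_{e,e'} |∑_i X_i e conj X'_i e'|^2`
where `i, j` run over pairs (vertex, `a`); the real number on the left is the sum of the products
of the real parts and of the imaginary parts, `√(d/n) √(d/n) = d/n`.
-/

set_option autoImplicit false

namespace Pool.Agent.H70.SS

open MeasureTheory ProbabilityTheory
open scoped BigOperators ComplexConjugate Matrix RealInnerProductSpace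
open Pool.Agent.Results.MP_634cec_lc.LinearDegree

variable {G : Type} [Group G] {L n : ℕ} {d : Fin L → ℕ}

theorem data_symm (ρ : ∀ k : Fin L, G →* Matrix.unitaryGroup (Fin (d k)) ℂ) (lam : ℝ)
    (ω : (Fin n → G) × (Coord n d → ℝ)) :
    data ρ lam ω = symm (shift ρ lam ω.1 + ω.2) := by
  funext c
  obtain ⟨k, i, j, b⟩ := c
  have h0 : obs ρ lam ω.1 ω.2 k i j =
      ((1 / Real.sqrt (n * d k) : ℝ) : ℂ) * gue (shift ρ lam ω.1 + ω.2) k i j := by
    rw [obs_eq ρ lam ω.1 ω.1 ω.2 k i j]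
    simp [obs]
  cases b
  · simp only [data, symm, Bool.false_eq_true, if_false, h0, Complex.re_ofReal_mul,
      Complex.im_ofReal_mul, gue, Matrix.of_apply]
    simp
    ring
  · simp only [data, symm, if_true, h0, Complex.re_ofReal_mul,
      Complex.im_ofReal_mul, gue, Matrix.of_apply]
    simp
    ring

theorem shift_eq (ρ : ∀ k : Fin L, G →* Matrix.unitaryGroup (Fin (d k)) ℂ) (lam : ℝ)
    (g : Fin n → G) : shift ρ lam g = gshift lam (sig ρ g) := by
  have h : ∀ (k : Fin L) (i j : Fin n × Fin (d k)), signal ρ g k i j =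
      ∑ e, sig ρ g k i.1 i.2 e * conj (sig ρ g k j.1 j.2 e) := by
    intro k i j
    simp only [signal, sig, Matrix.of_apply]
    rw [Pool.Agent.H28.Schur.mul_entry]
    exact Finset.sum_congr rfl fun x _ => by rw [Pool.Agent.H28.Schur.inv_entry]
  funext c
  simp only [shift, gshift, h]

private theorem rot_aux {κ : Type} [Fintype κ] (p q : Fin n → ℝ) (A B : Fin n → κ → ℂ) :
    ∑ e, (∑ i, ((p i : ℝ) : ℂ) * A i e) * conj (∑ j, ((q j : ℝ) : ℂ) * B j e) =
      ∑ i, ∑ j, ((p i * q j : ℝ) : ℂ) * ∑ e, A i e * conj (B j e) := by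
  have h1 : ∀ e, (∑ i, ((p i : ℝ) : ℂ) * A i e) * conj (∑ j, ((q j : ℝ) : ℂ) * B j e) =
      ∑ i, ∑ j, ((p i * q j : ℝ) : ℂ) * (A i e * conj (B j e)) := by
    intro e
    rw [map_sum, Finset.sum_mul_sum]
    refine Finset.sum_congr rfl fun i _ => Finset.sum_congr rfl fun j _ => ?_
    rw [map_mul, Complex.conj_ofReal, Complex.ofReal_mul]
    ring
  simp_rw [h1]
  rw [Finset.sum_comm]
  refine Finset.sum_congr rfl fun i _ => ?_
  rw [Finset.sum_comm]
  refine Finset.sum_congr rfl fun j _ => ?_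
  rw [Finset.mul_sum]

theorem rotate_gshift (O : Matrix (Fin n) (Fin n) ℝ) (lam : ℝ)
    (X : ∀ k : Fin L, Fin n → Matrix (Fin (d k)) (Fin (d k)) ℂ) :
    rotate O (gshift lam X) = gshift lam (actO O X) := by
  funext c
  obtain ⟨k, ⟨v, a⟩, ⟨w, b⟩, r⟩ := c
  have h : ∑ e, actO O X k v a e * conj (actO O X k w b e) =
      ∑ i, ∑ j, ((O v i * O w j : ℝ) : ℂ) * ∑ e, X k i a e * conj (X k j b e) := by
    have hA : ∀ (u : Fin n) (a e : Fin (d k)), actO O X k u a e =
        ∑ i, ((O u i : ℝ) : ℂ) * X k i a e := by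
      intro u a e
      simp only [actO, Matrix.sum_apply, Matrix.smul_apply, smul_eq_mul]
    simp_rw [hA]
    exact rot_aux (fun i => O v i) (fun j => O w j) (fun i e => X k i a e)
      (fun j e => X k j b e)
  simp only [rotate, gshift, h]
  cases r
  · simp only [Bool.false_eq_true, if_false, Complex.im_sum, Complex.im_ofReal_mul]
    rw [Finset.mul_sum]
    refine Finset.sum_congr rfl fun i _ => ?_
    rw [Finset.mul_sum]
    refine Finset.sum_congr rfl fun j _ => ?_
    ring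
  · simp only [if_true, Complex.re_sum, Complex.re_ofReal_mul]
    rw [Finset.mul_sum]
    refine Finset.sum_congr rfl fun i _ => ?_
    rw [Finset.mul_sum]
    refine Finset.sum_congr rfl fun j _ => ?_
    ring

private theorem tr_aux {ι κ : Type} [Fintype ι] [Fintype κ] (A A' : Matrix ι κ ℂ) :
    ∑ i, ∑ j, (∑ e, A i e * conj (A j e)) * conj (∑ e, A' i e * conj (A' j e)) =
      ((∑ e, ∑ e', ‖∑ i, A i e * conj (A' i e')‖ ^ 2 : ℝ) : ℂ) := by
  have h1 : ∑ i, ∑ j, (∑ e, A i e * conj (A j e)) * conj (∑ e, A' i e * conj (A' j e)) =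
      Matrix.trace ((A * Aᴴ) * (A' * A'ᴴ)ᴴ) := by
    simp only [Matrix.trace, Matrix.diag_apply, Matrix.mul_apply, Matrix.conjTranspose_apply]
    rfl
  have h2 : ∀ Q : Matrix κ κ ℂ, Matrix.trace (Q * Qᴴ) =
      ((∑ a, ∑ b, ‖Q a b‖ ^ 2 : ℝ) : ℂ) := by
    intro Q
    simp only [Matrix.trace, Matrix.diag_apply, Matrix.mul_apply, Matrix.conjTranspose_apply]
    push_cast
    refine Finset.sum_congr rfl fun a _ => Finset.sum_congr rfl fun b _ => ?_
    have : star (Q a b) = conj (Q a b) := rfl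
    rw [this, Complex.mul_conj, Complex.normSq_eq_norm_sq]
    push_cast; rfl
  have h3 : ∀ e e', (∑ i, A i e * conj (A' i e')) = (A'ᴴ * A) e' e := by
    intro e e'
    simp only [Matrix.mul_apply, Matrix.conjTranspose_apply]
    refine Finset.sum_congr rfl fun i _ => ?_
    rw [mul_comm]
    rfl
  rw [h1]
  simp_rw [h3]
  rw [Finset.sum_comm, ← h2, Matrix.conjTranspose_mul, Matrix.conjTranspose_conjTranspose,
    Matrix.conjTranspose_mul, Matrix.conjTranspose_conjTranspose]
  rw [← Matrix.mul_assoc, Matrix.trace_mul_comm]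
  congr 1
  simp only [Matrix.mul_assoc]

theorem gshift_inner (lam : ℝ)
    (X X' : ∀ k : Fin L, Fin n → Matrix (Fin (d k)) (Fin (d k)) ℂ) :
    ∑ c, gshift lam X c * gshift lam X' c =
      ∑ t : VIdx d, (lam ^ 2 * (d t.1 / n)) *
        ‖∑ i, ∑ a, X t.1 i a t.2.1 * conj (X' t.1 i a t.2.2)‖ ^ 2 := by
  rw [Fintype.sum_sigma, Fintype.sum_sigma]
  refine Finset.sum_congr rfl fun k _ => ?_
  have hsplit : ∀ F : (Fin n × Fin (d k)) × (Fin n × Fin (d k)) × Bool → ℝ,
      ∑ c, F c = ∑ i, ∑ j, (F (i, j, true) + F (i, j, false)) := by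
    intro F
    rw [Fintype.sum_prod_type]
    refine Finset.sum_congr rfl fun i _ => ?_
    rw [Fintype.sum_prod_type]
    refine Finset.sum_congr rfl fun j _ => ?_
    rw [Fintype.sum_bool]
  have hsplit2 : ∀ F : Fin (d k) × Fin (d k) → ℝ, ∑ c, F c = ∑ a, ∑ b, F (a, b) :=
    fun F => Fintype.sum_prod_type _
  rw [hsplit, hsplit2]
  simp only [gshift, if_true, Bool.false_eq_true, if_false]
  have hs : (Real.sqrt (d k / n)) * (Real.sqrt (d k / n)) = d k / n :=
    Real.mul_self_sqrt (by positivity)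
  have h1 : ∀ P Q : ℂ,
      lam * Real.sqrt (d k / n) * P.re * (lam * Real.sqrt (d k / n) * Q.re) +
      lam * Real.sqrt (d k / n) * P.im * (lam * Real.sqrt (d k / n) * Q.im) =
      (lam ^ 2 * (d k / n)) * (P * conj Q).re := by
    intro P Q
    simp only [Complex.mul_re, Complex.conj_re, Complex.conj_im]
    linear_combination (lam ^ 2 * (P.re * Q.re + P.im * Q.im)) * hs
  simp_rw [h1, ← Finset.mul_sum, ← Complex.re_sum]
  have h2 := tr_aux (Matrix.of fun (i : Fin n × Fin (d k)) e => X k i.1 i.2 e)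
    (Matrix.of fun (i : Fin n × Fin (d k)) e => X' k i.1 i.2 e)
  simp only [Matrix.of_apply] at h2
  rw [h2, Complex.ofReal_re]
  congr 1
  refine Finset.sum_congr rfl fun e _ => Finset.sum_congr rfl fun e' _ => ?_
  rw [Fintype.sum_prod_type]

end Pool.Agent.H70.SS
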