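import Pool.Agent.H70.SS.Conc

/-!
# Concentration of the Gram matrix

PROOF of `conc`. `⟪yv l, yv l'⟫ = ∑ i ∉ S, coef ρ l (h i) * coef ρ l' (h i)` is a sum of
`n - |S|` independent random variables bounded by `1` with mean `coef_mean`, so its variance is at
most `n` and Chebyshev (`ProbabilityTheory.meas_ge_le_variance_div_sq`; `variance_sum_pi` or
`IndepFun.variance_sum`, or expand the square of the centred sum by hand) gives probability
`≤ n / (δ n) ^ 2 = 1 / (δ ^ 2 n)` for each of the `(2 K) ^ 2` pairs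
(`Fintype.card (VIdx d × Bool) = 2 * numK d`), union bound.
-/

set_option autoImplicit false

namespace Pool.Agent.H70.SS

open MeasureTheory ProbabilityTheory Module
open scoped BigOperators ComplexConjugate Matrix RealInnerProductSpace
open Pool.Agent.Results.MP_634cec_lc.LinearDegree Pool.Agent.H28.Schur

variable {G : Type} [Group G] [TopologicalSpace G] [IsTopologicalGroup G] [CompactSpace G]
  [MeasurableSpace G] [BorelSpace G] (μ : Measure G) [μ.IsHaarMeasure] [IsProbabilityMeasure μ]

omit [TopologicalSpace G] [IsTopologicalGroup G] [CompactSpace G] [MeasurableSpace G]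
  [BorelSpace G] in
private theorem inner_yv {L n : ℕ} {d : Fin L → ℕ}
    (ρ : ∀ k : Fin L, G →* Matrix.unitaryGroup (Fin (d k)) ℂ) (S : Finset (Fin n))
    (h : Fin n → G) (l l' : VIdx d × Bool) :
    ⟪yv ρ S h l, yv ρ S h l'⟫ =
      ∑ i, if i ∈ S then 0 else coef ρ l (h i) * coef ρ l' (h i) := by
  rw [PiLp.inner_apply]
  refine Finset.sum_congr rfl fun i _ => ?_
  simp only [yv]
  split_ifs
  · simp
  · simp [mul_comm]

omit [IsTopologicalGroup G] [CompactSpace G] in
theorem measurableSet_good {L n : ℕ} {d : Fin L → ℕ}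
    (ρ : ∀ k : Fin L, G →* Matrix.unitaryGroup (Fin (d k)) ℂ)
    (hρ : ∀ k, Continuous fun g => (ρ k g : Matrix (Fin (d k)) (Fin (d k)) ℂ))
    (S : Finset (Fin n)) (η : ℝ) : MeasurableSet {h : Fin n → G | Good ρ S η h} := by
  have e : {h : Fin n → G | Good ρ S η h} = ⋂ l : VIdx d × Bool, ⋂ l' : VIdx d × Bool,
      {h : Fin n → G | |(∑ i, if i ∈ S then 0 else coef ρ l (h i) * coef ρ l' (h i)) -
        if l = l' then ((n : ℝ) - S.card) / (2 * d l.1.1) else 0| ≤ η} := by
    ext h
    simp only [Set.mem_iInter]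
    constructor
    · intro hh l l'
      have h1 := hh l l'
      rw [inner_yv] at h1
      exact h1
    · intro hh l l'
      have h1 := hh l l'
      rw [inner_yv]
      exact h1
  rw [e]
  refine MeasurableSet.iInter fun l => MeasurableSet.iInter fun l' => ?_
  refine measurableSet_le ?_ measurable_const
  refine (Measurable.sub ?_ measurable_const).abs
  refine Finset.measurable_sum _ fun i _ => ?_
  by_cases hi : i ∈ S
  · simp only [hi, if_true]
    exact measurable_const
  · simp only [hi, if_false]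
    exact ((measurable_coef ρ hρ l).comp (measurable_pi_apply i)).mul
      ((measurable_coef ρ hρ l').comp (measurable_pi_apply i))

private theorem conc_one {L n : ℕ} {d : Fin L → ℕ} (hn : 0 < n)
    (ρ : ∀ k : Fin L, G →* Matrix.unitaryGroup (Fin (d k)) ℂ) (hρ : Admissible ρ)
    (S : Finset (Fin n)) {δ : ℝ} (hδ : 0 < δ) (l l' : VIdx d × Bool) :
    (Measure.pi fun _ : Fin n => μ).real {h | δ * n ≤ |⟪yv ρ S h l, yv ρ S h l'⟫ -
      if l = l' then ((n : ℝ) - S.card) / (2 * d l.1.1) else 0|} ≤ 1 / (δ ^ 2 * n) := by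
  classical
  have hn' : (0 : ℝ) < n := Nat.cast_pos.2 hn
  set X : Fin n → G → ℝ := fun i g => if i ∈ S then 0 else coef ρ l g * coef ρ l' g with hX
  have hm : ∀ i, Measurable (X i) := by
    intro i
    by_cases hi : i ∈ S
    · simp only [hX, hi, if_true]
      exact measurable_const
    · simp only [hX, hi, if_false]
      exact (measurable_coef ρ hρ.1 l).mul (measurable_coef ρ hρ.1 l')
  have hb : ∀ i g, |X i g| ≤ 1 := by
    intro i g
    by_cases hi : i ∈ S
    · simp only [hX, hi, if_true, abs_zero]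
      exact zero_le_one
    · simp only [hX, hi, if_false]
      rw [abs_mul]
      exact mul_le_one₀ (abs_coef_le ρ l g) (abs_nonneg _) (abs_coef_le ρ l' g)
  have hLp : ∀ i, MemLp (X i) 2 μ := fun i =>
    MemLp.of_bound (hm i).aestronglyMeasurable 1 (ae_of_all _ fun g => hb i g)
  have hvar : Var[∑ i, fun h : Fin n → G => X i (h i); Measure.pi fun _ : Fin n => μ] ≤ n := by
    rw [variance_sum_pi (μ := fun _ : Fin n => μ) (X := X) hLp]
    calc ∑ i, Var[X i; μ] ≤ ∑ i : Fin n, (1 : ℝ) := by
          refine Finset.sum_le_sum fun i _ => ?_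
          have := variance_le_sq_of_bounded (μ := μ) (a := -1) (b := 1) (X := X i)
            (ae_of_all _ fun g => abs_le.1 (hb i g)) (hm i).aemeasurable
          refine this.trans (le_of_eq ?_)
          norm_num
      _ = n := by simp
  have hLpi : ∀ i, MemLp (fun h : Fin n → G => X i (h i)) 2 (Measure.pi fun _ : Fin n => μ) :=
    fun i => (hLp i).comp_measurePreserving (measurePreserving_eval (fun _ : Fin n => μ) i)
  have hmemS : MemLp (∑ i, fun h : Fin n → G => X i (h i)) 2 (Measure.pi fun _ : Fin n => μ) :=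
    memLp_finsetSum' _ fun i _ => hLpi i
  have hmean : ∫ h, (∑ i, fun h : Fin n → G => X i (h i)) h ∂(Measure.pi fun _ : Fin n => μ) =
      if l = l' then ((n : ℝ) - S.card) / (2 * d l.1.1) else 0 := by
    simp only [Finset.sum_apply]
    rw [integral_finsetSum _ fun i _ => (hLpi i).integrable (by norm_num)]
    have e1 : ∀ i : Fin n, ∫ h : Fin n → G, X i (h i) ∂(Measure.pi fun _ : Fin n => μ) =
        (if l = l' then 1 / (2 * (d l.1.1 : ℝ)) else 0) -
          if i ∈ S then (if l = l' then 1 / (2 * (d l.1.1 : ℝ)) else 0) else 0 := by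
      intro i
      rw [integral_comp_eval (μ := fun _ : Fin n => μ) (hm i).aestronglyMeasurable]
      by_cases hi : i ∈ S
      · simp [hX, hi]
      · simp only [hX, hi, if_false, sub_zero]
        exact coef_mean μ ρ hρ l l'
    rw [Finset.sum_congr rfl fun i _ => e1 i, Finset.sum_sub_distrib, Finset.sum_const,
      Finset.card_univ, Fintype.card_fin, Finset.sum_ite_mem, Finset.univ_inter,
      Finset.sum_const, nsmul_eq_mul, nsmul_eq_mul]
    by_cases hl : l = l'
    · simp only [hl, if_true]
      ring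
    · simp [hl]
  have hc : (0 : ℝ) < δ * n := mul_pos hδ hn'
  have h1 := meas_ge_le_variance_div_sq hmemS hc
  rw [hmean] at h1
  have h2 : {h : Fin n → G | δ * n ≤ |⟪yv ρ S h l, yv ρ S h l'⟫ -
      if l = l' then ((n : ℝ) - S.card) / (2 * d l.1.1) else 0|} =
      {ω : Fin n → G | δ * n ≤ |(∑ i, fun h : Fin n → G => X i (h i)) ω -
        if l = l' then ((n : ℝ) - S.card) / (2 * d l.1.1) else 0|} := by
    ext h
    constructor
    · intro hh
      have h3 : δ * n ≤ |⟪yv ρ S h l, yv ρ S h l'⟫ -
        if l = l' then ((n : ℝ) - S.card) / (2 * d l.1.1) else 0| := hh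
      rw [inner_yv] at h3
      change δ * n ≤ |(∑ i, fun h : Fin n → G => X i (h i)) h -
        if l = l' then ((n : ℝ) - S.card) / (2 * d l.1.1) else 0|
      rw [Finset.sum_apply]
      exact h3
    · intro hh
      have h3 : δ * n ≤ |(∑ i, fun h : Fin n → G => X i (h i)) h -
        if l = l' then ((n : ℝ) - S.card) / (2 * d l.1.1) else 0| := hh
      rw [Finset.sum_apply] at h3
      change δ * n ≤ |⟪yv ρ S h l, yv ρ S h l'⟫ -
        if l = l' then ((n : ℝ) - S.card) / (2 * d l.1.1) else 0|
      rw [inner_yv]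
      exact h3
  rw [Measure.real, h2]
  refine ENNReal.toReal_le_of_le_ofReal (by positivity) (h1.trans ?_)
  refine ENNReal.ofReal_le_ofReal ?_
  calc Var[∑ i, fun h : Fin n → G => X i (h i); Measure.pi fun _ : Fin n => μ] / (δ * n) ^ 2
      ≤ n / (δ * n) ^ 2 := div_le_div_of_nonneg_right hvar (by positivity)
    _ = 1 / (δ ^ 2 * n) := by
      field_simp

theorem conc {L n : ℕ} {d : Fin L → ℕ} (hn : 0 < n)
    (ρ : ∀ k : Fin L, G →* Matrix.unitaryGroup (Fin (d k)) ℂ) (hρ : Admissible ρ)
    (S : Finset (Fin n)) {δ : ℝ} (hδ : 0 < δ) :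
    (Measure.pi fun _ : Fin n => μ).real {h | ¬ Good ρ S (δ * n) h} ≤
      (2 * numK d : ℝ) ^ 2 / (δ ^ 2 * n) := by
  classical
  have hsub : {h : Fin n → G | ¬ Good ρ S (δ * n) h} ⊆
      ⋃ p : (VIdx d × Bool) × (VIdx d × Bool), {h : Fin n → G | δ * n ≤
        |⟪yv ρ S h p.1, yv ρ S h p.2⟫ -
          if p.1 = p.2 then ((n : ℝ) - S.card) / (2 * d p.1.1.1) else 0|} := by
    intro h hh
    by_contra hcon
    apply hh
    intro l l'
    by_contra hlt
    apply hcon
    exact Set.mem_iUnion.2 ⟨(l, l'), (not_le.1 hlt).le⟩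
  refine (measureReal_mono hsub).trans ?_
  refine (measureReal_iUnion_fintype_le _).trans ?_
  refine (Finset.sum_le_sum fun p _ => conc_one μ hn ρ hρ S hδ p.1 p.2).trans (le_of_eq ?_)
  have hcard : Fintype.card ((VIdx d × Bool) × (VIdx d × Bool)) = (2 * numK d) ^ 2 := by
    have h1 : Fintype.card (VIdx d) = numK d := by
      simp [VIdx, numK, sq]
    rw [Fintype.card_prod, Fintype.card_prod, h1, Fintype.card_bool]
    ring
  rw [Finset.sum_const, Finset.card_univ, hcard, nsmul_eq_mul]
  push_cast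
  ring

end Pool.Agent.H70.SS
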