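import Pool.Agent.H70.SS.Defs

/-!
# Choice of the parameters

PROOF. Put `x = (n - s) / n ∈ [1 - θ, 1]`. `kM = 2 K lam ^ 2 (1 - x) ≤ 2 K lam ^ 2 θ` and
`kN (.., δ n) = lam ^ 2 x (1 + 4 D K δ / x) ^ 2 * (N₀ / (N₀ - 2 K + 1))` with
`N₀ = n - s ≥ (1 - θ) n`; so `kN ≤ lam ^ 2 (1 + 4 D K δ / (1 - θ)) ^ 2 / (1 - 2 K / ((1 - θ) n))`
and the sum is at most `lam ^ 2 (1 + 2 K θ) + o(1)` for `δ → 0`, `n → ∞`. Take
`κ = (1 + lam ^ 2 (1 + 2 K θ)) / 2`.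
-/

set_option autoImplicit false

namespace Pool.Agent.H70.SS

theorem kN_le (lam θ c : ℝ) (K D n s : ℕ) (δ : ℝ) (hθ1 : θ < 1) (hc : c = 4 * D * K * δ)
    (hc0 : 0 ≤ c) (hn : 0 < n) (hs : (s : ℝ) ≤ θ * n) (hK : (2 * K : ℝ) / n / (1 - θ) < 1) :
    kN lam K D n s (δ * n) ≤
      lam ^ 2 * (1 + 2 * c + c ^ 2 / (1 - θ)) / (1 - (2 * K : ℝ) / n / (1 - θ)) := by
  have hn' : (0 : ℝ) < n := by exact_mod_cast hn
  have ha : 0 < 1 - θ := by linarith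
  have hs0 : (0 : ℝ) ≤ s := Nat.cast_nonneg _
  have hK0 : (0 : ℝ) ≤ K := Nat.cast_nonneg _
  obtain ⟨m, hm⟩ : ∃ m : ℝ, m = (n : ℝ) - s := ⟨_, rfl⟩
  obtain ⟨a, hadef⟩ : ∃ a : ℝ, a = 1 - θ := ⟨_, rfl⟩
  rw [← hadef] at ha hK ⊢
  have hm1 : a * n ≤ m := by rw [hm, hadef]; nlinarith
  have hm2 : m ≤ n := by rw [hm]; linarith
  have han : 0 < a * n := by positivity
  have hm0 : 0 < m := lt_of_lt_of_le han hm1
  have hKa : (2 * K : ℝ) < a * n := by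
    rw [div_div, div_lt_one (by positivity)] at hK
    linarith [mul_comm (n : ℝ) a]
  have hd1 : 0 < 1 - (2 * K : ℝ) / n / a := by linarith
  have hd2 : 0 < (n : ℝ) * (m - 2 * K + 1) := by
    apply mul_pos hn'
    linarith
  have hkey : kN lam K D n s (δ * n) = lam ^ 2 * (m + c * n) ^ 2 / (n * (m - 2 * K + 1)) := by
    unfold kN
    rw [hm, hc]
    congr 1
    ring
  rw [hkey, div_le_div_iff₀ hd2 hd1]
  -- first factor
  have h1 : (1 - (2 * K : ℝ) / n / a) * m ≤ m - 2 * K + 1 := by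
    have : (2 * K : ℝ) ≤ (2 * K : ℝ) / n / a * m := by
      rw [div_div, div_mul_eq_mul_div, le_div_iff₀ (by positivity)]
      nlinarith
    linarith
  have h2 : (m + c * n) ^ 2 ≤ (1 + 2 * c + c ^ 2 / a) * n * m := by
    have e1 : c ^ 2 * (n : ℝ) ^ 2 ≤ c ^ 2 / a * n * m := by
      rw [div_mul_eq_mul_div, div_mul_eq_mul_div, le_div_iff₀ ha]
      have : c ^ 2 * n * (a * n) ≤ c ^ 2 * n * m :=
        mul_le_mul_of_nonneg_left hm1 (by positivity)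
      linarith
    have e2 : m ^ 2 ≤ n * m := by nlinarith
    have e3 : (m + c * n) ^ 2 = m ^ 2 + 2 * c * n * m + c ^ 2 * (n : ℝ) ^ 2 := by ring
    rw [e3]
    nlinarith
  have hB : 0 ≤ 1 + 2 * c + c ^ 2 / a := by positivity
  have h3 : (m + c * n) ^ 2 * (1 - (2 * K : ℝ) / n / a) ≤
      (1 + 2 * c + c ^ 2 / a) * n * (m - 2 * K + 1) := by
    calc (m + c * n) ^ 2 * (1 - (2 * K : ℝ) / n / a)
        ≤ (1 + 2 * c + c ^ 2 / a) * n * m * (1 - (2 * K : ℝ) / n / a) :=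
          mul_le_mul_of_nonneg_right h2 hd1.le
      _ = (1 + 2 * c + c ^ 2 / a) * n * ((1 - (2 * K : ℝ) / n / a) * m) := by ring
      _ ≤ (1 + 2 * c + c ^ 2 / a) * n * (m - 2 * K + 1) :=
          mul_le_mul_of_nonneg_left h1 (by positivity)
  have h4 := mul_le_mul_of_nonneg_left h3 (sq_nonneg lam)
  calc lam ^ 2 * (m + c * n) ^ 2 * (1 - (2 * K : ℝ) / n / a)
      = lam ^ 2 * ((m + c * n) ^ 2 * (1 - (2 * K : ℝ) / n / a)) := by ring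
    _ ≤ lam ^ 2 * ((1 + 2 * c + c ^ 2 / a) * n * (m - 2 * K + 1)) := h4
    _ = lam ^ 2 * (1 + 2 * c + c ^ 2 / a) * (n * (m - 2 * K + 1)) := by ring

theorem kM_le (lam θ : ℝ) (K n s : ℕ) (hn : 0 < n) (hs : (s : ℝ) ≤ θ * n) :
    kM lam K n s ≤ 2 * K * lam ^ 2 * θ := by
  have hn' : (0 : ℝ) < n := by exact_mod_cast hn
  unfold kM
  rw [div_le_iff₀ hn']
  have : 0 ≤ 2 * (K : ℝ) * lam ^ 2 := by positivity
  nlinarith [mul_le_mul_of_nonneg_left hs this]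

theorem params (lam θ : ℝ) (K D : ℕ) (h0 : 0 ≤ lam) (hθ0 : 0 ≤ θ) (hθ1 : θ < 1)
    (h : lam ^ 2 * (1 + 2 * K * θ) < 1) :
    ∃ κ : ℝ, 0 ≤ κ ∧ κ < 1 ∧ ∃ δ : ℝ, 0 < δ ∧ ∃ N : ℕ, ∀ n : ℕ, N ≤ n → ∀ s : ℕ, (s : ℝ) ≤ θ * n →
      0 < n ∧ s ≤ n ∧ 2 * K ≤ n - s ∧ (2 * K : ℝ) ^ 2 / (δ ^ 2 * n) ≤ 1 / 4 ∧
      kM lam K n s + kN lam K D n s (δ * n) ≤ κ := by
  have ha : 0 < 1 - θ := by linarith
  have hX : 0 ≤ lam ^ 2 * (1 + 2 * K * θ) := by positivity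
  obtain ⟨κ, hκ⟩ : ∃ κ : ℝ, κ = (1 + lam ^ 2 * (1 + 2 * K * θ)) / 2 := ⟨_, rfl⟩
  refine ⟨κ, by rw [hκ]; linarith, by rw [hκ]; linarith, ?_⟩
  -- choice of δ
  have hδ : ∃ δ : ℝ, 0 < δ ∧ lam ^ 2 * (1 + 2 * (4 * D * K * δ) + (4 * D * K * δ) ^ 2 / (1 - θ)) +
      2 * K * lam ^ 2 * θ < κ := by
    have hcont : Continuous fun δ : ℝ =>
        lam ^ 2 * (1 + 2 * (4 * D * K * δ) + (4 * D * K * δ) ^ 2 / (1 - θ)) +
          2 * K * lam ^ 2 * θ := by fun_prop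
    have hev : ∀ᶠ δ in nhds (0 : ℝ),
        lam ^ 2 * (1 + 2 * (4 * D * K * δ) + (4 * D * K * δ) ^ 2 / (1 - θ)) +
          2 * K * lam ^ 2 * θ < κ := by
      apply hcont.continuousAt.eventually_lt continuousAt_const
      rw [hκ]
      ring_nf at h ⊢
      linarith
    obtain ⟨ε, hε, hball⟩ := Metric.eventually_nhds_iff.1 hev
    refine ⟨ε / 2, by positivity, hball ?_⟩
    rw [Real.dist_eq, sub_zero, abs_of_pos (by positivity)]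
    linarith
  obtain ⟨δ, hδ0, hδ1⟩ := hδ
  refine ⟨δ, hδ0, ?_⟩
  obtain ⟨c, hc⟩ : ∃ c : ℝ, c = 4 * D * K * δ := ⟨_, rfl⟩
  have hc0 : 0 ≤ c := by rw [hc]; positivity
  rw [← hc] at hδ1
  have hinv : Filter.Tendsto (fun n : ℕ => (2 * K : ℝ) / n) Filter.atTop (nhds 0) :=
    tendsto_const_div_atTop_nhds_zero_nat _
  have t1 : Filter.Tendsto (fun n : ℕ => (2 * K : ℝ) / n / (1 - θ)) Filter.atTop (nhds 0) := by
    have := hinv.div_const (1 - θ)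
    rwa [zero_div] at this
  have t2 : Filter.Tendsto (fun n : ℕ => lam ^ 2 * (1 + 2 * c + c ^ 2 / (1 - θ)) /
      (1 - (2 * K : ℝ) / n / (1 - θ)) + 2 * K * lam ^ 2 * θ) Filter.atTop
      (nhds (lam ^ 2 * (1 + 2 * c + c ^ 2 / (1 - θ)) / (1 - 0) + 2 * K * lam ^ 2 * θ)) := by
    apply Filter.Tendsto.add_const
    apply Filter.Tendsto.div tendsto_const_nhds (tendsto_const_nhds.sub t1)
    norm_num
  have t3 : Filter.Tendsto (fun n : ℕ => (2 * K : ℝ) ^ 2 / δ ^ 2 / n) Filter.atTop (nhds 0) :=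
    tendsto_const_div_atTop_nhds_zero_nat _
  have e1 := t1.eventually_lt_const (show (0 : ℝ) < 1 by norm_num)
  have e2 := t2.eventually_lt_const (show lam ^ 2 * (1 + 2 * c + c ^ 2 / (1 - θ)) / (1 - 0) +
    2 * K * lam ^ 2 * θ < κ by rw [sub_zero, div_one]; exact hδ1)
  have e3 := t3.eventually_lt_const (show (0 : ℝ) < 1 / 4 by norm_num)
  obtain ⟨N, hN⟩ := Filter.eventually_atTop.1 ((e1.and (e2.and e3)).and
    (Filter.eventually_gt_atTop 0))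
  refine ⟨N, fun n hn s hs => ?_⟩
  obtain ⟨⟨g1, g2, g3⟩, hn0⟩ := hN n hn
  have hn' : (0 : ℝ) < n := by exact_mod_cast hn0
  have hsn : (s : ℝ) ≤ n := by nlinarith
  have hsn' : s ≤ n := by exact_mod_cast hsn
  refine ⟨hn0, hsn', ?_, ?_, ?_⟩
  · have hK : (2 * K : ℝ) < (1 - θ) * n := by
      have g := g1
      rw [div_div, div_lt_one (by positivity)] at g
      linarith [mul_comm (n : ℝ) (1 - θ)]
    have : (2 * K : ℝ) ≤ (n - s : ℕ) := by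
      rw [Nat.cast_sub hsn']
      nlinarith
    exact_mod_cast this
  · rw [← div_div]
    exact g3.le
  · have h1 := kM_le lam θ K n s hn0 hs
    have h2 := kN_le lam θ c K D n s δ hθ1 hc hc0 hn0 hs g1
    linarith

end Pool.Agent.H70.SS
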