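import Pool.Agent.H70.SS.PerH
import Pool.Agent.H70.SS.Par
import Pool.Agent.H70.SS.Conc2

/-!
# Assembly
-/

set_option autoImplicit false
set_option linter.unusedSectionVars false

namespace Pool.Agent.H70.SS

open MeasureTheory ProbabilityTheory Module
open scoped BigOperators ComplexConjugate Matrix RealInnerProductSpace
open Pool.Agent.Results.MP_634cec_lc.LinearDegree

variable {G : Type} [Group G] [TopologicalSpace G] [IsTopologicalGroup G] [CompactSpace G]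
  [MeasurableSpace G] [BorelSpace G] (μ : Measure G) [μ.IsHaarMeasure] [IsProbabilityMeasure μ]

omit [IsTopologicalGroup G] [CompactSpace G] [μ.IsHaarMeasure] in
theorem null_eq {L n : ℕ} {d : Fin L → ℕ}
    (ρ : ∀ k : Fin L, G →* Matrix.unitaryGroup (Fin (d k)) ℂ)
    (φ : (Coord n d → ℝ) → ℝ) :
    ∫ ω, φ (data ρ 0 ω) ∂(law μ n d) = ∫ z, φ (symm z) ∂(gam (Coord n d)) := by
  have h : (fun ω : (Fin n → G) × (Coord n d → ℝ) => φ (data ρ 0 ω)) =
      fun ω => φ (symm ω.2) := by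
    funext ω
    rw [data_symm, shift_zero, zero_add]
  rw [h]
  unfold law
  rw [integral_fun_snd (μ := Measure.pi fun _ : Fin n => μ)
    (ν := Measure.pi fun _ : Coord n d => gaussianReal 0 1) (fun z => φ (symm z))]
  simp

omit [IsTopologicalGroup G] [CompactSpace G] in
theorem integrable_of_test {α : Type*} [MeasurableSpace α] (P : Measure α)
    [IsProbabilityMeasure P] (f : α → ℝ) (hf : Measurable f) (h0 : ∀ x, 0 ≤ f x)
    (h1 : ∀ x, f x ≤ 1) : Integrable f P :=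
  Integrable.of_bound (C := 1) hf.aestronglyMeasurable
    (Filter.Eventually.of_forall fun x => by
      rw [Real.norm_eq_abs, abs_of_nonneg (h0 x)]; exact h1 x)

omit [IsTopologicalGroup G] [CompactSpace G] in
theorem measurable_joint {L n : ℕ} {d : Fin L → ℕ} (lam : ℝ)
    (ρ : ∀ k : Fin L, G →* Matrix.unitaryGroup (Fin (d k)) ℂ)
    (hρ : ∀ k, Continuous fun g => (ρ k g : Matrix (Fin (d k)) (Fin (d k)) ℂ))
    (φ : (Coord n d → ℝ) → ℝ) (hφ : Measurable φ) :
    Measurable fun p : (Fin n → G) × (Coord n d → ℝ) => φ (symm (shift ρ lam p.1 + p.2)) := by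
  refine hφ.comp (measurable_symm.comp ?_)
  refine Measurable.add ?_ measurable_snd
  exact (measurable_pi_lambda _ fun c => measurable_shift ρ hρ lam c).comp measurable_fst

/-- the acceptance probability given the signals -/
noncomputable def HH {L n : ℕ} {d : Fin L → ℕ} (lam : ℝ)
    (ρ : ∀ k : Fin L, G →* Matrix.unitaryGroup (Fin (d k)) ℂ)
    (φ : (Coord n d → ℝ) → ℝ) (g : Fin n → G) : ℝ :=
  ∫ z, φ (symm (shift ρ lam g + z)) ∂(gam (Coord n d))

theorem measurable_HH {L n : ℕ} {d : Fin L → ℕ} (lam : ℝ)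
    (ρ : ∀ k : Fin L, G →* Matrix.unitaryGroup (Fin (d k)) ℂ)
    (hρ : ∀ k, Continuous fun g => (ρ k g : Matrix (Fin (d k)) (Fin (d k)) ℂ))
    (φ : (Coord n d → ℝ) → ℝ) (hφ : Measurable φ) : Measurable (HH (n := n) lam ρ φ) := by
  unfold HH
  exact (measurable_joint lam ρ hρ φ hφ).stronglyMeasurable.integral_prod_right.measurable

theorem HH_nonneg {L n : ℕ} {d : Fin L → ℕ} (lam : ℝ)
    (ρ : ∀ k : Fin L, G →* Matrix.unitaryGroup (Fin (d k)) ℂ)
    (φ : (Coord n d → ℝ) → ℝ) (h0 : ∀ y, 0 ≤ φ y) (g : Fin n → G) : 0 ≤ HH lam ρ φ g :=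
  integral_nonneg fun _ => h0 _

theorem HH_le_one {L n : ℕ} {d : Fin L → ℕ} (lam : ℝ)
    (ρ : ∀ k : Fin L, G →* Matrix.unitaryGroup (Fin (d k)) ℂ)
    (φ : (Coord n d → ℝ) → ℝ) (hφ : Measurable φ) (h0 : ∀ y, 0 ≤ φ y) (h1 : ∀ y, φ y ≤ 1)
    (g : Fin n → G) : HH lam ρ φ g ≤ 1 := by
  have hm : Measurable fun z : Coord n d → ℝ => φ (symm (shift ρ lam g + z)) :=
    hφ.comp (measurable_symm.comp (measurable_id.const_add _))
  calc HH lam ρ φ g ≤ ∫ _ : Coord n d → ℝ, (1 : ℝ) ∂(gam (Coord n d)) :=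
        integral_mono (integrable_of_test _ _ hm (fun _ => h0 _) fun _ => h1 _)
          (integrable_const _) fun _ => h1 _
    _ = 1 := by simp

theorem alt_eq {L n : ℕ} {d : Fin L → ℕ} (lam : ℝ)
    (ρ : ∀ k : Fin L, G →* Matrix.unitaryGroup (Fin (d k)) ℂ)
    (hρ : ∀ k, Continuous fun g => (ρ k g : Matrix (Fin (d k)) (Fin (d k)) ℂ))
    (φ : (Coord n d → ℝ) → ℝ) (hφ : Measurable φ) (h0 : ∀ y, 0 ≤ φ y) (h1 : ∀ y, φ y ≤ 1)
    (S : Finset (Fin n)) :
    ∫ ω, φ (data ρ lam ω) ∂(law μ n d) =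
      ∫ h, ∫ u, HH lam ρ φ (mix S u h) ∂(Measure.pi fun _ : Fin n => μ)
        ∂(Measure.pi fun _ : Fin n => μ) := by
  have hj := measurable_joint lam ρ hρ φ hφ
  have e1 : ∫ ω, φ (data ρ lam ω) ∂(law μ n d) =
      ∫ g, HH lam ρ φ g ∂(Measure.pi fun _ : Fin n => μ) := by
    simp_rw [data_symm]
    unfold law HH
    exact integral_prod _ (integrable_of_test _ _ hj (fun _ => h0 _) fun _ => h1 _)
  rw [e1]
  have hm := measurable_HH (n := n) lam ρ hρ φ hφ
  have e3 : ∫ g, HH lam ρ φ g ∂(Measure.pi fun _ : Fin n => μ) =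
      ∫ p, HH lam ρ φ (mix S p.1 p.2)
        ∂((Measure.pi fun _ : Fin n => μ).prod (Measure.pi fun _ : Fin n => μ)) := by
    rw [← (mix_pres μ S).map_eq]
    rw [integral_map (measurable_mix S).aemeasurable hm.aestronglyMeasurable]
    rw [(mix_pres μ S).map_eq]
  rw [e3]
  exact integral_prod_symm _ (integrable_of_test _ _ (hm.comp (measurable_mix S))
    (fun _ => HH_nonneg lam ρ φ h0 _) fun _ => HH_le_one lam ρ φ hφ h0 h1 _)

theorem measurable_Q {L n : ℕ} {d : Fin L → ℕ} (lam : ℝ)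
    (ρ : ∀ k : Fin L, G →* Matrix.unitaryGroup (Fin (d k)) ℂ)
    (hρ : ∀ k, Continuous fun g => (ρ k g : Matrix (Fin (d k)) (Fin (d k)) ℂ))
    (φ : (Coord n d → ℝ) → ℝ) (hφ : Measurable φ) (S : Finset (Fin n)) :
    Measurable fun h : Fin n → G =>
      ∫ u, HH lam ρ φ (mix S u h) ∂(Measure.pi fun _ : Fin n => μ) := by
  have hHm := measurable_HH (n := n) lam ρ hρ φ hφ
  have h1 : Measurable fun p : (Fin n → G) × (Fin n → G) => HH lam ρ φ (mix S p.2 p.1) :=
    hHm.comp ((measurable_mix S).comp measurable_swap)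
  exact (StronglyMeasurable.integral_prod_right'
    (f := fun p : (Fin n → G) × (Fin n → G) => HH lam ρ φ (mix S p.2 p.1))
    h1.stronglyMeasurable).measurable

/-- the numerical inequality at the end -/
theorem final_ineq {P0 P1 b S2 : ℝ} (hP0 : 0 ≤ P0) (hP1 : P1 ≤ 1) (hS : 0 < S2) (hb : b ≤ 1 / 4)
    (h : P1 ≤ b + Real.sqrt (P0 * S2)) : min (1 / (4 * S2)) (1 / 4) ≤ P0 + (1 - P1) := by
  by_cases hc : P0 * S2 ≤ 1 / 4
  · have h2 : Real.sqrt (P0 * S2) ≤ 1 / 2 := by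
      rw [show (1 / 2 : ℝ) = Real.sqrt (1 / 4) by
        rw [show (1 / 4 : ℝ) = (1 / 2) ^ 2 by norm_num, Real.sqrt_sq (by norm_num)]]
      exact Real.sqrt_le_sqrt hc
    refine (min_le_right _ _).trans ?_
    linarith
  · push Not at hc
    refine (min_le_left _ _).trans ?_
    rw [div_le_iff₀ (by positivity)]
    nlinarith

theorem main_bound (L : ℕ) (d : Fin L → ℕ) (lam θ : ℝ) (h0 : 0 ≤ lam) (hθ0 : 0 ≤ θ) (hθ1 : θ < 1)
    (hl : lam ^ 2 * (1 + 2 * (∑ k, (d k : ℝ) ^ 2) * θ) < 1) :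
    ∃ ε : ℝ, 0 < ε ∧ ∃ N : ℕ, ∀ (G : Type) [Group G] [TopologicalSpace G] [IsTopologicalGroup G]
      [CompactSpace G] [MeasurableSpace G] [BorelSpace G] (μ : Measure G) [μ.IsHaarMeasure]
      [IsProbabilityMeasure μ] (ρ : ∀ k : Fin L, G →* Matrix.unitaryGroup (Fin (d k)) ℂ),
      Admissible ρ → ∀ n : ℕ, N ≤ n → ∀ S : Finset (Fin n), (S.card : ℝ) ≤ θ * n →
      ∀ φ : (Coord n d → ℝ) → ℝ, Measurable φ → (∀ y, 0 ≤ φ y) → (∀ y, φ y ≤ 1) →
        InvariantOff S φ →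
        ε ≤ (∫ ω, φ (data ρ 0 ω) ∂(law μ n d)) + (1 - ∫ ω, φ (data ρ lam ω) ∂(law μ n d)) := by
  classical
  have hK : ((numK d : ℕ) : ℝ) = ∑ k, (d k : ℝ) ^ 2 := by
    unfold numK; push_cast; rfl
  rw [← hK] at hl
  obtain ⟨κ, hκ0, hκ1, δ, hδ, N, hN⟩ := params lam θ (numK d) (∑ k, d k) h0 hθ0 hθ1 hl
  have hS2 : 0 < ((Real.sqrt (1 - κ))⁻¹) ^ (2 * numK d) :=
    pow_pos (inv_pos.mpr (Real.sqrt_pos.mpr (by linarith))) _
  set S2 : ℝ := ((Real.sqrt (1 - κ))⁻¹) ^ (2 * numK d) with hS2def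
  refine ⟨min (1 / (4 * S2)) (1 / 4), lt_min (by positivity) (by norm_num), N, ?_⟩
  intro G _ _ _ _ _ _ μ _ _ ρ hρ n hn S hS φ hφ hφ0 hφ1 hinv
  obtain ⟨hn0, hSn, hm, hbad, hsum⟩ := hN n hn S.card hS
  have hcont := hρ.1
  rw [null_eq μ ρ φ, alt_eq μ lam ρ hcont φ hφ hφ0 hφ1 S]
  set ν := Measure.pi fun _ : Fin n => μ with hν
  set P0 := ∫ z, φ (symm z) ∂(gam (Coord n d)) with hP0
  have hP0nn : 0 ≤ P0 := integral_nonneg fun _ => hφ0 _
  have hHm := measurable_HH (n := n) lam ρ hcont φ hφ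
  have hQm : Measurable fun h : Fin n → G => ∫ u, HH lam ρ φ (mix S u h) ∂ν :=
    measurable_Q μ lam ρ hcont φ hφ S
  have hQ0 : ∀ h : Fin n → G, 0 ≤ ∫ u, HH lam ρ φ (mix S u h) ∂ν := fun h =>
    integral_nonneg fun _ => HH_nonneg lam ρ φ hφ0 _
  have hmu : ∀ h : Fin n → G, Measurable fun u : Fin n → G => HH lam ρ φ (mix S u h) := fun h =>
    hHm.comp ((measurable_mix S).comp (measurable_id.prodMk measurable_const))
  have hQ1 : ∀ h : Fin n → G, ∫ u, HH lam ρ φ (mix S u h) ∂ν ≤ 1 := fun h => by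
    calc ∫ u, HH lam ρ φ (mix S u h) ∂ν ≤ ∫ _ : Fin n → G, (1 : ℝ) ∂ν :=
          integral_mono (integrable_of_test _ _ (hmu h) (fun _ => HH_nonneg lam ρ φ hφ0 _)
            fun _ => HH_le_one lam ρ φ hφ hφ0 hφ1 _) (integrable_const _)
            fun _ => HH_le_one lam ρ φ hφ hφ0 hφ1 _
      _ = 1 := by simp
  have hQint : Integrable (fun h : Fin n → G => ∫ u, HH lam ρ φ (mix S u h) ∂ν) ν :=
    integrable_of_test _ _ hQm hQ0 hQ1
  have hδn : (0 : ℝ) ≤ δ * n := by positivity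
  have hD : ∀ k, d k ≤ ∑ k, d k := fun k =>
    Finset.single_le_sum (f := d) (fun _ _ => Nat.zero_le _) (Finset.mem_univ k)
  have hgood : ∀ h : Fin n → G, Good ρ S (δ * n) h →
      ∫ u, HH lam ρ φ (mix S u h) ∂ν ≤ Real.sqrt (P0 * S2) := by
    intro h hh
    have := per_h μ lam hn0 (∑ k, d k) hD ρ hρ S hm hSn (δ * n) hδn κ hκ1 hsum φ hφ hφ0 hφ1
      hinv h hh
    exact Real.le_sqrt_of_sq_le this
  have hbm : MeasurableSet {h : Fin n → G | ¬ Good ρ S (δ * n) h} :=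
    (measurableSet_good ρ hcont S (δ * n)).compl
  have hint2 : Integrable (fun h : Fin n → G => Real.sqrt (P0 * S2) +
      Set.indicator {h : Fin n → G | ¬ Good ρ S (δ * n) h} (fun _ => (1 : ℝ)) h) ν :=
    (integrable_const _).add ((integrable_const _).indicator hbm)
  have key : ∫ h, ∫ u, HH lam ρ φ (mix S u h) ∂ν ∂ν ≤
      ν.real {h : Fin n → G | ¬ Good ρ S (δ * n) h} + Real.sqrt (P0 * S2) := by
    calc ∫ h, ∫ u, HH lam ρ φ (mix S u h) ∂ν ∂ν ≤
        ∫ h, (Real.sqrt (P0 * S2) +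
          Set.indicator {h : Fin n → G | ¬ Good ρ S (δ * n) h} (fun _ => (1 : ℝ)) h) ∂ν := by
          refine integral_mono hQint hint2 fun h => ?_
          by_cases hh : Good ρ S (δ * n) h
          · have : Set.indicator {h : Fin n → G | ¬ Good ρ S (δ * n) h} (fun _ => (1 : ℝ)) h = 0 :=
              Set.indicator_of_notMem (by simpa using hh) _
            simp only [this, add_zero]
            exact hgood h hh
          · have : Set.indicator {h : Fin n → G | ¬ Good ρ S (δ * n) h} (fun _ => (1 : ℝ)) h = 1 :=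
              Set.indicator_of_mem (by simpa using hh) _
            simp only [this]
            have := hQ1 h
            have h2 := Real.sqrt_nonneg (P0 * S2)
            linarith
      _ = ν.real {h : Fin n → G | ¬ Good ρ S (δ * n) h} + Real.sqrt (P0 * S2) := by
          rw [integral_add (integrable_const _) ((integrable_const _).indicator hbm),
            integral_indicator_const _ hbm]
          simp
          ring
  have hb := (conc μ hn0 ρ hρ S hδ).trans hbad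
  refine final_ineq hP0nn ?_ hS2 hb key
  calc ∫ h, ∫ u, HH lam ρ φ (mix S u h) ∂ν ∂ν ≤ ∫ _ : Fin n → G, (1 : ℝ) ∂ν :=
        integral_mono hQint (integrable_const _) fun h => hQ1 h
    _ = 1 := by simp

end Pool.Agent.H70.SS
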