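import Mathlib

/-!
# Nearly orthogonal families

PROOF of `near_gram`: `∑ ∑ (⟪y l, y l'⟫ - δ a l) ⟪A l, A l'⟫ ≤ η (∑ ‖A l‖) ^ 2 ≤
η card ι ∑ ‖A l‖ ^ 2` (`sq_sum_le_card_mul_sum_sq`). `near_norm`: the same with numbers `c l`,
`‖∑ c l • y l‖ ^ 2 = ∑ ∑ c l c l' ⟪y l, y l'⟫`.
-/

set_option autoImplicit false

namespace Pool.Agent.H70.SS

open scoped BigOperators RealInnerProductSpace

variable {E : Type*} [NormedAddCommGroup E] [InnerProductSpace ℝ E]

private theorem near_aux {ι : Type*} [Fintype ι] [DecidableEq ι] (g : ι → ι → ℝ) (a : ι → ℝ)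
    (η : ℝ) (h : ∀ l l', |g l l' - if l = l' then a l else 0| ≤ η) (F : ι → ι → ℝ) (t : ι → ℝ)
    (ht : ∀ l, 0 ≤ t l) (hF : ∀ l l', |F l l'| ≤ t l * t l') (hd : ∀ l, F l l = t l ^ 2) :
    ∑ l, ∑ l', g l l' * F l l' ≤ ∑ l, (a l + η * Fintype.card ι) * t l ^ 2 := by
  rcases isEmpty_or_nonempty ι with hι | ⟨⟨i0⟩⟩
  · simp
  have hη : 0 ≤ η := le_trans (abs_nonneg _) (h i0 i0)
  have h1 : ∀ l l', g l l' * F l l' ≤ (if l = l' then a l * t l ^ 2 else 0) + η * (t l * t l') := by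
    intro l l'
    have e1 : g l l' * F l l' = (if l = l' then a l else 0) * F l l' +
        (g l l' - if l = l' then a l else 0) * F l l' := by ring
    have e2 : (if l = l' then a l else 0) * F l l' = if l = l' then a l * t l ^ 2 else 0 := by
      split_ifs with hh
      · subst hh; rw [hd]
      · ring
    have e3 : (g l l' - if l = l' then a l else 0) * F l l' ≤ η * (t l * t l') := by
      refine le_trans (le_abs_self _) ?_
      rw [abs_mul]
      exact mul_le_mul (h l l') (hF l l') (abs_nonneg _) hη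
    rw [e1, e2]
    linarith
  have h2 : ∑ l, ∑ l', g l l' * F l l' ≤
      ∑ l, ∑ l', ((if l = l' then a l * t l ^ 2 else 0) + η * (t l * t l')) :=
    Finset.sum_le_sum fun l _ => Finset.sum_le_sum fun l' _ => h1 l l'
  refine le_trans h2 ?_
  have h3 : ∑ l, ∑ l', ((if l = l' then a l * t l ^ 2 else 0) + η * (t l * t l')) =
      ∑ l, a l * t l ^ 2 + η * (∑ l, t l) ^ 2 := by
    rw [pow_two (∑ l, t l), Finset.sum_mul_sum, Finset.mul_sum, ← Finset.sum_add_distrib]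
    refine Finset.sum_congr rfl fun l _ => ?_
    rw [Finset.sum_add_distrib, Finset.mul_sum]
    simp
  rw [h3]
  have h4 : (∑ l, t l) ^ 2 ≤ (Fintype.card ι : ℝ) * ∑ l, t l ^ 2 := by
    have := sq_sum_le_card_mul_sum_sq (s := (Finset.univ : Finset ι)) (f := t)
    simpa using this
  have h5 : η * (∑ l, t l) ^ 2 ≤ η * ((Fintype.card ι : ℝ) * ∑ l, t l ^ 2) :=
    mul_le_mul_of_nonneg_left h4 hη
  have h6 : ∑ l, (a l + η * Fintype.card ι) * t l ^ 2 =
      ∑ l, a l * t l ^ 2 + η * ((Fintype.card ι : ℝ) * ∑ l, t l ^ 2) := by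
    rw [Finset.mul_sum, Finset.mul_sum, ← Finset.sum_add_distrib]
    refine Finset.sum_congr rfl fun l _ => ?_
    ring
  rw [h6]
  linarith

theorem near_gram {ι : Type*} [Fintype ι] [DecidableEq ι] (y : ι → E) (a : ι → ℝ) (η : ℝ)
    (h : ∀ l l', |⟪y l, y l'⟫ - if l = l' then a l else 0| ≤ η) (A : ι → E) :
    ∑ l, ∑ l', ⟪y l, y l'⟫ * ⟪A l, A l'⟫ ≤ ∑ l, (a l + η * Fintype.card ι) * ‖A l‖ ^ 2 := by
  refine near_aux (fun l l' => ⟪y l, y l'⟫) a η h (fun l l' => ⟪A l, A l'⟫) (fun l => ‖A l‖)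
    (fun l => norm_nonneg _) (fun l l' => abs_real_inner_le_norm _ _)
    (fun l => real_inner_self_eq_norm_sq _)

theorem near_norm {ι : Type*} [Fintype ι] [DecidableEq ι] (y : ι → E) (a : ι → ℝ) (η : ℝ)
    (h : ∀ l l', |⟪y l, y l'⟫ - if l = l' then a l else 0| ≤ η) (c : ι → ℝ) :
    ‖∑ l, c l • y l‖ ^ 2 ≤ ∑ l, (a l + η * Fintype.card ι) * c l ^ 2 := by
  have h1 : ‖∑ l, c l • y l‖ ^ 2 = ∑ l, ∑ l', ⟪y l, y l'⟫ * (c l * c l') := by
    rw [← real_inner_self_eq_norm_sq, sum_inner]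
    refine Finset.sum_congr rfl fun l _ => ?_
    rw [inner_sum]
    refine Finset.sum_congr rfl fun l' _ => ?_
    rw [real_inner_smul_left, real_inner_smul_right]
    ring
  rw [h1]
  have := near_aux (fun l l' => ⟪y l, y l'⟫) a η h (fun l l' => c l * c l') (fun l => |c l|)
    (fun l => abs_nonneg _) (fun l l' => by rw [abs_mul]) (fun l => by rw [sq_abs]; ring)
  simpa [sq_abs] using this

end Pool.Agent.H70.SS
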