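import Pool.Agent.H70.SS.RotO

/-!
# Random rotations of an arbitrary family

PROOF of `rot_general`. Let `F` be the span of the `y l`, `p = finrank F ≤ card ι`, `f` an
orthonormal basis of `F` (as vectors of `E`; they lie in `Uᗮ`). `y l = ∑ j, ⟪f j, y l⟫ f j`, so
`∑ l, ⟪Θ (y l), A l⟫ = ∑ j, ⟪Θ (f j), B j⟫` with `B j = ∑ l, ⟪f j, y l⟫ A l`, and
`∑ j, ‖B j‖ ^ 2 = ∑ l, ∑ l', (∑ j, ⟪f j, y l⟫ ⟪f j, y l'⟫) ⟪A l, A l'⟫ = ∑ ∑ ⟪y l, y l'⟫ ⟪A l, A l'⟫`
(Parseval). Apply `rot_orthonormal`, and `p ≤ card ι` together with `∑ ‖B j‖ ^ 2 ≥ 0` for the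
denominator.
-/

set_option autoImplicit false

namespace Pool.Agent.H70.SS

open scoped BigOperators RealInnerProductSpace
open Module

variable {E : Type*} [NormedAddCommGroup E] [InnerProductSpace ℝ E] [FiniteDimensional ℝ E]

theorem rot_general {ι : Type*} [Fintype ι] (U : Submodule ℝ E) (y : ι → E)
    (hy : ∀ l, y l ∈ Uᗮ) (hm : Fintype.card ι ≤ finrank ℝ Uᗮ) :
    ∃ (Ω : Type) (_ : Fintype Ω) (_ : Nonempty Ω) (Θ : Ω → E ≃ₗᵢ[ℝ] E),
      (∀ ω, ∀ x ∈ U, Θ ω x = x) ∧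
      ∀ A : ι → E, ∑ ω, Real.exp (∑ l, ⟪Θ ω (y l), A l⟫) ≤
        Fintype.card Ω * Real.exp ((∑ l, ∑ l', ⟪y l, y l'⟫ * ⟪A l, A l'⟫) /
          (2 * ((finrank ℝ Uᗮ : ℝ) - Fintype.card ι + 1))) := by
  classical
  set F : Submodule ℝ E := Submodule.span ℝ (Set.range y) with hF
  have hFU : F ≤ Uᗮ := by
    rw [hF, Submodule.span_le]
    rintro _ ⟨l, rfl⟩
    exact hy l
  have hyF : ∀ l, y l ∈ F := fun l => Submodule.subset_span ⟨l, rfl⟩
  have hp : finrank ℝ F ≤ Fintype.card ι := by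
    have h := finrank_range_le_card (R := ℝ) y
    simpa [Set.finrank] using h
  set b := stdOrthonormalBasis ℝ F with hb
  set f : Fin (finrank ℝ F) → E := fun j => (b j : E) with hfdef
  have hf : Orthonormal ℝ f := b.orthonormal.comp_linearIsometry F.subtypeₗᵢ
  have hfU : ∀ j, f j ∈ Uᗮ := fun j => hFU (b j).2
  obtain ⟨Ω, i1, i2, Θ, hΘ, hΘA⟩ := rot_orthonormal U (finrank ℝ F) f hf hfU (hp.trans hm)
  refine ⟨Ω, i1, i2, Θ, hΘ, ?_⟩
  intro A
  set B : Fin (finrank ℝ F) → E := fun j => ∑ l, ⟪f j, y l⟫ • A l with hB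
  have hyl : ∀ l, y l = ∑ j, ⟪f j, y l⟫ • f j := by
    intro l
    have h := b.sum_repr' ⟨y l, hyF l⟩
    have h2 := congrArg (fun z : F => (z : E)) h
    simp only [Submodule.coe_sum, Submodule.coe_smul, Submodule.coe_inner] at h2
    exact h2.symm
  have hpar : ∀ l l', ∑ j, ⟪f j, y l⟫ * ⟪f j, y l'⟫ = ⟪y l, y l'⟫ := by
    intro l l'
    have h := b.sum_inner_mul_inner ⟨y l, hyF l⟩ ⟨y l', hyF l'⟩
    simp only [Submodule.coe_inner] at h
    rw [← h]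
    refine Finset.sum_congr rfl fun j _ => ?_
    rw [real_inner_comm (y l) (f j)]
  have hlin : ∀ ω, ∑ l, ⟪Θ ω (y l), A l⟫ = ∑ j, ⟪Θ ω (f j), B j⟫ := by
    intro ω
    have h1 : ∀ l, ⟪Θ ω (y l), A l⟫ = ∑ j, ⟪f j, y l⟫ * ⟪Θ ω (f j), A l⟫ := by
      intro l
      conv_lhs => rw [hyl l]
      rw [map_sum, sum_inner]
      refine Finset.sum_congr rfl fun j _ => ?_
      rw [map_smul, real_inner_smul_left]
    simp only [h1, hB]
    rw [Finset.sum_comm]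
    refine Finset.sum_congr rfl fun j _ => ?_
    rw [inner_sum]
    refine Finset.sum_congr rfl fun l _ => ?_
    rw [real_inner_smul_right]
  have hnorm : ∑ j, ‖B j‖ ^ 2 = ∑ l, ∑ l', ⟪y l, y l'⟫ * ⟪A l, A l'⟫ := by
    have h1 : ∀ j, ‖B j‖ ^ 2 = ∑ l, ∑ l', ⟪f j, y l⟫ * ⟪f j, y l'⟫ * ⟪A l, A l'⟫ := by
      intro j
      rw [← real_inner_self_eq_norm_sq]
      simp only [hB]
      rw [sum_inner]
      refine Finset.sum_congr rfl fun l _ => ?_
      rw [inner_sum]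
      refine Finset.sum_congr rfl fun l' _ => ?_
      rw [real_inner_smul_left, real_inner_smul_right]
      ring
    simp only [h1]
    rw [Finset.sum_comm]
    refine Finset.sum_congr rfl fun l _ => ?_
    rw [Finset.sum_comm]
    refine Finset.sum_congr rfl fun l' _ => ?_
    rw [← Finset.sum_mul, hpar]
  have h := hΘA B
  simp only [← hlin] at h
  refine h.trans ?_
  rw [hnorm]
  have hS : 0 ≤ ∑ l, ∑ l', ⟪y l, y l'⟫ * ⟪A l, A l'⟫ := by
    rw [← hnorm]; positivity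
  have hpc : ((finrank ℝ F : ℕ) : ℝ) ≤ (Fintype.card ι : ℝ) := by exact_mod_cast hp
  have hmc : ((Fintype.card ι : ℕ) : ℝ) ≤ (finrank ℝ Uᗮ : ℝ) := by exact_mod_cast hm
  have hD : 0 < 2 * ((finrank ℝ Uᗮ : ℝ) - Fintype.card ι + 1) := by linarith
  refine mul_le_mul_of_nonneg_left ?_ (by positivity)
  refine Real.exp_le_exp.mpr ?_
  refine div_le_div_of_nonneg_left hS hD ?_
  linarith

end Pool.Agent.H70.SS
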