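import Pool.Agent.H70.SS.Defs
import Pool.Agent.H70.SS.RotGen
import Pool.Agent.H70.SS.Near
import Pool.Agent.H70.SS.Near

/-!
# The part of the overlap coming from the complement of `S`

PROOF of `rot_part`. Apply `rot_general` with `U = fixS S`, `E = EV n`, `ι = VIdx d × Bool`
(`Fintype.card ι = 2 * numK d = m`), `finrank (fixS S)ᗮ = n - |S|` is the hypothesis `hfin`. Fix
`Θ'`, `w` and write `y' l = Θ' (y l)`, `c_k = cf lam n t` (it depends only on `t.1 = k`). The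
exponent is linear in the vectors `Θ ω (y l)`: it equals `∑ l, ⟪Θ ω (y l), A l⟫` with, for
`l = ((k, (a, e)), true)`,
`A l = ∑ e', (c_k w((k,(e,e')),true)) • y' ((k,(a,e')),true)
  - (c_k w((k,(e,e')),false)) • y' ((k,(a,e')),false)`
and for `l = ((k, (a, e)), false)`
`A l = ∑ e', (c_k w((k,(e,e')),true)) • y' ((k,(a,e')),false)
  + (c_k w((k,(e,e')),false)) • y' ((k,(a,e')),true)`.
With `x = (n - |S|) / (2 d_k) + η m` both satisfy (`near_norm` for `y'`, which has the same Gram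
matrix as `y`; the coefficients are those of a vector supported on the indices `((k,(a,.)),.)`)
`‖A l‖ ^ 2 ≤ x * c_k ^ 2 * ∑ e', (w((k,(e,e')),true) ^ 2 + w((k,(e,e')),false) ^ 2)`.
`near_gram`: the exponent of the bound of `rot_general` is at most
`∑ l x ‖A l‖ ^ 2 / (2 (n - |S| - m + 1)) ≤
  ∑ k, 2 d_k x ^ 2 c_k ^ 2 ∑ e e' (..) / (2 (n - |S| - m + 1))`
and `2 d_k x ^ 2 c_k ^ 2 = (lam ^ 2 / n) ((n - |S|) + 2 d_k η m) ^ 2`, as `c_k ^ 2 = 2 lam ^ 2 d_k / n`.
-/

set_option autoImplicit false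

namespace Pool.Agent.H70.SS

open MeasureTheory ProbabilityTheory Module
open scoped BigOperators ComplexConjugate Matrix RealInnerProductSpace
open Pool.Agent.Results.MP_634cec_lc.LinearDegree

theorem card_idx {L : ℕ} (d : Fin L → ℕ) : Fintype.card (VIdx d × Bool) = 2 * numK d := by
  simp only [Fintype.card_prod, Fintype.card_sigma, Fintype.card_bool, Fintype.card_fin, numK]
  rw [mul_comm]
  congr 1
  exact Finset.sum_congr rfl fun k _ => (sq _).symm

private theorem RotPart_sum {L : ℕ} {d : Fin L → ℕ} (F : VIdx d × Bool → ℝ) :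
    ∑ l, F l = ∑ k, ∑ a : Fin (d k), ∑ e : Fin (d k),
      (F (⟨k, (a, e)⟩, true) + F (⟨k, (a, e)⟩, false)) := by
  rw [Fintype.sum_prod_type, Fintype.sum_sigma]
  refine Finset.sum_congr rfl fun k _ => ?_
  rw [Fintype.sum_prod_type]
  refine Finset.sum_congr rfl fun a _ => Finset.sum_congr rfl fun e _ => ?_
  rw [Fintype.sum_bool]

private noncomputable def RotPart_c {L : ℕ} (d : Fin L → ℕ) (lam : ℝ) (n : ℕ) (k : Fin L) : ℝ :=
  Real.sqrt 2 * lam * Real.sqrt (d k / n)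

private noncomputable def RotPart_A {L n : ℕ} {d : Fin L → ℕ} (lam : ℝ)
    (y' : VIdx d × Bool → EV n) (w : VIdx d × Bool → ℝ) : VIdx d × Bool → EV n
  | (⟨k, (a, e)⟩, true) => ∑ e' : Fin (d k),
      ((RotPart_c d lam n k * w (⟨k, (e, e')⟩, true)) • y' (⟨k, (a, e')⟩, true) -
        (RotPart_c d lam n k * w (⟨k, (e, e')⟩, false)) • y' (⟨k, (a, e')⟩, false))
  | (⟨k, (a, e)⟩, false) => ∑ e' : Fin (d k),
      ((RotPart_c d lam n k * w (⟨k, (e, e')⟩, false)) • y' (⟨k, (a, e')⟩, true) +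
        (RotPart_c d lam n k * w (⟨k, (e, e')⟩, true)) • y' (⟨k, (a, e')⟩, false))

private theorem RotPart_lin {L n : ℕ} {d : Fin L → ℕ} (lam : ℝ) (p y' : VIdx d × Bool → EV n)
    (w : VIdx d × Bool → ℝ) :
    ∑ t : VIdx d, cf lam n t * (w (t, true) * Zre p y' t + w (t, false) * Zim p y' t) =
      ∑ l, ⟪p l, RotPart_A lam y' w l⟫ := by
  rw [RotPart_sum, Fintype.sum_sigma]
  refine Finset.sum_congr rfl fun k _ => ?_
  rw [Fintype.sum_prod_type]
  have hR : ∀ a e : Fin (d k), ⟪p (⟨k, (a, e)⟩, true), RotPart_A lam y' w (⟨k, (a, e)⟩, true)⟫ +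
      ⟪p (⟨k, (a, e)⟩, false), RotPart_A lam y' w (⟨k, (a, e)⟩, false)⟫ =
      ∑ e' : Fin (d k), RotPart_c d lam n k * (w (⟨k, (e, e')⟩, true) *
        (⟪p (⟨k, (a, e)⟩, true), y' (⟨k, (a, e')⟩, true)⟫ +
          ⟪p (⟨k, (a, e)⟩, false), y' (⟨k, (a, e')⟩, false)⟫) + w (⟨k, (e, e')⟩, false) *
        (⟪p (⟨k, (a, e)⟩, false), y' (⟨k, (a, e')⟩, true)⟫ -
          ⟪p (⟨k, (a, e)⟩, true), y' (⟨k, (a, e')⟩, false)⟫)) := by
    intro a e
    simp only [RotPart_A, inner_sum]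
    rw [← Finset.sum_add_distrib]
    refine Finset.sum_congr rfl fun e' _ => ?_
    rw [inner_sub_right, inner_add_right, real_inner_smul_right, real_inner_smul_right,
      real_inner_smul_right, real_inner_smul_right]
    ring
  have hL : ∀ e e' : Fin (d k), cf lam n (⟨k, (e, e')⟩ : VIdx d) *
      (w (⟨k, (e, e')⟩, true) * Zre p y' ⟨k, (e, e')⟩ +
        w (⟨k, (e, e')⟩, false) * Zim p y' ⟨k, (e, e')⟩) =
      ∑ a : Fin (d k), RotPart_c d lam n k * (w (⟨k, (e, e')⟩, true) *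
        (⟪p (⟨k, (a, e)⟩, true), y' (⟨k, (a, e')⟩, true)⟫ +
          ⟪p (⟨k, (a, e)⟩, false), y' (⟨k, (a, e')⟩, false)⟫) + w (⟨k, (e, e')⟩, false) *
        (⟪p (⟨k, (a, e)⟩, false), y' (⟨k, (a, e')⟩, true)⟫ -
          ⟪p (⟨k, (a, e)⟩, true), y' (⟨k, (a, e')⟩, false)⟫)) := by
    intro e e'
    rw [← Finset.mul_sum, Finset.sum_add_distrib, ← Finset.mul_sum, ← Finset.mul_sum]
    rfl
  simp only [hR, hL]
  rw [Finset.sum_comm (s := Finset.univ (α := Fin (d k))) (t := Finset.univ (α := Fin (d k)))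
    (f := fun a e => ∑ e' : Fin (d k), RotPart_c d lam n k * (w (⟨k, (e, e')⟩, true) *
        (⟪p (⟨k, (a, e)⟩, true), y' (⟨k, (a, e')⟩, true)⟫ +
          ⟪p (⟨k, (a, e)⟩, false), y' (⟨k, (a, e')⟩, false)⟫) + w (⟨k, (e, e')⟩, false) *
        (⟪p (⟨k, (a, e)⟩, false), y' (⟨k, (a, e')⟩, true)⟫ -
          ⟪p (⟨k, (a, e)⟩, true), y' (⟨k, (a, e')⟩, false)⟫)))]
  refine Finset.sum_congr rfl fun e _ => ?_
  rw [Finset.sum_comm]

private theorem RotPart_norm {L n : ℕ} {d : Fin L → ℕ} (lam : ℝ) (y' : VIdx d × Bool → EV n)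
    (η s : ℝ) (hg : ∀ l l' : VIdx d × Bool, |⟪y' l, y' l'⟫ -
      if l = l' then s / (2 * d l.1.1) else 0| ≤ η)
    (w : VIdx d × Bool → ℝ) (k : Fin L) (a e : Fin (d k)) (b : Bool) :
    ‖RotPart_A lam y' w (⟨k, (a, e)⟩, b)‖ ^ 2 ≤ (s / (2 * d k) + η * (d k * 2 : ℕ)) *
      (RotPart_c d lam n k ^ 2 * ∑ e' : Fin (d k), (w (⟨k, (e, e')⟩, true) ^ 2 +
        w (⟨k, (e, e')⟩, false) ^ 2)) := by
  have h0 : ∀ i i' : Fin (d k) × Bool,
      |⟪y' (⟨k, (a, i.1)⟩, i.2), y' (⟨k, (a, i'.1)⟩, i'.2)⟫ -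
        if i = i' then s / (2 * d k) else 0| ≤ η := by
    intro i i'
    have h := hg (⟨k, (a, i.1)⟩, i.2) (⟨k, (a, i'.1)⟩, i'.2)
    by_cases hi : i = i'
    · subst hi
      simpa using h
    · have hne : ¬ (((⟨k, (a, i.1)⟩, i.2) : VIdx d × Bool) = (⟨k, (a, i'.1)⟩, i'.2)) := by
        intro hc
        apply hi
        simp only [Prod.mk.injEq, Sigma.mk.injEq, heq_eq_eq, true_and] at hc
        exact Prod.ext hc.1 hc.2
      rw [if_neg hne] at h
      rw [if_neg hi]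
      exact h
  have hcard : Fintype.card (Fin (d k) × Bool) = d k * 2 := by simp
  cases b with
  | true =>
    have h1 := near_norm (fun i : Fin (d k) × Bool => y' (⟨k, (a, i.1)⟩, i.2))
      (fun _ => s / (2 * d k)) η h0
      (fun i => if i.2 then RotPart_c d lam n k * w (⟨k, (e, i.1)⟩, true)
        else -(RotPart_c d lam n k * w (⟨k, (e, i.1)⟩, false)))
    rw [hcard, Fintype.sum_prod_type, Fintype.sum_prod_type] at h1
    simp only [Fintype.sum_bool, if_true, Bool.false_eq_true, if_false] at h1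
    refine le_trans (le_of_eq ?_) (h1.trans (le_of_eq ?_))
    · simp only [RotPart_A]
      congr 2
      refine Finset.sum_congr rfl fun e' _ => ?_
      rw [neg_smul, sub_eq_add_neg]
    · rw [Finset.mul_sum, Finset.mul_sum]
      refine Finset.sum_congr rfl fun e' _ => ?_
      ring
  | false =>
    have h1 := near_norm (fun i : Fin (d k) × Bool => y' (⟨k, (a, i.1)⟩, i.2))
      (fun _ => s / (2 * d k)) η h0
      (fun i => if i.2 then RotPart_c d lam n k * w (⟨k, (e, i.1)⟩, false)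
        else RotPart_c d lam n k * w (⟨k, (e, i.1)⟩, true))
    rw [hcard, Fintype.sum_prod_type, Fintype.sum_prod_type] at h1
    simp only [Fintype.sum_bool, if_true, Bool.false_eq_true, if_false] at h1
    refine le_trans (le_of_eq ?_) (h1.trans (le_of_eq ?_))
    · simp only [RotPart_A]
    · rw [Finset.mul_sum, Finset.mul_sum]
      refine Finset.sum_congr rfl fun e' _ => ?_
      ring

private theorem RotPart_const {L n : ℕ} {d : Fin L → ℕ} (lam : ℝ) (D : ℕ) (hD : ∀ k, d k ≤ D)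
    (s η : ℝ) (hη : 0 ≤ η) (hs : 0 ≤ s) (hn : 0 < n) (k : Fin L) (hk : 0 < d k) :
    (d k : ℝ) * (2 * ((s / (2 * d k) + η * (2 * numK d : ℕ)) *
      ((s / (2 * d k) + η * (d k * 2 : ℕ)) * RotPart_c d lam n k ^ 2))) ≤
      lam ^ 2 * (s + 2 * D * η * (2 * numK d)) ^ 2 / n := by
  have hk' : (0 : ℝ) < d k := by exact_mod_cast hk
  have hn' : (0 : ℝ) < n := by exact_mod_cast hn
  have hc : RotPart_c d lam n k ^ 2 = 2 * lam ^ 2 * (d k / n) := by
    unfold RotPart_c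
    rw [mul_pow, mul_pow, Real.sq_sqrt (by norm_num), Real.sq_sqrt (by positivity)]
  have hle : (d k : ℝ) * 2 ≤ 2 * numK d := by
    have h1 : d k ≤ numK d := by
      unfold numK
      calc d k ≤ d k ^ 2 := Nat.le_self_pow (by norm_num) _
        _ ≤ ∑ k, d k ^ 2 := Finset.single_le_sum (f := fun k => d k ^ 2)
          (fun _ _ => Nat.zero_le _) (Finset.mem_univ k)
    have h2 : (d k : ℝ) ≤ numK d := by exact_mod_cast h1
    linarith
  set K : ℝ := (numK d : ℝ) with hK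
  have hD' : (d k : ℝ) ≤ D := by exact_mod_cast hD k
  push_cast
  rw [← hK, hc]
  have hx : s / (2 * (d k : ℝ)) + η * ((d k : ℝ) * 2) ≤ s / (2 * (d k : ℝ)) + η * (2 * K) := by
    have := mul_le_mul_of_nonneg_left hle hη
    linarith
  have hx0 : 0 ≤ s / (2 * (d k : ℝ)) + η * ((d k : ℝ) * 2) := by positivity
  have hx1 : 0 ≤ s / (2 * (d k : ℝ)) + η * (2 * K) := hx0.trans hx
  set x : ℝ := s / (2 * (d k : ℝ)) + η * (2 * K) with hxdef
  have hdx : 2 * (d k : ℝ) * x = s + 2 * (d k : ℝ) * η * (2 * K) := by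
    rw [hxdef]
    field_simp
  have hK0 : 0 ≤ K := by rw [hK]; positivity
  have h3 : 2 * (d k : ℝ) * x ≤ s + 2 * D * η * (2 * K) := by
    rw [hdx]
    have : 2 * (d k : ℝ) * η * (2 * K) ≤ 2 * D * η * (2 * K) := by gcongr
    linarith
  calc (d k : ℝ) * (2 * (x * ((s / (2 * (d k : ℝ)) + η * ((d k : ℝ) * 2)) *
        (2 * lam ^ 2 * (d k / n)))))
      ≤ (d k : ℝ) * (2 * (x * (x * (2 * lam ^ 2 * (d k / n))))) := by
        gcongr
    _ = lam ^ 2 * (2 * (d k : ℝ) * x) ^ 2 / n := by ring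
    _ ≤ lam ^ 2 * (s + 2 * D * η * (2 * K)) ^ 2 / n := by
        gcongr

theorem rot_part {L n : ℕ} {d : Fin L → ℕ} (lam : ℝ) (D : ℕ) (hD : ∀ k, d k ≤ D)
    (S : Finset (Fin n)) (hfin : finrank ℝ (fixS S)ᗮ = n - S.card)
    (y : VIdx d × Bool → EV n) (hy : ∀ l, y l ∈ (fixS S)ᗮ) (η : ℝ) (hη : 0 ≤ η)
    (hg : ∀ l l' : VIdx d × Bool, |⟪y l, y l'⟫ -
      if l = l' then ((n : ℝ) - S.card) / (2 * d l.1.1) else 0| ≤ η)
    (hm : 2 * numK d ≤ n - S.card) (hn : 0 < n) (hS : S.card ≤ n) :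
    ∃ (Ω : Type) (_ : Fintype Ω) (_ : Nonempty Ω) (Θ : Ω → EV n ≃ₗᵢ[ℝ] EV n),
      (∀ ω, ∀ x ∈ fixS S, Θ ω x = x) ∧
      ∀ (Θ' : EV n ≃ₗᵢ[ℝ] EV n) (w : VIdx d × Bool → ℝ),
        ∑ ω, Real.exp (∑ t : VIdx d, cf lam n t *
          (w (t, true) * Zre (fun l => Θ ω (y l)) (fun l => Θ' (y l)) t +
            w (t, false) * Zim (fun l => Θ ω (y l)) (fun l => Θ' (y l)) t)) ≤
        Fintype.card Ω * Real.exp (kN lam (numK d) D n S.card η / 2 * ∑ l, w l ^ 2) := by
  obtain ⟨Ω, i1, i2, Θ, hΘ, hA⟩ := rot_general (fixS S) y hy (by rw [card_idx, hfin]; exact hm)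
  refine ⟨Ω, i1, i2, Θ, hΘ, ?_⟩
  intro Θ' w
  have h1 := hA (RotPart_A lam (fun l => Θ' (y l)) w)
  have h2 : ∀ ω, ∑ t : VIdx d, cf lam n t *
          (w (t, true) * Zre (fun l => Θ ω (y l)) (fun l => Θ' (y l)) t +
            w (t, false) * Zim (fun l => Θ ω (y l)) (fun l => Θ' (y l)) t) =
      ∑ l, ⟪Θ ω (y l), RotPart_A lam (fun l => Θ' (y l)) w l⟫ := fun ω =>
    RotPart_lin lam (fun l => Θ ω (y l)) (fun l => Θ' (y l)) w
  simp only [h2]
  refine h1.trans (mul_le_mul_of_nonneg_left (Real.exp_le_exp.2 ?_) (by positivity))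
  set s : ℝ := (n : ℝ) - S.card with hs
  have hs0 : 0 ≤ s := by
    have : (S.card : ℝ) ≤ n := by exact_mod_cast hS
    linarith
  have hg' : ∀ l l' : VIdx d × Bool, |⟪Θ' (y l), Θ' (y l')⟫ -
      if l = l' then s / (2 * d l.1.1) else 0| ≤ η := by
    intro l l'
    rw [LinearIsometryEquiv.inner_map_map]
    exact hg l l'
  have hgram := near_gram y (fun l => s / (2 * d l.1.1)) η hg
    (RotPart_A lam (fun l => Θ' (y l)) w)
  rw [card_idx] at hgram ⊢
  have hfin' : (finrank ℝ (fixS S)ᗮ : ℝ) = s := by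
    rw [hfin, Nat.cast_sub hS]
  rw [hfin']
  have hm' : (2 : ℝ) * numK d ≤ s := by
    have : ((2 * numK d : ℕ) : ℝ) ≤ ((n - S.card : ℕ) : ℝ) := by exact_mod_cast hm
    rw [Nat.cast_sub hS] at this
    push_cast at this
    exact this
  have hden : 0 < s - 2 * numK d + 1 := by linarith
  -- the bound of the numerator
  have hnum : ∑ l : VIdx d × Bool, (s / (2 * d l.1.1) + η * (2 * numK d : ℕ)) *
      ‖RotPart_A lam (fun l => Θ' (y l)) w l‖ ^ 2 ≤
      lam ^ 2 * (s + 2 * D * η * (2 * numK d)) ^ 2 / n * ∑ l, w l ^ 2 := by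
    rw [RotPart_sum, RotPart_sum (fun l => w l ^ 2), Finset.mul_sum]
    refine Finset.sum_le_sum fun k _ => ?_
    rcases Nat.eq_zero_or_pos (d k) with hk | hk
    · have : IsEmpty (Fin (d k)) := by rw [hk]; exact Fin.isEmpty
      simp
    · have hx1 : 0 ≤ s / (2 * (d k : ℝ)) + η * (2 * numK d : ℕ) := by positivity
      calc ∑ a : Fin (d k), ∑ e : Fin (d k),
            ((s / (2 * d k) + η * (2 * numK d : ℕ)) *
              ‖RotPart_A lam (fun l => Θ' (y l)) w (⟨k, (a, e)⟩, true)‖ ^ 2 +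
            (s / (2 * d k) + η * (2 * numK d : ℕ)) *
              ‖RotPart_A lam (fun l => Θ' (y l)) w (⟨k, (a, e)⟩, false)‖ ^ 2)
          ≤ ∑ a : Fin (d k), ∑ e : Fin (d k),
            2 * ((s / (2 * d k) + η * (2 * numK d : ℕ)) *
              ((s / (2 * d k) + η * (d k * 2 : ℕ)) * (RotPart_c d lam n k ^ 2 *
                ∑ e' : Fin (d k), (w (⟨k, (e, e')⟩, true) ^ 2 +
                  w (⟨k, (e, e')⟩, false) ^ 2)))) := by
            refine Finset.sum_le_sum fun a _ => Finset.sum_le_sum fun e _ => ?_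
            have ht := mul_le_mul_of_nonneg_left
              (RotPart_norm lam (fun l => Θ' (y l)) η s hg' w k a e true) hx1
            have hf := mul_le_mul_of_nonneg_left
              (RotPart_norm lam (fun l => Θ' (y l)) η s hg' w k a e false) hx1
            linarith
        _ = (d k : ℝ) * (2 * ((s / (2 * d k) + η * (2 * numK d : ℕ)) *
              ((s / (2 * d k) + η * (d k * 2 : ℕ)) * RotPart_c d lam n k ^ 2))) *
              ∑ e : Fin (d k), ∑ e' : Fin (d k), (w (⟨k, (e, e')⟩, true) ^ 2 +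
                  w (⟨k, (e, e')⟩, false) ^ 2) := by
            rw [Finset.sum_const, Finset.card_univ, Fintype.card_fin, nsmul_eq_mul]
            rw [Finset.mul_sum, Finset.mul_sum]
            refine Finset.sum_congr rfl fun e _ => ?_
            ring
        _ ≤ lam ^ 2 * (s + 2 * D * η * (2 * numK d)) ^ 2 / n *
              ∑ e : Fin (d k), ∑ e' : Fin (d k), (w (⟨k, (e, e')⟩, true) ^ 2 +
                  w (⟨k, (e, e')⟩, false) ^ 2) := by
            refine mul_le_mul_of_nonneg_right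
              (RotPart_const lam D hD s η hη hs0 hn k hk) (by positivity)
  push_cast at hgram hnum ⊢
  have hfinal := hgram.trans hnum
  unfold kN
  rw [← hs]
  have hn' : (0 : ℝ) < n := by exact_mod_cast hn
  rw [div_le_iff₀ (by positivity)]
  refine hfinal.trans (le_of_eq ?_)
  field_simp

end Pool.Agent.H70.SS
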