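import Pool.Agent.H70.SS.Defs

/-!
# Exponential moments of a Gaussian vector

`integral_exp_lin`: the integrand is a product over the coordinates
(`MeasureTheory.integral_fintype_prod_eq_prod`, `Integrable.fintype_prod`), and in one coordinate it
is `mgf_gaussianReal`. `integrable_exp_abs`: product, `exp (B |x|) ≤ exp (B x) + exp (-B x)`
(`integrable_exp_mul_gaussianReal`).
-/

set_option autoImplicit false

namespace Pool.Agent.H70.SS

open MeasureTheory ProbabilityTheory
open scoped BigOperators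

/-- `∫ exp (∑ z b) = exp (∑ b ^ 2 / 2)` for a standard Gaussian vector `z` -/
theorem integral_exp_lin {ι : Type*} [Fintype ι] (b : ι → ℝ) :
    ∫ z, Real.exp (∑ l, z l * b l) ∂(gam ι) = Real.exp ((∑ l, b l ^ 2) / 2) := by
  have h1 : (fun z : ι → ℝ => Real.exp (∑ l, z l * b l)) =
      fun z => ∏ l, (fun (l : ι) (x : ℝ) => Real.exp (x * b l)) l (z l) := by
    funext z
    rw [Real.exp_sum]
  have h2 : ∀ l, ∫ x, Real.exp (x * b l) ∂(gaussianReal 0 1) = Real.exp (b l ^ 2 / 2) := by
    intro l
    have h3 := congrFun (mgf_id_gaussianReal (μ := 0) (v := 1)) (b l)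
    have h4 : ∫ x, Real.exp (b l * id x) ∂(gaussianReal 0 1) = Real.exp (b l ^ 2 / 2) := by
      rw [mgf] at h3
      rw [h3]
      simp
    rw [← h4]
    congr 1
    funext x
    rw [id, mul_comm]
  have h5 := integral_fintype_prod_eq_prod (μ := fun _ : ι => gaussianReal 0 1)
    (fun (l : ι) (x : ℝ) => Real.exp (x * b l))
  rw [h1]
  refine h5.trans ?_
  rw [Finset.prod_congr rfl fun l _ => h2 l, ← Real.exp_sum, Finset.sum_div]

theorem integrable_exp_lin {ι : Type*} [Fintype ι] (b : ι → ℝ) :
    Integrable (fun z : ι → ℝ => Real.exp (∑ l, z l * b l)) (gam ι) := by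
  have h1 : (fun z : ι → ℝ => Real.exp (∑ l, z l * b l)) =
      fun z => ∏ l, (fun (l : ι) (x : ℝ) => Real.exp (x * b l)) l (z l) := by
    funext z
    rw [Real.exp_sum]
  rw [h1]
  refine Integrable.fintype_prod (μ := fun _ : ι => gaussianReal 0 1)
    (f := fun (l : ι) (x : ℝ) => Real.exp (x * b l)) fun l => ?_
  have h2 := integrable_exp_mul_gaussianReal (μ := 0) (v := 1) (b l)
  simpa [mul_comm] using h2

theorem integrable_exp_abs {ι : Type*} [Fintype ι] (B : ℝ) :
    Integrable (fun z : ι → ℝ => Real.exp (B * ∑ l, |z l|)) (gam ι) := by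
  have h1 : (fun z : ι → ℝ => Real.exp (B * ∑ l, |z l|)) =
      fun z => ∏ l, (fun (_ : ι) (x : ℝ) => Real.exp (B * |x|)) l (z l) := by
    funext z
    rw [Finset.mul_sum, Real.exp_sum]
  rw [h1]
  refine Integrable.fintype_prod (μ := fun _ : ι => gaussianReal 0 1)
    (f := fun (_ : ι) (x : ℝ) => Real.exp (B * |x|)) fun l => ?_
  have h2 := integrable_exp_mul_gaussianReal (μ := 0) (v := 1) B
  have h3 := integrable_exp_mul_gaussianReal (μ := 0) (v := 1) (-B)
  refine (h2.add h3).mono' ?_ (Filter.Eventually.of_forall fun x => ?_)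
  · exact (Real.continuous_exp.comp (continuous_const.mul continuous_abs)).aestronglyMeasurable
  · rw [Real.norm_eq_abs, abs_of_pos (Real.exp_pos _)]
    show Real.exp (B * |x|) ≤ Real.exp (B * x) + Real.exp (-B * x)
    rcases abs_cases x with ⟨h, -⟩ | ⟨h, -⟩
    · rw [h]
      linarith [Real.exp_pos (-B * x)]
    · rw [h, mul_neg, ← neg_mul]
      linarith [Real.exp_pos (B * x)]

end Pool.Agent.H70.SS
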