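import Pool.Agent.H70.SS.Defs

/-!
# The rotation action on data, noise and signals

PROOF of `map_isometry`: `gam σ` is carried by `WithLp.toLp 2` to `stdGaussian (EuclideanSpace ℝ σ)`
(`ProbabilityTheory.map_pi_eq_stdGaussian`), `T` becomes a linear isometry of the Euclidean space
(bijective, as it is injective in finite dimension), and `stdGaussian_map`. See
`Pool/Agent/H83/SG/Sphere.lean` (`gam_toLp`, line 98 to 125) for the same computation.

PROOF of `rotate_gam`: `rotate O` is linear, and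
`∑ c, rotate O y c ^ 2 = ∑ c, y c ^ 2`, as `∑ i, O i j O i j' = δ`: for fixed
`k, a, b, bool` it is the statement `‖O Y Oᵀ‖_F = ‖Y‖_F` for the matrix `Y i j`.

`rotate_symm`: `Finset.sum_comm` (the transposition of the two index pairs exchanges the two sums).
-/

set_option autoImplicit false

namespace Pool.Agent.H70.SS

open MeasureTheory ProbabilityTheory
open scoped BigOperators ComplexConjugate Matrix RealInnerProductSpace
open Pool.Agent.Results.MP_634cec_lc.LinearDegree

private lemma Act_iso {n : ℕ} {O : Matrix (Fin n) (Fin n) ℝ}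
    (hO : O ∈ Matrix.orthogonalGroup (Fin n) ℝ) (x : Fin n → ℝ) :
    ∑ i, (∑ j, O i j * x j) ^ 2 = ∑ i, x i ^ 2 := by
  have h1 : Oᵀ * O = 1 := by
    have := (Matrix.mem_orthogonalGroup_iff' (Fin n) ℝ).1 hO
    simpa [Matrix.star_eq_conjTranspose] using this
  have h2 : (O.mulVec x) ⬝ᵥ (O.mulVec x) = x ⬝ᵥ x := by
    rw [Matrix.dotProduct_mulVec, Matrix.vecMul_mulVec, h1]
    simp
  simpa [dotProduct, Matrix.mulVec, sq] using h2

private lemma Act_frob {n : ℕ} {O : Matrix (Fin n) (Fin n) ℝ}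
    (hO : O ∈ Matrix.orthogonalGroup (Fin n) ℝ) (Y : Fin n → Fin n → ℝ) :
    ∑ i, ∑ j, (∑ i', ∑ j', O i i' * O j j' * Y i' j') ^ 2 = ∑ i, ∑ j, Y i j ^ 2 := by
  have h1 : ∀ j, ∑ i, (∑ i', ∑ j', O i i' * O j j' * Y i' j') ^ 2 =
      ∑ i, (∑ j', O j j' * Y i j') ^ 2 := by
    intro j
    rw [← Act_iso hO fun i => ∑ j', O j j' * Y i j']
    refine Finset.sum_congr rfl fun i _ => ?_
    congr 1
    refine Finset.sum_congr rfl fun i' _ => ?_
    rw [Finset.mul_sum]
    refine Finset.sum_congr rfl fun j' _ => ?_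
    ring
  rw [Finset.sum_comm]
  simp only [h1]
  rw [Finset.sum_comm]
  exact Finset.sum_congr rfl fun i _ => Act_iso hO (Y i)

theorem map_isometry {σ : Type*} [Fintype σ] (T : (σ → ℝ) →ₗ[ℝ] (σ → ℝ))
    (hT : ∀ z, ∑ c, T z c ^ 2 = ∑ c, z c ^ 2) : (gam σ).map T = gam σ := by
  set f : EuclideanSpace ℝ σ →ₗᵢ[ℝ] EuclideanSpace ℝ σ :=
    { toLinearMap := (WithLp.linearEquiv 2 ℝ (σ → ℝ)).symm.toLinearMap ∘ₗ T ∘ₗ
        (WithLp.linearEquiv 2 ℝ (σ → ℝ)).toLinearMap
      norm_map' := by
        intro x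
        rw [EuclideanSpace.norm_eq, EuclideanSpace.norm_eq]
        congr 1
        have h := hT (WithLp.ofLp x)
        simpa [sq_abs] using h } with hf
  set g : EuclideanSpace ℝ σ ≃ₗᵢ[ℝ] EuclideanSpace ℝ σ := f.toLinearIsometryEquiv rfl with hg
  have h1 : (T : (σ → ℝ) → (σ → ℝ)) = WithLp.ofLp ∘ (g : EuclideanSpace ℝ σ → EuclideanSpace ℝ σ) ∘
      (WithLp.toLp 2) := by
    funext x
    simp [hg, hf]
  have m1 : Measurable (WithLp.toLp 2 : (σ → ℝ) → EuclideanSpace ℝ σ) := by fun_prop
  have m2 : Measurable (WithLp.ofLp : EuclideanSpace ℝ σ → (σ → ℝ)) := by fun_prop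
  have m3 : Measurable (g : EuclideanSpace ℝ σ → EuclideanSpace ℝ σ) := g.continuous.measurable
  have h2 : (gam σ).map (WithLp.toLp 2) = stdGaussian (EuclideanSpace ℝ σ) :=
    map_pi_eq_stdGaussian
  rw [h1, ← Measure.map_map m2 (m3.comp m1), ← Measure.map_map m3 m1, h2, stdGaussian_map, ← h2,
    Measure.map_map m2 m1]
  exact Measure.map_id

variable {L n : ℕ} {d : Fin L → ℕ}

theorem rotate_add (O : Matrix (Fin n) (Fin n) ℝ) (y z : Coord n d → ℝ) :
    rotate O (y + z) = rotate O y + rotate O z := by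
  funext c
  simp only [rotate, Pi.add_apply, mul_add, Finset.sum_add_distrib]

theorem measurable_rotate (O : Matrix (Fin n) (Fin n) ℝ) :
    Measurable (rotate O : (Coord n d → ℝ) → (Coord n d → ℝ)) := by
  refine measurable_pi_lambda _ fun c => ?_
  unfold rotate
  refine Finset.measurable_sum _ fun i _ => Finset.measurable_sum _ fun j _ => ?_
  exact (measurable_pi_apply _).const_mul _

theorem rotate_gam {O : Matrix (Fin n) (Fin n) ℝ} (hO : O ∈ Matrix.orthogonalGroup (Fin n) ℝ) :
    (gam (Coord n d)).map (rotate O) = gam (Coord n d) := by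
  set T : (Coord n d → ℝ) →ₗ[ℝ] (Coord n d → ℝ) :=
    { toFun := rotate O
      map_add' := rotate_add O
      map_smul' := by
        intro r y
        funext c
        simp only [rotate, Pi.smul_apply, smul_eq_mul, RingHom.id_apply, Finset.mul_sum]
        refine Finset.sum_congr rfl fun i _ => Finset.sum_congr rfl fun j _ => ?_
        ring } with hTdef
  have h := map_isometry T ?_
  · exact h
  intro z
  show ∑ c, rotate O z c ^ 2 = ∑ c, z c ^ 2
  rw [Fintype.sum_sigma, Fintype.sum_sigma]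
  refine Finset.sum_congr rfl fun k _ => ?_
  simp only [Fintype.sum_prod_type]
  have e1 : ∀ F : Fin n → Fin (d k) → Fin n → Fin (d k) → Bool → ℝ,
      ∑ i, ∑ a, ∑ j, ∑ b, ∑ β, F i a j b β = ∑ a, ∑ b, ∑ β, ∑ i, ∑ j, F i a j b β := by
    intro F
    rw [Finset.sum_comm]
    refine Finset.sum_congr rfl fun a _ => ?_
    have e2 : ∀ i, ∑ j, ∑ b, ∑ β, F i a j b β = ∑ b, ∑ β, ∑ j, F i a j b β := by
      intro i
      rw [Finset.sum_comm]
      exact Finset.sum_congr rfl fun b _ => Finset.sum_comm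
    simp only [e2]
    rw [Finset.sum_comm]
    exact Finset.sum_congr rfl fun b _ => Finset.sum_comm
  rw [e1, e1]
  refine Finset.sum_congr rfl fun a _ => Finset.sum_congr rfl fun b _ =>
    Finset.sum_congr rfl fun β _ => ?_
  exact Act_frob hO fun i j => z ⟨k, ((i, a), (j, b), β)⟩

theorem measurable_symm : Measurable (symm : (Coord n d → ℝ) → (Coord n d → ℝ)) := by
  refine measurable_pi_lambda _ fun c => ?_
  unfold symm
  refine Measurable.const_mul ?_ _
  split_ifs
  · exact (measurable_pi_apply _).add (measurable_pi_apply _)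
  · exact (measurable_pi_apply _).sub (measurable_pi_apply _)

theorem rotate_symm (O : Matrix (Fin n) (Fin n) ℝ) (z : Coord n d → ℝ) :
    rotate O (symm z) = symm (rotate O z) := by
  funext c
  obtain ⟨k, ⟨i0, a⟩, ⟨j0, b⟩, β⟩ := c
  cases β
  · simp only [rotate, symm, Bool.false_eq_true, if_false]
    rw [Finset.sum_comm (γ := Fin n) (α := Fin n)
      (f := fun i j => O j0 i * O i0 j * z ⟨k, ((i, b), (j, a), false)⟩)]
    rw [← Finset.sum_sub_distrib, Finset.mul_sum]
    refine Finset.sum_congr rfl fun i _ => ?_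
    rw [← Finset.sum_sub_distrib, Finset.mul_sum]
    refine Finset.sum_congr rfl fun j _ => ?_
    ring
  · simp only [rotate, symm, if_true]
    rw [Finset.sum_comm (γ := Fin n) (α := Fin n)
      (f := fun i j => O j0 i * O i0 j * z ⟨k, ((i, b), (j, a), true)⟩)]
    rw [← Finset.sum_add_distrib, Finset.mul_sum]
    refine Finset.sum_congr rfl fun i _ => ?_
    rw [← Finset.sum_add_distrib, Finset.mul_sum]
    refine Finset.sum_congr rfl fun j _ => ?_
    ring

end Pool.Agent.H70.SS
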