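import Pool.Agent.H70.SS.Defs

/-!
# Concentration of the Gram matrix

PROOF of `coef_mean`: `Re x Re y = (Re (x conj y) + Re (x y)) / 2`,
`Im x Im y = (Re (x conj y) - Re (x y)) / 2`, `Re x Im y = (Im (x y) - Im (x conj y)) / 2`,
`Im x Re y = (Im (x y) + Im (x conj y)) / 2`, with the Schur relations `schur_same`, `schur_diff`,
`schur_conj` of `Pool.Agent.H28.Schur` (`schur_conj` also for `k = k'`).

PROOF of `conc`. `⟪yv l, yv l'⟫ = ∑ i ∉ S, coef ρ l (h i) * coef ρ l' (h i)` is a sum of
`n - |S|` independent random variables bounded by `1` with mean `coef_mean`, so its variance is at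
most `n` and Chebyshev (`ProbabilityTheory.meas_ge_le_variance_div_sq`; `variance_sum_pi` or
`IndepFun.variance_sum`) gives probability `≤ n / (δ n) ^ 2 = 1 / (δ ^ 2 n)` for each of the
`(2 K) ^ 2` pairs (`Fintype.card (VIdx d × Bool) = 2 * numK d`), union bound
(`measureReal_iUnion_fintype_le`).
-/

set_option autoImplicit false

namespace Pool.Agent.H70.SS

open MeasureTheory ProbabilityTheory Module
open scoped BigOperators ComplexConjugate Matrix RealInnerProductSpace
open Pool.Agent.Results.MP_634cec_lc.LinearDegree Pool.Agent.H28.Schur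

variable {G : Type} [Group G] [TopologicalSpace G] [IsTopologicalGroup G] [CompactSpace G]
  [MeasurableSpace G] [BorelSpace G] (μ : Measure G) [μ.IsHaarMeasure] [IsProbabilityMeasure μ]

omit [Group G] [TopologicalSpace G] [IsTopologicalGroup G] [CompactSpace G] [BorelSpace G]
  [μ.IsHaarMeasure] [IsProbabilityMeasure μ] in
private lemma reCLM_int {f : G → ℂ} (hf : Integrable f μ) :
    ∫ g, (f g).re ∂μ = (∫ g, f g ∂μ).re := by
  have h := Complex.reCLM.integral_comp_comm hf
  simpa using h

omit [Group G] [TopologicalSpace G] [IsTopologicalGroup G] [CompactSpace G] [BorelSpace G]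
  [μ.IsHaarMeasure] [IsProbabilityMeasure μ] in
private lemma imCLM_int {f : G → ℂ} (hf : Integrable f μ) :
    ∫ g, (f g).im ∂μ = (∫ g, f g ∂μ).im := by
  have h := Complex.imCLM.integral_comp_comm hf
  simpa using h

omit [IsTopologicalGroup G] [CompactSpace G] in
theorem measurable_coef {L : ℕ} {d : Fin L → ℕ}
    (ρ : ∀ k : Fin L, G →* Matrix.unitaryGroup (Fin (d k)) ℂ)
    (hρ : ∀ k, Continuous fun g => (ρ k g : Matrix (Fin (d k)) (Fin (d k)) ℂ))
    (l : VIdx d × Bool) : Measurable (coef ρ l) := by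
  obtain ⟨⟨k, a, b⟩, t⟩ := l
  have h := measurable_entry (ρ k) (hρ k) a b
  cases t
  · exact Complex.measurable_im.comp h
  · exact Complex.measurable_re.comp h

omit [TopologicalSpace G] [IsTopologicalGroup G] [CompactSpace G] [MeasurableSpace G]
  [BorelSpace G] in
theorem abs_coef_le {L : ℕ} {d : Fin L → ℕ}
    (ρ : ∀ k : Fin L, G →* Matrix.unitaryGroup (Fin (d k)) ℂ)
    (l : VIdx d × Bool) (g : G) : |coef ρ l g| ≤ 1 := by
  obtain ⟨⟨k, a, b⟩, t⟩ := l
  have h := norm_entry_le (ρ k) g a b
  cases t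
  · exact (Complex.abs_im_le_norm _).trans h
  · exact (Complex.abs_re_le_norm _).trans h

theorem coef_mean {L : ℕ} {d : Fin L → ℕ}
    (ρ : ∀ k : Fin L, G →* Matrix.unitaryGroup (Fin (d k)) ℂ) (hρ : Admissible ρ)
    (l l' : VIdx d × Bool) :
    ∫ g, coef ρ l g * coef ρ l' g ∂μ = if l = l' then 1 / (2 * (d l.1.1 : ℝ)) else 0 := by
  obtain ⟨hcont, hirr, hne, hconj⟩ := hρ
  obtain ⟨⟨k, a, b⟩, t⟩ := l
  obtain ⟨⟨k', a', b'⟩, t'⟩ := l'
  set x : G → ℂ := fun g => (ρ k g : Matrix (Fin (d k)) (Fin (d k)) ℂ) a b with hx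
  set y : G → ℂ := fun g => (ρ k' g : Matrix (Fin (d k')) (Fin (d k')) ℂ) a' b' with hy
  have hi1 : Integrable (fun g => x g * conj (y g)) μ :=
    integrable_entry_mul_conj μ (ρ k) (ρ k') (hcont k) (hcont k') a b a' b'
  have hi2 : Integrable (fun g => x g * y g) μ :=
    integrable_entry_mul μ (ρ k) (ρ k') (hcont k) (hcont k') a b a' b'
  have I2 : ∫ g, x g * y g ∂μ = 0 :=
    schur_conj μ (ρ k) (ρ k') (hcont k) (hcont k') (hconj k k') a b a' b'
  have I1 : ∫ g, x g * conj (y g) ∂μ =
      (((if (⟨k, a, b⟩ : VIdx d) = ⟨k', a', b'⟩ then 1 / (d k : ℝ) else 0) : ℝ) : ℂ) := by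
    by_cases h : k = k'
    · subst h
      have := schur_same μ (ρ k) (hcont k) (hirr k) a b a' b'
      simp only [hx, hy]
      rw [this]
      by_cases hab : a = a' ∧ b = b'
      · obtain ⟨rfl, rfl⟩ := hab
        simp
      · have h2 : ¬ ((⟨k, a, b⟩ : VIdx d) = ⟨k, a', b'⟩) := by
          intro h3
          apply hab
          simpa using h3
        rw [if_neg hab, if_neg h2]
        simp
    · have h2 : ¬ ((⟨k, a, b⟩ : VIdx d) = ⟨k', a', b'⟩) := by
        intro h3
        exact h (congrArg Sigma.fst h3)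
      rw [if_neg h2]
      have := schur_diff μ (ρ k) (ρ k') (hcont k) (hcont k') (hne k k' h) a b a' b'
      simp only [hx, hy]
      rw [this]
      simp
  have re1 : ∫ g, (x g * conj (y g)).re ∂μ =
      if (⟨k, a, b⟩ : VIdx d) = ⟨k', a', b'⟩ then 1 / (d k : ℝ) else 0 := by
    have h3 := reCLM_int μ hi1
    rw [h3, I1, Complex.ofReal_re]
  have im1 : ∫ g, (x g * conj (y g)).im ∂μ = 0 := by
    have h3 := imCLM_int μ hi1
    rw [h3, I1, Complex.ofReal_im]
  have re2 : ∫ g, (x g * y g).re ∂μ = 0 := by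
    rw [reCLM_int μ hi2, I2, Complex.zero_re]
  have im2 : ∫ g, (x g * y g).im ∂μ = 0 := by
    rw [imCLM_int μ hi2, I2, Complex.zero_im]
  have j1 : Integrable (fun g => (x g * conj (y g)).re) μ := hi1.re
  have j2 : Integrable (fun g => (x g * y g).re) μ := hi2.re
  have j3 : Integrable (fun g => (x g * conj (y g)).im) μ := hi1.im
  have j4 : Integrable (fun g => (x g * y g).im) μ := hi2.im
  cases t <;> cases t'
  · -- im im
    have e : (fun g => coef ρ (⟨k, a, b⟩, false) g * coef ρ (⟨k', a', b'⟩, false) g) =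
        fun g => ((x g * conj (y g)).re - (x g * y g).re) / 2 := by
      funext g
      show (x g).im * (y g).im = _
      simp only [Complex.mul_re, Complex.conj_re, Complex.conj_im]
      ring
    rw [e, integral_div, integral_sub j1 j2, re1, re2]
    by_cases h : (⟨k, a, b⟩ : VIdx d) = ⟨k', a', b'⟩
    · simp only [h, if_true]
      ring
    · have h2 : ¬ (((⟨k, a, b⟩ : VIdx d), false) = ((⟨k', a', b'⟩ : VIdx d), false)) :=
        fun h3 => h (congrArg Prod.fst h3)
      rw [if_neg h, if_neg h2]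
      simp
  · -- im re
    have e : (fun g => coef ρ (⟨k, a, b⟩, false) g * coef ρ (⟨k', a', b'⟩, true) g) =
        fun g => ((x g * y g).im + (x g * conj (y g)).im) / 2 := by
      funext g
      show (x g).im * (y g).re = _
      simp only [Complex.mul_im, Complex.conj_re, Complex.conj_im]
      ring
    rw [e, integral_div, integral_add j4 j3, im1, im2]
    simp
  · -- re im
    have e : (fun g => coef ρ (⟨k, a, b⟩, true) g * coef ρ (⟨k', a', b'⟩, false) g) =
        fun g => ((x g * y g).im - (x g * conj (y g)).im) / 2 := by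
      funext g
      show (x g).re * (y g).im = _
      simp only [Complex.mul_im, Complex.conj_re, Complex.conj_im]
      ring
    rw [e, integral_div, integral_sub j4 j3, im1, im2]
    simp
  · -- re re
    have e : (fun g => coef ρ (⟨k, a, b⟩, true) g * coef ρ (⟨k', a', b'⟩, true) g) =
        fun g => ((x g * conj (y g)).re + (x g * y g).re) / 2 := by
      funext g
      show (x g).re * (y g).re = _
      simp only [Complex.mul_re, Complex.conj_re, Complex.conj_im]
      ring
    rw [e, integral_div, integral_add j1 j2, re1, re2]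
    by_cases h : (⟨k, a, b⟩ : VIdx d) = ⟨k', a', b'⟩
    · simp only [h, if_true]
      ring
    · have h2 : ¬ (((⟨k, a, b⟩ : VIdx d), true) = ((⟨k', a', b'⟩ : VIdx d), true)) :=
        fun h3 => h (congrArg Prod.fst h3)
      rw [if_neg h, if_neg h2]
      simp

end Pool.Agent.H70.SS
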