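import Mathlib
import Pool.Agent.H28.LinearDegreeModel

/-!
# Tests invariant under rotations of the vertices outside of a set `S`

The model (`Coord`, `obs`, `data`, `law`, `Admissible`, `shift`) is the one of the hand-in
`LinearDegree`.
-/

set_option autoImplicit false

namespace Pool.Agent.H70.SS

open MeasureTheory ProbabilityTheory
open scoped BigOperators ComplexConjugate Matrix RealInnerProductSpace
open Pool.Agent.Results.MP_634cec_lc.LinearDegree

/-- Simultaneous conjugation of all observations by the matrix `O` acting on the vertices: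
`Y_k ↦ (O ⊗ 1) Y_k (O ⊗ 1)ᵀ` for every `k`, written in the real coordinates of the data (as `O` is
real, it acts on the real parts and on the imaginary parts separately). -/
noncomputable def rotate {L n : ℕ} {d : Fin L → ℕ} (O : Matrix (Fin n) (Fin n) ℝ)
    (y : Coord n d → ℝ) : Coord n d → ℝ :=
  fun c => ∑ i, ∑ j, O c.2.1.1 i * O c.2.2.1.1 j *
    y ⟨c.1, ((i, c.2.1.2), (j, c.2.2.1.2), c.2.2.2)⟩

/-- `φ` is invariant under simultaneous conjugation of the observations by all real orthogonal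
matrices which fix the basis vectors of the vertices in `S`. -/
def InvariantOff {L n : ℕ} {d : Fin L → ℕ} (S : Finset (Fin n))
    (φ : (Coord n d → ℝ) → ℝ) : Prop :=
  ∀ O ∈ Matrix.orthogonalGroup (Fin n) ℝ, (∀ j ∈ S, ∀ i, O i j = if i = j then 1 else 0) →
    ∀ y, φ (rotate O y) = φ y

/-- standard Gaussian measure on `σ → ℝ` -/
noncomputable abbrev gam (σ : Type*) [Fintype σ] : Measure (σ → ℝ) :=
  Measure.pi fun _ : σ => gaussianReal 0 1

/-- the data as a function of the noise coordinates plus the mean shift -/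
noncomputable def symm {L n : ℕ} {d : Fin L → ℕ} (z : Coord n d → ℝ) : Coord n d → ℝ :=
  fun c => (1 / Real.sqrt (n * d c.1)) / 2 *
    (if c.2.2.2 then z ⟨c.1, c.2.1, c.2.2.1, true⟩ + z ⟨c.1, c.2.2.1, c.2.1, true⟩
      else z ⟨c.1, c.2.1, c.2.2.1, false⟩ - z ⟨c.1, c.2.2.1, c.2.1, false⟩)

/-- the mean shift of arbitrary signals: `X k i` replaces `ρ_k(g_i)` -/
noncomputable def gshift {L n : ℕ} {d : Fin L → ℕ} (lam : ℝ)
    (X : ∀ k : Fin L, Fin n → Matrix (Fin (d k)) (Fin (d k)) ℂ) : Coord n d → ℝ :=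
  fun c => (lam * Real.sqrt (d c.1 / n)) *
    (if c.2.2.2 then (∑ e, X c.1 c.2.1.1 c.2.1.2 e * conj (X c.1 c.2.2.1.1 c.2.2.1.2 e)).re
      else (∑ e, X c.1 c.2.1.1 c.2.1.2 e * conj (X c.1 c.2.2.1.1 c.2.2.1.2 e)).im)

/-- the signals `ρ_k(g_i)` as matrices -/
noncomputable def sig {G : Type} [Group G] {L n : ℕ} {d : Fin L → ℕ}
    (ρ : ∀ k : Fin L, G →* Matrix.unitaryGroup (Fin (d k)) ℂ) (g : Fin n → G) (k : Fin L)
    (i : Fin n) : Matrix (Fin (d k)) (Fin (d k)) ℂ := (ρ k (g i) : Matrix _ _ ℂ)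

/-- the action of a real matrix on the vertex index of the signals -/
noncomputable def actO {L n : ℕ} {d : Fin L → ℕ} (O : Matrix (Fin n) (Fin n) ℝ)
    (X : ∀ k : Fin L, Fin n → Matrix (Fin (d k)) (Fin (d k)) ℂ) (k : Fin L) (i : Fin n) :
    Matrix (Fin (d k)) (Fin (d k)) ℂ := ∑ j, ((O i j : ℝ) : ℂ) • X k j

/-- the Euclidean space of real vectors indexed by the vertices -/
abbrev EV (n : ℕ) : Type := EuclideanSpace ℝ (Fin n)

/-- the span of the basis vectors of `S` -/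
noncomputable def fixS {n : ℕ} (S : Finset (Fin n)) : Submodule ℝ (EV n) :=
  Submodule.span ℝ (Set.range fun j : S => EuclideanSpace.single (j : Fin n) (1 : ℝ))

/-- the matrix of a linear isometry -/
noncomputable def matO {n : ℕ} (Θ : EV n ≃ₗᵢ[ℝ] EV n) : Matrix (Fin n) (Fin n) ℝ :=
  Matrix.of fun i j => Θ (EuclideanSpace.single j (1 : ℝ)) i

/-- real or imaginary part of a matrix coefficient -/
noncomputable def coef {G : Type} [Group G] {L : ℕ} {d : Fin L → ℕ}
    (ρ : ∀ k : Fin L, G →* Matrix.unitaryGroup (Fin (d k)) ℂ) (l : VIdx d × Bool) (g : G) : ℝ :=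
  if l.2 then ((ρ l.1.1 g : Matrix (Fin (d l.1.1)) (Fin (d l.1.1)) ℂ) l.1.2.1 l.1.2.2).re
    else ((ρ l.1.1 g : Matrix (Fin (d l.1.1)) (Fin (d l.1.1)) ℂ) l.1.2.1 l.1.2.2).im

/-- the vector of the values of a coefficient at the vertices outside of `S` -/
noncomputable def yv {G : Type} [Group G] {L n : ℕ} {d : Fin L → ℕ}
    (ρ : ∀ k : Fin L, G →* Matrix.unitaryGroup (Fin (d k)) ℂ) (S : Finset (Fin n))
    (h : Fin n → G) (l : VIdx d × Bool) : EV n :=
  WithLp.toLp 2 fun i => if i ∈ S then 0 else coef ρ l (h i)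

/-- real part of the overlap of two families of real vectors -/
noncomputable def Zre {L : ℕ} {d : Fin L → ℕ} {E : Type*} [NormedAddCommGroup E]
    [InnerProductSpace ℝ E] (p y : VIdx d × Bool → E) (t : VIdx d) : ℝ :=
  ∑ a : Fin (d t.1), (⟪p (⟨t.1, (a, t.2.1)⟩, true), y (⟨t.1, (a, t.2.2)⟩, true)⟫ +
    ⟪p (⟨t.1, (a, t.2.1)⟩, false), y (⟨t.1, (a, t.2.2)⟩, false)⟫)

/-- imaginary part of the overlap of two families of real vectors -/
noncomputable def Zim {L : ℕ} {d : Fin L → ℕ} {E : Type*} [NormedAddCommGroup E]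
    [InnerProductSpace ℝ E] (p y : VIdx d × Bool → E) (t : VIdx d) : ℝ :=
  ∑ a : Fin (d t.1), (⟪p (⟨t.1, (a, t.2.1)⟩, false), y (⟨t.1, (a, t.2.2)⟩, true)⟫ -
    ⟪p (⟨t.1, (a, t.2.1)⟩, true), y (⟨t.1, (a, t.2.2)⟩, false)⟫)

/-- `u` on `S`, `h` outside of `S` -/
def mix {G : Type} {n : ℕ} (S : Finset (Fin n)) (u h : Fin n → G) : Fin n → G :=
  fun i => if i ∈ S then u i else h i

/-- the overlap on `S` -/
noncomputable def Mc {G : Type} [Group G] {L n : ℕ} {d : Fin L → ℕ}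
    (ρ : ∀ k : Fin L, G →* Matrix.unitaryGroup (Fin (d k)) ℂ) (S : Finset (Fin n))
    (u u' : Fin n → G) (t : VIdx d) : ℂ :=
  ∑ i ∈ S, ∑ a : Fin (d t.1), (ρ t.1 (u i) : Matrix (Fin (d t.1)) (Fin (d t.1)) ℂ) a t.2.1 *
    conj ((ρ t.1 (u' i) : Matrix (Fin (d t.1)) (Fin (d t.1)) ℂ) a t.2.2)

/-- the number of matrix coefficients `K = ∑ d_k ^ 2` -/
def numK {L : ℕ} (d : Fin L → ℕ) : ℕ := ∑ k, d k ^ 2

/-- the good event: the coefficient vectors outside of `S` are nearly orthogonal -/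
def Good {G : Type} [Group G] {L n : ℕ} {d : Fin L → ℕ}
    (ρ : ∀ k : Fin L, G →* Matrix.unitaryGroup (Fin (d k)) ℂ) (S : Finset (Fin n)) (η : ℝ)
    (h : Fin n → G) : Prop :=
  ∀ l l' : VIdx d × Bool, |⟪yv ρ S h l, yv ρ S h l'⟫ -
    if l = l' then ((n : ℝ) - S.card) / (2 * d l.1.1) else 0| ≤ η

/-- the exponent of the part of the overlap coming from `S`, `s = |S|` -/
noncomputable def kM (lam : ℝ) (K n s : ℕ) : ℝ := 2 * K * lam ^ 2 * s / n

/-- the exponent of the part of the overlap coming from the complement of `S`, `s = |S|` -/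
noncomputable def kN (lam : ℝ) (K D n s : ℕ) (η : ℝ) : ℝ :=
  lam ^ 2 * (((n : ℝ) - s) + 2 * D * η * (2 * K)) ^ 2 / (n * (((n : ℝ) - s) - 2 * K + 1))

/-- the factor of a coordinate of the overlap after linearisation -/
noncomputable def cf {L : ℕ} {d : Fin L → ℕ} (lam : ℝ) (n : ℕ) (t : VIdx d) : ℝ :=
  Real.sqrt 2 * lam * Real.sqrt (d t.1 / n)

/-- the shift in the model after a rotation -/
noncomputable def srot {G : Type} [Group G] {L n : ℕ} {d : Fin L → ℕ}
    (ρ : ∀ k : Fin L, G →* Matrix.unitaryGroup (Fin (d k)) ℂ) (lam : ℝ) (g : Fin n → G)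
    (Θ : EV n ≃ₗᵢ[ℝ] EV n) : Coord n d → ℝ :=
  rotate (matO Θ) (shift ρ lam g)

/-- the uniform probability measure on a finite nonempty type -/
noncomputable def uni (Ω : Type) [Fintype Ω] [MeasurableSpace Ω] : Measure Ω :=
  ((Fintype.card Ω : ENNReal)⁻¹) • Measure.count

end Pool.Agent.H70.SS
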