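import Pool.Agent.H70.SS.Defs

/-!
# The part of the overlap coming from `S`

PROOF of `hoef`. Hoeffding's lemma for one factor: `∫ exp (h i) ≤ exp (B ^ 2 / 2)`
(`ProbabilityTheory.hasSubgaussianMGF_of_mem_Icc_of_integral_eq_zero` with `a = -B`, `b = B`, then
`HasSubgaussianMGF.mgf_le` at `t = 1`), and `exp (∑ i ∈ S, ..) = ∏ i, (if i ∈ S then exp (h i (u i))
else 1)` integrates factor by factor (`MeasureTheory.integral_fintype_prod_eq_prod`).

-/

set_option autoImplicit false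

namespace Pool.Agent.H70.SS

open MeasureTheory ProbabilityTheory
open scoped BigOperators ComplexConjugate Matrix RealInnerProductSpace
open Pool.Agent.Results.MP_634cec_lc.LinearDegree Pool.Agent.H28.Schur

private theorem hoef_one {G : Type} [MeasurableSpace G] (μ : Measure G) [IsProbabilityMeasure μ]
    (f : G → ℝ) (hm : Measurable f) (B : ℝ) (hB : ∀ g, |f g| ≤ B) (h0 : ∫ g, f g ∂μ = 0) :
    ∫ g, Real.exp (f g) ∂μ ≤ Real.exp (B ^ 2 / 2) := by
  have hX := hasSubgaussianMGF_of_mem_Icc_of_integral_eq_zero (μ := μ) (a := -B) (b := B)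
    hm.aemeasurable (ae_of_all _ fun g => abs_le.1 (hB g)) h0
  have h1 := hX.mgf_le 1
  have e1 : mgf f μ 1 = ∫ g, Real.exp (f g) ∂μ := by
    unfold mgf
    simp only [one_mul]
  have e2 : (((‖B - -B‖₊ / 2) ^ 2 : NNReal) : ℝ) = B ^ 2 := by
    push_cast
    rw [Real.norm_eq_abs, div_pow, sq_abs]
    ring
  rw [e1, e2] at h1
  refine h1.trans (le_of_eq ?_)
  congr 1
  ring

theorem hoef {G : Type} [MeasurableSpace G] (μ : Measure G) [IsProbabilityMeasure μ] {n : ℕ}
    (S : Finset (Fin n)) (h : Fin n → G → ℝ) (hmeas : ∀ i, Measurable (h i)) (B : ℝ)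
    (hB : ∀ i g, |h i g| ≤ B) (h0 : ∀ i, ∫ g, h i g ∂μ = 0) :
    ∫ u, Real.exp (∑ i ∈ S, h i (u i)) ∂(Measure.pi fun _ : Fin n => μ) ≤
      Real.exp (S.card * (B ^ 2 / 2)) := by
  classical
  have e1 : ∀ u : Fin n → G, Real.exp (∑ i ∈ S, h i (u i)) =
      ∏ i, (fun (i : Fin n) (g : G) => if i ∈ S then Real.exp (h i g) else 1) i (u i) := by
    intro u
    rw [Real.exp_sum]
    simp only
    rw [Finset.prod_ite_mem, Finset.univ_inter]
  simp_rw [e1]
  rw [integral_fintype_prod_eq_prod (𝕜 := ℝ) (μ := fun _ : Fin n => μ)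
    (fun (i : Fin n) (g : G) => if i ∈ S then Real.exp (h i g) else (1 : ℝ))]
  have e2 : ∀ i : Fin n, ∫ g, (if i ∈ S then Real.exp (h i g) else (1 : ℝ)) ∂μ ≤
      if i ∈ S then Real.exp (B ^ 2 / 2) else 1 := by
    intro i
    by_cases hi : i ∈ S
    · simp only [hi, if_true]
      exact hoef_one μ (h i) (hmeas i) B (hB i) (h0 i)
    · simp [hi]
  have e3 : ∀ i : Fin n, 0 ≤ ∫ g, (if i ∈ S then Real.exp (h i g) else (1 : ℝ)) ∂μ := by
    intro i
    refine integral_nonneg fun g => ?_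
    simp only [Pi.zero_apply]
    split_ifs
    · exact (Real.exp_pos _).le
    · exact zero_le_one
  refine (Finset.prod_le_prod (fun i _ => e3 i) fun i _ => e2 i).trans (le_of_eq ?_)
  rw [Finset.prod_ite_mem, Finset.univ_inter, Finset.prod_const, ← Real.exp_nat_mul]

end Pool.Agent.H70.SS
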