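import Pool.Agent.H70.SS.Hoef

/-!
# The part of the overlap coming from `S`

PROOF of `hoef_part` (apply `hoef`). The exponent is `∑ i ∈ S, h i (u i)` with
`h i g = ∑ t, cf lam n t * (w (t, true) * (m_t).re + w (t, false) * (m_t).im)`,
`m_t = ∑ a, ρ(g)_{a, t.2.1} conj (ρ(u' i)_{a, t.2.2})`. It has mean zero (`schur_first`) and
`|h i g| ≤ ∑ t, |cf lam n t| * √(w (t, true) ^ 2 + w (t, false) ^ 2) * ‖m_t‖`; by Cauchy-Schwarz for
each `k`, as `∑ over t with t.1 = k of ‖m_t‖ ^ 2 = d k` (the matrix `(m_t)` is, up to transposition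
and conjugation, the unitary matrix `ρ(u' i)ᴴ ρ(g)`, so its squared Frobenius norm is `d k`),
`|h i g| ≤ ∑ k, √2 |lam| √(d k / n) √(d k) ‖w_k‖ ≤ √2 |lam| √(K / n) ‖w‖` with `K = ∑ d_k ^ 2`.
So `B ^ 2 / 2 = lam ^ 2 K ‖w‖ ^ 2 / n`, times `|S|`: `kM / 2 * ‖w‖ ^ 2`.
-/

set_option autoImplicit false

namespace Pool.Agent.H70.SS

open MeasureTheory ProbabilityTheory
open scoped BigOperators ComplexConjugate Matrix RealInnerProductSpace
open Pool.Agent.Results.MP_634cec_lc.LinearDegree Pool.Agent.H28.Schur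

variable {G : Type} [Group G] [TopologicalSpace G] [IsTopologicalGroup G] [CompactSpace G]
  [MeasurableSpace G] [BorelSpace G] (μ : Measure G) [μ.IsHaarMeasure] [IsProbabilityMeasure μ]

private noncomputable def Et {L : ℕ} {d : Fin L → ℕ}
    (ρ : ∀ k : Fin L, G →* Matrix.unitaryGroup (Fin (d k)) ℂ) (t : VIdx d) (g : G) : ℂ :=
  (ρ t.1 g : Matrix (Fin (d t.1)) (Fin (d t.1)) ℂ) t.2.2 t.2.1

omit [TopologicalSpace G] [IsTopologicalGroup G] [CompactSpace G] [MeasurableSpace G]
  [BorelSpace G] in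
private lemma mc_eq {L n : ℕ} {d : Fin L → ℕ}
    (ρ : ∀ k : Fin L, G →* Matrix.unitaryGroup (Fin (d k)) ℂ)
    (S : Finset (Fin n)) (u u' : Fin n → G) (t : VIdx d) :
    Mc ρ S u u' t = ∑ i ∈ S, Et ρ t ((u' i)⁻¹ * u i) := by
  unfold Mc Et
  refine Finset.sum_congr rfl fun i _ => ?_
  rw [mul_entry]
  refine Finset.sum_congr rfl fun a _ => ?_
  rw [inv_entry, mul_comm]

omit [TopologicalSpace G] [IsTopologicalGroup G] [CompactSpace G] [MeasurableSpace G]
  [BorelSpace G] in
private lemma frob {p : ℕ} (τ : G →* Matrix.unitaryGroup (Fin p) ℂ) (g : G) :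
    ∑ a, ∑ b, ‖(τ g : Matrix (Fin p) (Fin p) ℂ) b a‖ ^ 2 = p := by
  have h : ∀ a, ∑ b, ‖(τ g : Matrix (Fin p) (Fin p) ℂ) b a‖ ^ 2 = 1 := by
    intro a
    have h1 := mul_entry τ g⁻¹ g a a
    rw [inv_mul_cancel, map_one] at h1
    simp_rw [inv_entry] at h1
    have h2 : ((1 : Matrix.unitaryGroup (Fin p) ℂ) : Matrix (Fin p) (Fin p) ℂ) a a = 1 := by
      rw [Matrix.UnitaryGroup.one_val, Matrix.one_apply, if_pos rfl]
    rw [h2] at h1
    have h3 : ((∑ b, ‖(τ g : Matrix (Fin p) (Fin p) ℂ) b a‖ ^ 2 : ℝ) : ℂ) = 1 := by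
      rw [h1]
      push_cast
      refine Finset.sum_congr rfl fun b _ => ?_
      rw [mul_comm, Complex.mul_conj, Complex.normSq_eq_norm_sq]
      push_cast
      rfl
    exact_mod_cast h3
  simp [h]

omit [TopologicalSpace G] [IsTopologicalGroup G] [CompactSpace G] [MeasurableSpace G]
  [BorelSpace G] in
private lemma sum_et {L : ℕ} {d : Fin L → ℕ}
    (ρ : ∀ k : Fin L, G →* Matrix.unitaryGroup (Fin (d k)) ℂ) (g : G) (c : ℝ) :
    ∑ t : VIdx d, (c * (d t.1 : ℝ)) * ‖Et ρ t g‖ ^ 2 = c * (numK d : ℝ) := by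
  rw [Fintype.sum_sigma]
  unfold numK
  push_cast
  rw [Finset.mul_sum]
  refine Finset.sum_congr rfl fun k _ => ?_
  rw [← Finset.mul_sum, Fintype.sum_prod_type]
  have := frob (ρ k) g
  simp only [Et]
  rw [this]
  ring

theorem hoef_part {L n : ℕ} {d : Fin L → ℕ} (lam : ℝ) (hn : 0 < n)
    (ρ : ∀ k : Fin L, G →* Matrix.unitaryGroup (Fin (d k)) ℂ) (hρ : Admissible ρ)
    (S : Finset (Fin n)) (u' : Fin n → G) (w : VIdx d × Bool → ℝ) :
    ∫ u, Real.exp (∑ t : VIdx d, cf lam n t *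
        (w (t, true) * (Mc ρ S u u' t).re + w (t, false) * (Mc ρ S u u' t).im))
      ∂(Measure.pi fun _ : Fin n => μ) ≤
      Real.exp (kM lam (numK d) n S.card / 2 * ∑ l, w l ^ 2) := by
  classical
  obtain ⟨hcont, hirr, hne, hconj⟩ := hρ
  set W : ℝ := ∑ l, w l ^ 2 with hW
  have hW0 : 0 ≤ W := Finset.sum_nonneg fun l _ => sq_nonneg _
  have hn' : (0 : ℝ) < n := by exact_mod_cast hn
  set h : Fin n → G → ℝ := fun i g => ∑ t : VIdx d, cf lam n t *
    (w (t, true) * (Et ρ t ((u' i)⁻¹ * g)).re + w (t, false) * (Et ρ t ((u' i)⁻¹ * g)).im) with hh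
  have hEcont : ∀ (t : VIdx d) (a : G), Continuous fun g => Et ρ t (a * g) := by
    intro t a
    have h1 : Continuous fun g => Et ρ t g := (hcont t.1).matrix_elem t.2.2 t.2.1
    exact h1.comp (continuous_const_mul a)
  have hmeas : ∀ i, Measurable (h i) := by
    intro i
    refine Finset.measurable_sum _ fun t _ => ?_
    refine Measurable.const_mul ?_ _
    refine Measurable.add ?_ ?_
    · exact ((Complex.continuous_re.comp (hEcont t _)).measurable).const_mul _
    · exact ((Complex.continuous_im.comp (hEcont t _)).measurable).const_mul _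
  have hexp : ∀ u : Fin n → G, ∑ t : VIdx d, cf lam n t *
        (w (t, true) * (Mc ρ S u u' t).re + w (t, false) * (Mc ρ S u u' t).im) =
      ∑ i ∈ S, h i (u i) := by
    intro u
    simp only [hh]
    rw [Finset.sum_comm]
    refine Finset.sum_congr rfl fun t _ => ?_
    rw [mc_eq, ← Finset.mul_sum, Finset.sum_add_distrib, ← Finset.mul_sum, ← Finset.mul_sum,
      Complex.re_sum, Complex.im_sum]
  set B : ℝ := Real.sqrt (2 * lam ^ 2 / n * numK d * W) with hBdef
  have hB0 : 0 ≤ 2 * lam ^ 2 / n * numK d * W := by positivity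
  have hB : ∀ i g, |h i g| ≤ B := by
    intro i g
    rw [hBdef]
    refine Real.abs_le_sqrt ?_
    set F : VIdx d × Bool → ℝ := fun l => cf lam n l.1 *
      (if l.2 then (Et ρ l.1 ((u' i)⁻¹ * g)).re else (Et ρ l.1 ((u' i)⁻¹ * g)).im) with hF
    have e1 : h i g = ∑ l, F l * w l := by
      rw [Fintype.sum_prod_type]
      simp only [hh]
      refine Finset.sum_congr rfl fun t _ => ?_
      rw [Fintype.sum_bool]
      simp only [hF, if_true, Bool.false_eq_true, if_false]
      ring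
    have e2 : ∑ l, F l ^ 2 = 2 * lam ^ 2 / n * numK d := by
      rw [← sum_et ρ ((u' i)⁻¹ * g) (2 * lam ^ 2 / n), Fintype.sum_prod_type]
      refine Finset.sum_congr rfl fun t _ => ?_
      rw [Fintype.sum_bool]
      simp only [hF, if_true, Bool.false_eq_true, if_false]
      rw [← Complex.normSq_eq_norm_sq, Complex.normSq_apply]
      have h2 : Real.sqrt 2 ^ 2 = 2 := Real.sq_sqrt (by norm_num)
      have h3 : Real.sqrt ((d t.1 : ℝ) / n) ^ 2 = (d t.1 : ℝ) / n := Real.sq_sqrt (by positivity)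
      have h4 : cf lam n t ^ 2 = 2 * lam ^ 2 / n * (d t.1 : ℝ) := by
        unfold cf
        rw [mul_pow, mul_pow, h2, h3]
        ring
      rw [mul_pow, mul_pow, h4]
      ring
    rw [e1]
    calc (∑ l, F l * w l) ^ 2 ≤ (∑ l, F l ^ 2) * ∑ l, w l ^ 2 :=
          Finset.sum_mul_sq_le_sq_mul_sq _ _ _
      _ = 2 * lam ^ 2 / n * numK d * W := by rw [e2]
  have hint : ∀ (t : VIdx d) (a : G), Integrable (fun g => Et ρ t (a * g)) μ := by
    intro t a
    refine Integrable.of_bound (C := 1) (hEcont t a).measurable.aestronglyMeasurable ?_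
    filter_upwards with g
    exact norm_entry_le _ _ _ _
  have hz : ∀ (t : VIdx d) (a : G), ∫ g, Et ρ t (a * g) ∂μ = 0 := by
    intro t a
    rw [integral_mul_left_eq_self (fun g => Et ρ t g) a]
    exact schur_first μ (ρ t.1) (hcont t.1) (hconj t.1 t.1) _ _
  have hre : ∀ (t : VIdx d) (a : G), ∫ g, (Et ρ t (a * g)).re ∂μ = 0 := by
    intro t a
    have := integral_re (hint t a)
    rw [hz] at this
    simpa using this
  have him : ∀ (t : VIdx d) (a : G), ∫ g, (Et ρ t (a * g)).im ∂μ = 0 := by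
    intro t a
    have := integral_im (hint t a)
    rw [hz] at this
    simpa using this
  have hire : ∀ (t : VIdx d) (a : G), Integrable (fun g => (Et ρ t (a * g)).re) μ :=
    fun t a => (hint t a).re
  have hiim : ∀ (t : VIdx d) (a : G), Integrable (fun g => (Et ρ t (a * g)).im) μ :=
    fun t a => (hint t a).im
  have h0 : ∀ i, ∫ g, h i g ∂μ = 0 := by
    intro i
    simp only [hh]
    have hI : ∀ t : VIdx d, Integrable (fun g => cf lam n t *
        (w (t, true) * (Et ρ t ((u' i)⁻¹ * g)).re + w (t, false) * (Et ρ t ((u' i)⁻¹ * g)).im)) μ :=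
      fun t => (((hire t _).const_mul _).add ((hiim t _).const_mul _)).const_mul _
    rw [integral_finsetSum _ fun t _ => hI t]
    refine Finset.sum_eq_zero fun t _ => ?_
    rw [integral_const_mul, integral_add ((hire t _).const_mul _) ((hiim t _).const_mul _),
      integral_const_mul, integral_const_mul, hre, him]
    ring
  have hmain := hoef μ S h hmeas B hB h0
  simp_rw [hexp]
  refine hmain.trans (Real.exp_le_exp.mpr (le_of_eq ?_))
  rw [hBdef, Real.sq_sqrt hB0]
  unfold kM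
  ring

end Pool.Agent.H70.SS
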