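import Pool.Agent.H70.SS.Defs

/-!
# Isometries as matrices

PROOF of `matO_mem`: the columns `Θ e_j` are orthonormal (`Matrix.mem_orthogonalGroup_iff'`,
`(matO Θ)ᵀ * matO Θ = 1`, entry `(j, k)` is `⟪Θ e_j, Θ e_k⟫ = ⟪e_j, e_k⟫`). `matO_mulVec`: `Θ x =
∑ j, x j • Θ e_j`. `matO_fix`: `Θ e_j = e_j` for `j ∈ S`. `finrank_fix`: the `|S|` vectors `e_j`,
`j ∈ S`, are orthonormal, `finrank (fixS S) = |S|` (`finrank_span_eq_card`), and
`Submodule.finrank_add_finrank_orthogonal`. `yv_mem`: the inner product with `e_j`, `j ∈ S`, is the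
coordinate `j`, which is `0` (`Submodule.mem_orthogonal`, `Submodule.span_induction`).
-/

set_option autoImplicit false

namespace Pool.Agent.H70.SS

open MeasureTheory ProbabilityTheory Module
open scoped BigOperators ComplexConjugate Matrix RealInnerProductSpace
open Pool.Agent.Results.MP_634cec_lc.LinearDegree

private theorem iso_inner_sum {n : ℕ} (x y : EV n) : ⟪x, y⟫ = ∑ i, x i * y i := by
  rw [PiLp.inner_apply]
  refine Finset.sum_congr rfl fun i _ => ?_
  simp [mul_comm]

private theorem iso_inner_single {n : ℕ} (j k : Fin n) :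
    ⟪EuclideanSpace.single j (1 : ℝ), EuclideanSpace.single k (1 : ℝ)⟫ =
      if j = k then (1 : ℝ) else 0 := by
  rw [EuclideanSpace.inner_single_left]
  simp

theorem matO_mem {n : ℕ} (Θ : EV n ≃ₗᵢ[ℝ] EV n) : matO Θ ∈ Matrix.orthogonalGroup (Fin n) ℝ := by
  rw [Matrix.mem_orthogonalGroup_iff']
  ext j k
  rw [Matrix.mul_apply]
  simp only [Matrix.transpose_apply, matO, Matrix.of_apply, Matrix.one_apply]
  rw [← iso_inner_sum, LinearIsometryEquiv.inner_map_map, iso_inner_single]

theorem matO_sum {n : ℕ} (Θ : EV n ≃ₗᵢ[ℝ] EV n) (x : EV n) (i : Fin n) :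
    Θ x i = ∑ j, matO Θ i j * x j := by
  have hx : x = ∑ j, x j • EuclideanSpace.single j (1 : ℝ) := by
    ext k
    simp [Pi.single_apply]
  conv_lhs => rw [hx]
  rw [map_sum]
  simp only [map_smul]
  simp [matO, mul_comm]

theorem matO_fix {n : ℕ} (Θ : EV n ≃ₗᵢ[ℝ] EV n) (S : Finset (Fin n))
    (h : ∀ x ∈ fixS S, Θ x = x) : ∀ j ∈ S, ∀ i, matO Θ i j = if i = j then 1 else 0 := by
  intro j hj i
  have h1 : EuclideanSpace.single j (1 : ℝ) ∈ fixS S :=
    Submodule.subset_span ⟨⟨j, hj⟩, rfl⟩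
  simp only [matO, Matrix.of_apply, h _ h1]
  simp

theorem abs_matO_le {n : ℕ} (Θ : EV n ≃ₗᵢ[ℝ] EV n) (i j : Fin n) : |matO Θ i j| ≤ 1 := by
  simp only [matO, Matrix.of_apply]
  have h1 : ‖Θ (EuclideanSpace.single j (1 : ℝ))‖ = 1 := by
    rw [LinearIsometryEquiv.norm_map]
    simp
  have h2 := PiLp.norm_apply_le (Θ (EuclideanSpace.single j (1 : ℝ))) i
  rw [h1, Real.norm_eq_abs] at h2
  exact h2

theorem finrank_fix {n : ℕ} (S : Finset (Fin n)) : finrank ℝ (fixS S)ᗮ = n - S.card := by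
  have h1 : finrank ℝ (fixS S) = S.card := by
    unfold fixS
    rw [finrank_span_eq_card]
    · simp
    · have h2 : Orthonormal ℝ (fun j : Fin n => EuclideanSpace.single j (1 : ℝ)) := by
        rw [orthonormal_iff_ite]
        intro j k
        exact iso_inner_single j k
      exact (h2.comp _ Subtype.val_injective).linearIndependent
  have h3 := Submodule.finrank_add_finrank_orthogonal (fixS S)
  rw [h1, finrank_euclideanSpace_fin] at h3
  omega

theorem yv_mem {G : Type} [Group G] {L n : ℕ} {d : Fin L → ℕ}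
    (ρ : ∀ k : Fin L, G →* Matrix.unitaryGroup (Fin (d k)) ℂ) (S : Finset (Fin n))
    (h : Fin n → G) (l : VIdx d × Bool) : yv ρ S h l ∈ (fixS S)ᗮ := by
  rw [Submodule.mem_orthogonal]
  intro u hu
  unfold fixS at hu
  induction hu using Submodule.span_induction with
  | mem x hx =>
    obtain ⟨j, rfl⟩ := hx
    rw [EuclideanSpace.inner_single_left]
    simp [yv, j.2]
  | zero => exact inner_zero_left _
  | add x y _ _ hx hy => rw [inner_add_left, hx, hy, add_zero]
  | smul a x _ hx => rw [inner_smul_left, hx, mul_zero]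

end Pool.Agent.H70.SS
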