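import Pool.Agent.H70.SS.Act
import Pool.Agent.H70.SS.Iso

/-!
# Invariant tests

PROOF of `inv_shift`. `∫ φ (symm (rotate O s + z)) = ∫ φ (symm (rotate O s + rotate O z))`
(`rotate_gam`, `integral_map`), and
`symm (rotate O s + rotate O z) = symm (rotate O (s + z)) = rotate O (symm (s + z))`
(`rotate_add`, `rotate_symm`), on which `φ` has the value `φ (symm (s + z))`.

`measurable_srot`: `rotate` is linear in its argument with finitely many terms and
`measurable_shift` (file `LinearDegree`). `srot_bound`: `abs_shift_le`, `abs_matO_le`.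
-/

set_option autoImplicit false

namespace Pool.Agent.H70.SS

open MeasureTheory ProbabilityTheory
open scoped BigOperators ComplexConjugate Matrix RealInnerProductSpace
open Pool.Agent.Results.MP_634cec_lc.LinearDegree

theorem inv_shift {L n : ℕ} {d : Fin L → ℕ} (S : Finset (Fin n)) (φ : (Coord n d → ℝ) → ℝ)
    (hφ : Measurable φ) (hinv : InvariantOff S φ) (O : Matrix (Fin n) (Fin n) ℝ)
    (hO : O ∈ Matrix.orthogonalGroup (Fin n) ℝ)
    (hfix : ∀ j ∈ S, ∀ i, O i j = if i = j then 1 else 0) (s : Coord n d → ℝ) :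
    ∫ z, φ (symm (rotate O s + z)) ∂(gam (Coord n d)) =
      ∫ z, φ (symm (s + z)) ∂(gam (Coord n d)) := by
  have h1 := rotate_gam (L := L) (n := n) (d := d) hO
  calc ∫ z, φ (symm (rotate O s + z)) ∂(gam (Coord n d))
      = ∫ z, φ (symm (rotate O s + z)) ∂((gam (Coord n d)).map (rotate O)) := by rw [h1]
    _ = ∫ z, φ (symm (rotate O s + rotate O z)) ∂(gam (Coord n d)) := by
        rw [integral_map (measurable_rotate O).aemeasurable]
        exact (hφ.comp (measurable_symm.comp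
          (measurable_id.const_add (rotate O s)))).aestronglyMeasurable
    _ = ∫ z, φ (symm (s + z)) ∂(gam (Coord n d)) := by
        refine integral_congr_ae (Filter.Eventually.of_forall fun z => ?_)
        show φ _ = φ _
        rw [← rotate_add, ← rotate_symm, hinv O hO hfix]

theorem measurable_srot {G : Type} [Group G] [TopologicalSpace G] [IsTopologicalGroup G]
    [CompactSpace G] [MeasurableSpace G] [BorelSpace G] {L n : ℕ} {d : Fin L → ℕ}
    (ρ : ∀ k : Fin L, G →* Matrix.unitaryGroup (Fin (d k)) ℂ)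
    (hρ : ∀ k, Continuous fun g => (ρ k g : Matrix (Fin (d k)) (Fin (d k)) ℂ)) (lam : ℝ)
    (Θ : EV n ≃ₗᵢ[ℝ] EV n) : Measurable fun g : Fin n → G => srot ρ lam g Θ := by
  refine measurable_pi_iff.2 fun c => ?_
  unfold srot rotate
  refine Finset.measurable_sum _ fun i _ => Finset.measurable_sum _ fun j _ => ?_
  exact (measurable_shift ρ hρ lam _).const_mul _

theorem srot_bound {G : Type} [Group G] {L n : ℕ} {d : Fin L → ℕ}
    (ρ : ∀ k : Fin L, G →* Matrix.unitaryGroup (Fin (d k)) ℂ) (lam : ℝ) :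
    ∃ B : ℝ, ∀ (g : Fin n → G) (Θ : EV n ≃ₗᵢ[ℝ] EV n) (c : Coord n d),
      |srot ρ lam g Θ c| ≤ B := by
  refine ⟨∑ _i : Fin n, ∑ _j : Fin n, ∑ k : Fin L, |lam * Real.sqrt (d k / n)|, fun g Θ c => ?_⟩
  unfold srot rotate
  refine (Finset.abs_sum_le_sum_abs _ _).trans (Finset.sum_le_sum fun i _ => ?_)
  refine (Finset.abs_sum_le_sum_abs _ _).trans (Finset.sum_le_sum fun j _ => ?_)
  rw [abs_mul, abs_mul]
  have h1 := abs_shift_le ρ lam g (⟨c.1, ((i, c.2.1.2), (j, c.2.2.1.2), c.2.2.2)⟩ : Coord n d)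
  have h2 : |matO Θ c.2.1.1 i| * |matO Θ c.2.2.1.1 j| ≤ 1 := by
    calc |matO Θ c.2.1.1 i| * |matO Θ c.2.2.1.1 j| ≤ 1 * 1 :=
          mul_le_mul (abs_matO_le Θ _ _) (abs_matO_le Θ _ _) (abs_nonneg _) zero_le_one
      _ = 1 := one_mul 1
  calc |matO Θ c.2.1.1 i| * |matO Θ c.2.2.1.1 j| *
        |shift ρ lam g (⟨c.1, ((i, c.2.1.2), (j, c.2.2.1.2), c.2.2.2)⟩ : Coord n d)|
      ≤ 1 * ∑ k : Fin L, |lam * Real.sqrt (d k / n)| :=
        mul_le_mul h2 h1 (abs_nonneg _) zero_le_one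
    _ = ∑ k : Fin L, |lam * Real.sqrt (d k / n)| := one_mul _

end Pool.Agent.H70.SS
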