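import Pool.Agent.H70.SS.Iso
import Pool.Agent.H70.SS.Sig

/-!
# The overlap of two rotated signals

PROOF of `actO_overlap`. For fixed `k, a, e` the complex vector `i ↦ sig ρ (mix S u h) k i a e` is
`v + y1 + I y2` with `v` supported on `S` (`v i = ρ(u i)_{a e}` for `i ∈ S`, else 0) and
`y1 = yv ρ S h ((k,(a,e)),true)`, `y2 = yv ρ S h ((k,(a,e)),false)`. The matrix `matO Θ` fixes `v`
(real and imaginary part lie in `fixS S`) and maps `y1, y2` to `Θ y1, Θ y2` (`matO_sum`). The mixed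
terms vanish: `⟪v, Θ' y⟫ = ⟪Θ' v, Θ' y⟫ = ⟪v, y⟫ = 0` for real `v ∈ fixS S`, `y ∈ (fixS S)ᗮ`. The
`v, v'` term is `Mc`, the `Θ y, Θ' y` term is `Zre + I Zim`.

PROOF of `srot_inner`: `srot ρ lam g Θ = gshift lam (actO (matO Θ) (sig ρ g))` by `shift_eq`,
`rotate_gshift`; then `gshift_inner`, `actO_overlap`, and
`lam ^ 2 * (d / n) * ‖x + I y‖ ^ 2 = (1/2) ((cf x) ^ 2 + (cf y) ^ 2)` for `cf = √2 lam √(d / n)`.
-/

set_option autoImplicit false

namespace Pool.Agent.H70.SS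

open MeasureTheory ProbabilityTheory Module
open scoped BigOperators ComplexConjugate Matrix RealInnerProductSpace
open Pool.Agent.Results.MP_634cec_lc.LinearDegree

private theorem ovl_zero {G : Type} [Group G] {L n : ℕ} {d : Fin L → ℕ}
    (ρ : ∀ k : Fin L, G →* Matrix.unitaryGroup (Fin (d k)) ℂ) (S : Finset (Fin n))
    (h : Fin n → G) (Θ : EV n ≃ₗᵢ[ℝ] EV n) (hΘ : ∀ x ∈ fixS S, Θ x = x)
    (l : VIdx d × Bool) {i : Fin n} (hi : i ∈ S) : Θ (yv ρ S h l) i = 0 := by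
  have h1 : EuclideanSpace.single i (1 : ℝ) ∈ fixS S :=
    Submodule.subset_span ⟨⟨i, hi⟩, rfl⟩
  have h2 : ⟪EuclideanSpace.single i (1 : ℝ), Θ (yv ρ S h l)⟫ = 0 := by
    have h3 := (yv_mem ρ S h l)
    rw [Submodule.mem_orthogonal] at h3
    have h4 : ⟪Θ (EuclideanSpace.single i (1 : ℝ)), Θ (yv ρ S h l)⟫ = 0 := by
      rw [LinearIsometryEquiv.inner_map_map]
      exact h3 _ h1
    rwa [hΘ _ h1] at h4
  rw [EuclideanSpace.inner_single_left] at h2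
  simpa using h2

private theorem ovl_inner {n : ℕ} (x y : EV n) : ⟪x, y⟫ = ∑ i, x i * y i := by
  rw [PiLp.inner_apply]
  refine Finset.sum_congr rfl fun i _ => ?_
  simp [mul_comm]

private theorem act_entry {G : Type} [Group G] {L n : ℕ} {d : Fin L → ℕ}
    (ρ : ∀ k : Fin L, G →* Matrix.unitaryGroup (Fin (d k)) ℂ) (S : Finset (Fin n))
    (u h : Fin n → G) (Θ : EV n ≃ₗᵢ[ℝ] EV n) (hΘ : ∀ x ∈ fixS S, Θ x = x)
    (k : Fin L) (i : Fin n) (a e : Fin (d k)) :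
    actO (matO Θ) (sig ρ (mix S u h)) k i a e =
      (if i ∈ S then (ρ k (u i) : Matrix (Fin (d k)) (Fin (d k)) ℂ) a e else 0) +
        (((Θ (yv ρ S h (⟨k, (a, e)⟩, true)) i : ℝ) : ℂ) +
          ((Θ (yv ρ S h (⟨k, (a, e)⟩, false)) i : ℝ) : ℂ) * Complex.I) := by
  have h0 : actO (matO Θ) (sig ρ (mix S u h)) k i a e =
      ∑ j, ((matO Θ i j : ℝ) : ℂ) * sig ρ (mix S u h) k j a e := by
    simp only [actO, Matrix.sum_apply, Matrix.smul_apply, smul_eq_mul]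
  rw [h0, matO_sum Θ (yv ρ S h (⟨k, (a, e)⟩, true)) i,
    matO_sum Θ (yv ρ S h (⟨k, (a, e)⟩, false)) i]
  have h1 : (if i ∈ S then (ρ k (u i) : Matrix (Fin (d k)) (Fin (d k)) ℂ) a e else 0) =
      ∑ j, ((matO Θ i j : ℝ) : ℂ) *
        (if j ∈ S then (ρ k (u j) : Matrix (Fin (d k)) (Fin (d k)) ℂ) a e else 0) := by
    have h2 : ∀ j, ((matO Θ i j : ℝ) : ℂ) *
        (if j ∈ S then (ρ k (u j) : Matrix (Fin (d k)) (Fin (d k)) ℂ) a e else 0) =
        if i = j then (if j ∈ S then (ρ k (u j) : Matrix (Fin (d k)) (Fin (d k)) ℂ) a e else 0)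
          else 0 := by
      intro j
      by_cases hj : j ∈ S
      · rw [matO_fix Θ S hΘ j hj i]
        by_cases hij : i = j
        · simp [hij, hj]
        · simp [hij]
      · simp [hj]
    simp_rw [h2]
    simp
  rw [h1]
  push_cast
  rw [Finset.sum_mul, ← Finset.sum_add_distrib, ← Finset.sum_add_distrib]
  refine Finset.sum_congr rfl fun j _ => ?_
  by_cases hj : j ∈ S
  · simp [sig, mix, yv, hj]
  · have h3 : sig ρ (mix S u h) k j a e =
        ((coef ρ (⟨k, (a, e)⟩, true) (h j) : ℝ) : ℂ) +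
          ((coef ρ (⟨k, (a, e)⟩, false) (h j) : ℝ) : ℂ) * Complex.I := by
      simp [sig, mix, hj, coef]
    rw [h3]
    simp only [yv, hj, if_false]
    ring

theorem actO_overlap {G : Type} [Group G] {L n : ℕ} {d : Fin L → ℕ}
    (ρ : ∀ k : Fin L, G →* Matrix.unitaryGroup (Fin (d k)) ℂ) (S : Finset (Fin n))
    (u u' h : Fin n → G) (Θ Θ' : EV n ≃ₗᵢ[ℝ] EV n) (hΘ : ∀ x ∈ fixS S, Θ x = x)
    (hΘ' : ∀ x ∈ fixS S, Θ' x = x) (t : VIdx d) :
    ∑ i, ∑ a, actO (matO Θ) (sig ρ (mix S u h)) t.1 i a t.2.1 *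
        conj (actO (matO Θ') (sig ρ (mix S u' h)) t.1 i a t.2.2) =
      Mc ρ S u u' t +
        (((Zre (fun l => Θ (yv ρ S h l)) (fun l => Θ' (yv ρ S h l)) t : ℝ) : ℂ) +
          ((Zim (fun l => Θ (yv ρ S h l)) (fun l => Θ' (yv ρ S h l)) t : ℝ) : ℂ) * Complex.I) := by
  obtain ⟨k, e, e'⟩ := t
  have key : ∀ (i : Fin n) (a : Fin (d k)),
      actO (matO Θ) (sig ρ (mix S u h)) k i a e *
        conj (actO (matO Θ') (sig ρ (mix S u' h)) k i a e') =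
      (if i ∈ S then (ρ k (u i) : Matrix (Fin (d k)) (Fin (d k)) ℂ) a e *
        conj ((ρ k (u' i) : Matrix (Fin (d k)) (Fin (d k)) ℂ) a e') else 0) +
      (((Θ (yv ρ S h (⟨k, (a, e)⟩, true)) i * Θ' (yv ρ S h (⟨k, (a, e')⟩, true)) i +
          Θ (yv ρ S h (⟨k, (a, e)⟩, false)) i * Θ' (yv ρ S h (⟨k, (a, e')⟩, false)) i : ℝ) : ℂ) +
        ((Θ (yv ρ S h (⟨k, (a, e)⟩, false)) i * Θ' (yv ρ S h (⟨k, (a, e')⟩, true)) i -
          Θ (yv ρ S h (⟨k, (a, e)⟩, true)) i * Θ' (yv ρ S h (⟨k, (a, e')⟩, false)) i : ℝ) : ℂ) *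
          Complex.I) := by
    intro i a
    rw [act_entry ρ S u h Θ hΘ, act_entry ρ S u' h Θ' hΘ']
    by_cases hi : i ∈ S
    · simp [hi, ovl_zero ρ S h Θ hΘ _ hi, ovl_zero ρ S h Θ' hΘ' _ hi]
    · simp only [hi, if_false, zero_add, map_add, map_mul, Complex.conj_ofReal, Complex.conj_I]
      push_cast
      linear_combination (-((Θ (yv ρ S h (⟨k, (a, e)⟩, false)) i : ℝ) : ℂ) *
        ((Θ' (yv ρ S h (⟨k, (a, e')⟩, false)) i : ℝ) : ℂ)) * Complex.I_mul_I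
  simp only [key]
  simp only [Finset.sum_add_distrib]
  congr 1
  · unfold Mc
    rw [← Finset.sum_filter_add_sum_filter_not Finset.univ (fun i => i ∈ S)]
    have h1 : (∑ x ∈ Finset.univ.filter (fun i => ¬ i ∈ S), ∑ a : Fin (d k),
        if x ∈ S then (ρ k (u x) : Matrix (Fin (d k)) (Fin (d k)) ℂ) a e *
          conj ((ρ k (u' x) : Matrix (Fin (d k)) (Fin (d k)) ℂ) a e') else 0) = 0 := by
      refine Finset.sum_eq_zero fun x hx => ?_
      have hx' : x ∉ S := (Finset.mem_filter.mp hx).2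
      simp [hx']
    rw [h1, add_zero]
    have h2 : Finset.univ.filter (fun i : Fin n => i ∈ S) = S := by
      ext x; simp
    rw [h2]
    refine Finset.sum_congr rfl fun x hx => ?_
    simp [hx]
  · have hre : (Zre (fun l => Θ (yv ρ S h l)) (fun l => Θ' (yv ρ S h l)) ⟨k, e, e'⟩ : ℝ) =
        ∑ i : Fin n, ∑ a : Fin (d k),
          (Θ (yv ρ S h (⟨k, (a, e)⟩, true)) i * Θ' (yv ρ S h (⟨k, (a, e')⟩, true)) i +
          Θ (yv ρ S h (⟨k, (a, e)⟩, false)) i * Θ' (yv ρ S h (⟨k, (a, e')⟩, false)) i) := by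
      rw [Finset.sum_comm]
      unfold Zre
      refine Finset.sum_congr rfl fun a _ => ?_
      rw [ovl_inner, ovl_inner, ← Finset.sum_add_distrib]
    have him : (Zim (fun l => Θ (yv ρ S h l)) (fun l => Θ' (yv ρ S h l)) ⟨k, e, e'⟩ : ℝ) =
        ∑ i : Fin n, ∑ a : Fin (d k),
          (Θ (yv ρ S h (⟨k, (a, e)⟩, false)) i * Θ' (yv ρ S h (⟨k, (a, e')⟩, true)) i -
          Θ (yv ρ S h (⟨k, (a, e)⟩, true)) i * Θ' (yv ρ S h (⟨k, (a, e')⟩, false)) i) := by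
      rw [Finset.sum_comm]
      unfold Zim
      refine Finset.sum_congr rfl fun a _ => ?_
      rw [ovl_inner, ovl_inner, ← Finset.sum_sub_distrib]
    rw [hre, him]
    simp only [← Finset.sum_mul, ← Complex.ofReal_sum]

theorem srot_inner {G : Type} [Group G] {L n : ℕ} {d : Fin L → ℕ}
    (ρ : ∀ k : Fin L, G →* Matrix.unitaryGroup (Fin (d k)) ℂ) (lam : ℝ) (S : Finset (Fin n))
    (u u' h : Fin n → G) (Θ Θ' : EV n ≃ₗᵢ[ℝ] EV n) (hΘ : ∀ x ∈ fixS S, Θ x = x)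
    (hΘ' : ∀ x ∈ fixS S, Θ' x = x) :
    ∑ c, srot ρ lam (mix S u h) Θ c * srot ρ lam (mix S u' h) Θ' c =
      (∑ t : VIdx d,
        ((cf lam n t * ((Mc ρ S u u' t).re +
          Zre (fun l => Θ (yv ρ S h l)) (fun l => Θ' (yv ρ S h l)) t)) ^ 2 +
        (cf lam n t * ((Mc ρ S u u' t).im +
          Zim (fun l => Θ (yv ρ S h l)) (fun l => Θ' (yv ρ S h l)) t)) ^ 2)) / 2 := by
  have hrot : ∀ (g : Fin n → G) (Ψ : EV n ≃ₗᵢ[ℝ] EV n),
      srot ρ lam g Ψ = gshift lam (actO (matO Ψ) (sig ρ g)) := by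
    intro g Ψ
    unfold srot
    rw [shift_eq, rotate_gshift]
  rw [hrot, hrot, gshift_inner, Finset.sum_div]
  refine Finset.sum_congr rfl fun t _ => ?_
  rw [actO_overlap ρ S u u' h Θ Θ' hΘ hΘ' t]
  have hcf : cf lam n t ^ 2 = 2 * (lam ^ 2 * (d t.1 / n)) := by
    unfold cf
    have h1 : (0 : ℝ) ≤ (d t.1 : ℝ) / n := by positivity
    have h2 := Real.sq_sqrt h1
    have h3 : Real.sqrt 2 ^ 2 = 2 := Real.sq_sqrt (by norm_num)
    rw [mul_pow, mul_pow, h2, h3]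
    ring
  rw [← Complex.normSq_eq_norm_sq, Complex.normSq_apply]
  simp only [Complex.add_re, Complex.add_im, Complex.mul_re, Complex.mul_im, Complex.ofReal_re,
    Complex.ofReal_im, Complex.I_re, Complex.I_im, mul_zero, mul_one, sub_zero, add_zero, zero_add]
  rw [mul_pow, mul_pow, hcf]
  ring

end Pool.Agent.H70.SS
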