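import Pool.Agent.H70.SS.SecM
import Pool.Agent.H70.SS.CM2
import Pool.Agent.H70.SS.Inv

/-!
# The bound for fixed signals outside of `S`

PROOF of `per_h`. Take `Ω, Θ` from `rot_part` for `y = yv ρ S h` (`finrank_fix`, `yv_mem`, the
hypothesis `Good`). Apply `second_moment` to `P = (pi μ).prod (uni Ω)` on `(Fin n → G) × Ω` (give
`Ω` the discrete measurable space `⊤`), `s (u, ω) = srot ρ lam (mix S u h) (Θ ω)`,
`ψ z = φ (symm z)`. By `inv_shift` (with `matO_mem`, `matO_fix`)
`∫ z, ψ (s (u, ω) + z) = ∫ z, ψ (shift ρ lam (mix S u h) + z)` for every `ω`, so the left hand side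
of `second_moment` is the square in the claim. The double integral on the right is
`≤ ((√(1 - κ))⁻¹) ^ (2 K)`: for fixed `(u', ω')` integrate over `(u, ω)` (`integral_uni`,
`sec_inner` with `κN = kN ..`, `integral_prod`; the integrand is symmetric in the two variables).
Measurability of `s`: `measurable_srot`, `measurable_mix`, finitely many `ω`
(`measurable_from_prod_countable_left` or similar). Boundedness: `srot_bound`.
-/

set_option autoImplicit false

namespace Pool.Agent.H70.SS

open MeasureTheory ProbabilityTheory Module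
open scoped BigOperators ComplexConjugate Matrix RealInnerProductSpace
open Pool.Agent.Results.MP_634cec_lc.LinearDegree

variable {G : Type} [Group G] [TopologicalSpace G] [IsTopologicalGroup G] [CompactSpace G]
  [MeasurableSpace G] [BorelSpace G] (μ : Measure G) [μ.IsHaarMeasure] [IsProbabilityMeasure μ]

theorem per_h {L n : ℕ} {d : Fin L → ℕ} (lam : ℝ) (hn : 0 < n) (D : ℕ) (hD : ∀ k, d k ≤ D)
    (ρ : ∀ k : Fin L, G →* Matrix.unitaryGroup (Fin (d k)) ℂ) (hρ : Admissible ρ)
    (S : Finset (Fin n)) (hm : 2 * numK d ≤ n - S.card) (hS : S.card ≤ n) (η : ℝ) (hη : 0 ≤ η)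
    (κ : ℝ) (hκ : κ < 1)
    (hsum : kM lam (numK d) n S.card + kN lam (numK d) D n S.card η ≤ κ)
    (φ : (Coord n d → ℝ) → ℝ) (hφ : Measurable φ) (h0 : ∀ y, 0 ≤ φ y) (h1 : ∀ y, φ y ≤ 1)
    (hinv : InvariantOff S φ) (h : Fin n → G) (hh : Good ρ S η h) :
    (∫ u, ∫ z, φ (symm (shift ρ lam (mix S u h) + z)) ∂(gam (Coord n d))
      ∂(Measure.pi fun _ : Fin n => μ)) ^ 2 ≤
      (∫ z, φ (symm z) ∂(gam (Coord n d))) * ((Real.sqrt (1 - κ))⁻¹) ^ (2 * numK d) := by
  classical
  obtain ⟨Ω, hΩ1, hΩ2, Θ, hfix, hrot⟩ := rot_part lam D hD S (finrank_fix S) (yv ρ S h)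
    (yv_mem ρ S h) η hη hh hm hn hS
  letI : MeasurableSpace Ω := ⊤
  haveI : MeasurableSingletonClass Ω := ⟨fun _ => trivial⟩
  obtain ⟨B, hB⟩ := srot_bound (n := n) ρ lam
  set ν : Measure (Fin n → G) := Measure.pi fun _ : Fin n => μ with hν
  set s : (Fin n → G) × Ω → Coord n d → ℝ := fun p => srot ρ lam (mix S p.1 h) (Θ p.2) with hsdef
  have hmix : Measurable fun u : Fin n → G => mix S u h :=
    (measurable_mix S).comp measurable_prodMk_right
  have hs : Measurable s := by
    refine measurable_from_prod_countable_left fun ω => ?_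
    exact (measurable_srot ρ hρ.1 lam (Θ ω)).comp hmix
  have hsB : ∀ p c, |s p c| ≤ B := fun p c => hB _ _ _
  have h2 := second_moment (ν.prod (uni Ω)) s hs B hsB (fun z => φ (symm z))
    (hφ.comp measurable_symm) (fun z => h0 _) (fun z => h1 _)
  have hL : ∀ p : (Fin n → G) × Ω, ∫ z, φ (symm (s p + z)) ∂(gam (Coord n d)) =
      ∫ z, φ (symm (shift ρ lam (mix S p.1 h) + z)) ∂(gam (Coord n d)) := by
    intro p
    exact inv_shift S φ hφ hinv (matO (Θ p.2)) (matO_mem _) (matO_fix _ S (hfix p.2)) _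
  have hL2 : ∫ p, ∫ z, φ (symm (s p + z)) ∂(gam (Coord n d)) ∂(ν.prod (uni Ω)) =
      ∫ u, ∫ z, φ (symm (shift ρ lam (mix S u h) + z)) ∂(gam (Coord n d)) ∂ν := by
    simp_rw [hL]
    rw [integral_fun_fst (fun u => ∫ z, φ (symm (shift ρ lam (mix S u h) + z)) ∂(gam (Coord n d)))]
    simp
  have hI : 0 ≤ ∫ z, φ (symm z) ∂(gam (Coord n d)) := integral_nonneg fun z => h0 _
  have hR : ∀ p : (Fin n → G) × Ω, ∫ q, Real.exp (∑ c, s p c * s q c) ∂(ν.prod (uni Ω)) ≤
      ((Real.sqrt (1 - κ))⁻¹) ^ (2 * numK d) := by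
    intro p
    have hint : Integrable (fun q => Real.exp (∑ c, s p c * s q c)) (ν.prod (uni Ω)) := by
      refine Integrable.of_bound (C := Real.exp (∑ _c : Coord n d, B * B)) ?_ ?_
      · refine Measurable.aestronglyMeasurable ?_
        refine Real.measurable_exp.comp ?_
        refine Finset.measurable_sum _ fun c _ => ?_
        exact ((measurable_pi_apply c).comp hs).const_mul _
      · refine Filter.Eventually.of_forall fun q => ?_
        rw [Real.norm_eq_abs, Real.abs_exp]
        refine Real.exp_le_exp.mpr (Finset.sum_le_sum fun c _ => ?_)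
        refine (le_abs_self _).trans ?_
        rw [abs_mul]
        exact mul_le_mul (hsB _ _) (hsB _ _) (abs_nonneg _) ((abs_nonneg _).trans (hsB p c))
    rw [integral_prod_symm _ hint, integral_uni]
    have h3 := sec_inner μ lam hn ρ hρ S h κ (kN lam (numK d) D n S.card η) hκ hsum Θ hfix hrot
      p.1 (Θ p.2) (hfix p.2)
    have hcard : (0 : ℝ) < Fintype.card Ω := by
      exact_mod_cast Fintype.card_pos
    rw [inv_mul_le_iff₀ hcard]
    refine le_trans (le_of_eq ?_) h3
    refine Finset.sum_congr rfl fun ω _ => ?_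
    refine integral_congr_ae (Filter.Eventually.of_forall fun u => ?_)
    simp only [hsdef]
    congr 1
    exact Finset.sum_congr rfl fun c _ => mul_comm _ _
  have hR2 : ∫ p, ∫ q, Real.exp (∑ c, s p c * s q c) ∂(ν.prod (uni Ω)) ∂(ν.prod (uni Ω)) ≤
      ((Real.sqrt (1 - κ))⁻¹) ^ (2 * numK d) := by
    refine (integral_mono_of_nonneg (Filter.Eventually.of_forall fun p =>
      integral_nonneg fun q => (Real.exp_pos _).le) (integrable_const _)
      (Filter.Eventually.of_forall hR)).trans ?_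
    simp
  rw [← hL2]
  exact h2.trans (mul_le_mul_of_nonneg_left hR2 hI)

end Pool.Agent.H70.SS
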