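import Mathlib

/-!
# One random direction; reflections

PROOF of `rad_bound`. The sum over the signs factorises (`Finset.prod_univ_sum` /
`Fintype.piFinset`), it is `∏ i, (exp c_i + exp (-c_i))` with `c_i = ⟪s i, a⟫ / √N`, which is
`∏ 2 cosh c_i ≤ 2 ^ N exp (∑ c_i ^ 2 / 2)` (`Real.cosh_le_exp_half_sq`), and
`∑ ⟪s i, a⟫ ^ 2 ≤ ‖a‖ ^ 2` (Bessel, `Orthonormal.sum_inner_products_le`).

PROOF of `exists_refl`. The reflection in the orthogonal complement of `x - y` maps `x` to `y`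
(`Submodule.reflection_sub`) and fixes every vector orthogonal to `x - y`.
-/

set_option autoImplicit false

namespace Pool.Agent.H70.SS

open scoped BigOperators RealInnerProductSpace
open Module

variable {E : Type*} [NormedAddCommGroup E] [InnerProductSpace ℝ E] [FiniteDimensional ℝ E]

/-- one random direction built from signs -/
theorem rad_bound {N : ℕ} (hN : 0 < N) (s : Fin N → E) (hs : Orthonormal ℝ s) (a : E) :
    ∑ ε : Fin N → Bool, Real.exp
      ⟪(Real.sqrt N)⁻¹ • ∑ i, (if ε i then (1 : ℝ) else -1) • s i, a⟫ ≤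
      2 ^ N * Real.exp (‖a‖ ^ 2 / (2 * N)) := by
  have hN' : (0 : ℝ) < N := by exact_mod_cast hN
  set c : Fin N → ℝ := fun i => (Real.sqrt N)⁻¹ * ⟪s i, a⟫ with hc
  have h1 : ∀ ε : Fin N → Bool, Real.exp
      ⟪(Real.sqrt N)⁻¹ • ∑ i, (if ε i then (1 : ℝ) else -1) • s i, a⟫ =
      ∏ i, Real.exp ((if ε i then (1 : ℝ) else -1) * c i) := by
    intro ε
    rw [← Real.exp_sum]
    congr 1
    rw [real_inner_smul_left, sum_inner, Finset.mul_sum]
    refine Finset.sum_congr rfl fun i _ => ?_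
    rw [real_inner_smul_left, hc]
    ring
  have h2 : ∑ ε : Fin N → Bool, ∏ i, Real.exp ((if ε i then (1 : ℝ) else -1) * c i) =
      ∏ i, ∑ b : Bool, Real.exp ((if b then (1 : ℝ) else -1) * c i) := by
    rw [Finset.prod_univ_sum, Fintype.piFinset_univ]
  have h3 : ∀ i, ∑ b : Bool, Real.exp ((if b then (1 : ℝ) else -1) * c i) = 2 * Real.cosh (c i) := by
    intro i
    rw [Real.cosh_eq]
    simp
    ring
  have h4 : ∀ i, 2 * Real.cosh (c i) ≤ 2 * Real.exp (c i ^ 2 / 2) := fun i =>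
    mul_le_mul_of_nonneg_left (Real.cosh_le_exp_half_sq _) (by norm_num)
  have h5 : ∑ i, c i ^ 2 / 2 ≤ ‖a‖ ^ 2 / (2 * N) := by
    have hb : ∑ i, ⟪s i, a⟫ ^ 2 ≤ ‖a‖ ^ 2 := by
      have := hs.sum_inner_products_le (x := a) (s := (Finset.univ : Finset (Fin N)))
      simpa [Real.norm_eq_abs, sq_abs] using this
    have e : ∑ i, c i ^ 2 / 2 = (∑ i, ⟪s i, a⟫ ^ 2) / (2 * N) := by
      rw [Finset.sum_div]
      refine Finset.sum_congr rfl fun i _ => ?_
      rw [hc]
      simp only [mul_pow, inv_pow, Real.sq_sqrt hN'.le]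
      field_simp
    rw [e]
    exact div_le_div_of_nonneg_right hb (by positivity)
  have h6 : ∑ ε : Fin N → Bool, Real.exp
      ⟪(Real.sqrt N)⁻¹ • ∑ i, (if ε i then (1 : ℝ) else -1) • s i, a⟫
      = ∏ i, (2 * Real.cosh (c i)) := by
        rw [Finset.sum_congr rfl fun ε _ => h1 ε, h2]
        exact Finset.prod_congr rfl fun i _ => h3 i
  rw [h6]
  calc ∏ i, (2 * Real.cosh (c i))
      ≤ ∏ i, (2 * Real.exp (c i ^ 2 / 2)) :=
        Finset.prod_le_prod (fun i _ => by have := Real.cosh_pos (c i); positivity) fun i _ => h4 i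
    _ = 2 ^ N * Real.exp (∑ i, c i ^ 2 / 2) := by
        rw [Finset.prod_mul_distrib, ← Real.exp_sum]
        simp
    _ ≤ 2 ^ N * Real.exp (‖a‖ ^ 2 / (2 * N)) :=
        mul_le_mul_of_nonneg_left (Real.exp_le_exp.mpr h5) (by positivity)

theorem exists_refl (U : Submodule ℝ E) {x y : E} (hx : x ∈ Uᗮ) (hy : y ∈ Uᗮ)
    (h : ‖x‖ = ‖y‖) : ∃ W : E ≃ₗᵢ[ℝ] E, W x = y ∧ ∀ u ∈ U, W u = u := by
  refine ⟨(ℝ ∙ (x - y))ᗮ.reflection, Submodule.reflection_sub h, ?_⟩
  intro u hu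
  rw [Submodule.reflection_eq_self_iff]
  rw [Submodule.mem_orthogonal_singleton_iff_inner_right]
  rw [inner_sub_left]
  have h1 : ⟪x, u⟫ = 0 := by
    rw [real_inner_comm]; exact hx u hu
  have h2 : ⟪y, u⟫ = 0 := by
    rw [real_inner_comm]; exact hy u hu
  rw [h1, h2, sub_zero]

end Pool.Agent.H70.SS
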