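import Pool.Agent.H70.SS.Rot

/-!
# Random rotations of an orthonormal family

PROOF of `rot_orthonormal`. Induction on `m` (generalising `f`), the case `m = 0` is trivial
(`Ω = Unit`, `Θ = refl`). For `m + 1` take `Ω', Θ'` for the first `m` vectors (`Fin.castSucc`), let
`U' = U ⊔ span (f 0, ..., f (m-1))`, then `finrank U'ᗮ = N - m` with `N = finrank Uᗮ`
(`U'ᗮ` is the orthogonal complement of `span (f ..)` inside `Uᗮ`; or
`Submodule.finrank_add_finrank_orthogonal` and `finrank U' = finrank U + m`, as the two summands are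
orthogonal), let `s` be an orthonormal basis of `U'ᗮ` (`stdOrthonormalBasis`) with
`N' = N - m ≥ 1` elements, `v_ε = (√N')⁻¹ ∑ ± s i` (a unit vector of `U'ᗮ`), `W_ε` the isometry of
`exists_refl` for `U'`, with `W_ε f_m = v_ε`; `Ω = Ω' × (Fin N' → Bool)`, `Θ (ω, ε) = Θ'_ω ∘ W_ε`.
For `l < m` the image of `f l` is `Θ'_ω f_l`, the last image is `Θ'_ω v_ε`; sum over `ε` first
(`rad_bound` with `s i ↦ Θ'_ω (s i)`), then use the induction hypothesis and
`1 / (2 (N - m + 1)) ≤ 1 / (2 (N - m))`.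
-/

set_option autoImplicit false

namespace Pool.Agent.H70.SS

open scoped BigOperators RealInnerProductSpace
open Module

variable {E : Type*} [NormedAddCommGroup E] [InnerProductSpace ℝ E] [FiniteDimensional ℝ E]

private theorem norm_signs {N : ℕ} (hN : 0 < N) (s : Fin N → E) (hs : Orthonormal ℝ s)
    (ε : Fin N → Bool) :
    ‖(Real.sqrt N)⁻¹ • ∑ i, (if ε i then (1 : ℝ) else -1) • s i‖ = 1 := by
  have hN' : (0 : ℝ) < N := by exact_mod_cast hN
  have h1 : ‖∑ i, (if ε i then (1 : ℝ) else -1) • s i‖ ^ 2 = N := by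
    rw [← real_inner_self_eq_norm_sq, hs.inner_sum]
    have : ∀ i ∈ (Finset.univ : Finset (Fin N)),
        (starRingEnd ℝ) (if ε i then (1 : ℝ) else -1) * (if ε i then (1 : ℝ) else -1) = 1 := by
      intro i _
      by_cases h : ε i <;> simp [h]
    rw [Finset.sum_congr rfl this]
    simp
  have h2 : ‖∑ i, (if ε i then (1 : ℝ) else -1) • s i‖ = Real.sqrt N := by
    rw [← h1, Real.sqrt_sq (norm_nonneg _)]
  rw [norm_smul, h2, norm_inv, Real.norm_eq_abs, abs_of_nonneg (Real.sqrt_nonneg _)]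
  exact inv_mul_cancel₀ (Real.sqrt_pos.mpr hN').ne'

private theorem finrank_step (U : Submodule ℝ E) (m : ℕ) (f : Fin m → E)
    (hf : Orthonormal ℝ f) (hfU : ∀ l, f l ∈ Uᗮ) :
    finrank ℝ (U ⊔ Submodule.span ℝ (Set.range f))ᗮ + m = finrank ℝ Uᗮ := by
  set S := Submodule.span ℝ (Set.range f) with hS
  have hSU : S ≤ Uᗮ := by
    rw [hS, Submodule.span_le]
    rintro _ ⟨l, rfl⟩
    exact hfU l
  have h1 : finrank ℝ S = m := by
    have := finrank_span_eq_card hf.linearIndependent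
    simpa using this
  have h2 : U ⊓ S = ⊥ := by
    rw [eq_bot_iff]
    intro x hx
    have h3 : x ∈ U ⊓ Uᗮ := ⟨hx.1, hSU hx.2⟩
    rwa [Submodule.inf_orthogonal_eq_bot] at h3
  have h3 := Submodule.finrank_sup_add_finrank_inf_eq U S
  rw [h2, finrank_bot, h1] at h3
  have h4 := Submodule.finrank_add_finrank_orthogonal U
  have h5 := Submodule.finrank_add_finrank_orthogonal (U ⊔ S)
  omega

theorem rot_orthonormal (U : Submodule ℝ E) (m : ℕ) (f : Fin m → E) (hf : Orthonormal ℝ f)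
    (hfU : ∀ l, f l ∈ Uᗮ) (hm : m ≤ finrank ℝ Uᗮ) :
    ∃ (Ω : Type) (_ : Fintype Ω) (_ : Nonempty Ω) (Θ : Ω → E ≃ₗᵢ[ℝ] E),
      (∀ ω, ∀ x ∈ U, Θ ω x = x) ∧
      ∀ A : Fin m → E, ∑ ω, Real.exp (∑ l, ⟪Θ ω (f l), A l⟫) ≤
        Fintype.card Ω * Real.exp ((∑ l, ‖A l‖ ^ 2) / (2 * ((finrank ℝ Uᗮ : ℝ) - m + 1))) := by
  induction m with
  | zero =>
    refine ⟨Unit, inferInstance, inferInstance, fun _ => LinearIsometryEquiv.refl ℝ E,
      fun _ x _ => rfl, fun A => ?_⟩
    simp
  | succ m ih =>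
    classical
    set f' : Fin m → E := fun l => f l.castSucc with hf'def
    have hf' : Orthonormal ℝ f' := hf.comp _ (Fin.castSucc_injective m)
    obtain ⟨Ω', i1, i2, Θ', hΘ', hA'⟩ := ih f' hf' (fun l => hfU _) (by omega)
    set S := Submodule.span ℝ (Set.range f') with hS
    set N' := finrank ℝ (U ⊔ S)ᗮ with hN'
    have hfin : N' + m = finrank ℝ Uᗮ := finrank_step U m f' hf' (fun l => hfU _)
    have hN'pos : 0 < N' := by omega
    have hN'r : (0 : ℝ) < N' := by exact_mod_cast hN'pos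
    set b := stdOrthonormalBasis ℝ (U ⊔ S : Submodule ℝ E)ᗮ with hb
    set s : Fin N' → E := fun i => (b i : E) with hsdef
    have hs : Orthonormal ℝ s := b.orthonormal.comp_linearIsometry (U ⊔ S)ᗮ.subtypeₗᵢ
    have hsU : ∀ i, s i ∈ (U ⊔ S)ᗮ := fun i => (b i).2
    have hlast : f (Fin.last m) ∈ (U ⊔ S)ᗮ := by
      rw [← Submodule.inf_orthogonal]
      refine ⟨hfU _, ?_⟩
      rw [hS, SetLike.mem_coe, Submodule.mem_orthogonal]
      intro u hu
      induction hu using Submodule.span_induction with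
      | mem x hx =>
        obtain ⟨l, rfl⟩ := hx
        exact hf.2 (Fin.castSucc_lt_last l).ne
      | zero => simp
      | add x y _ _ hx hy => rw [inner_add_left, hx, hy, add_zero]
      | smul c x _ hx => rw [inner_smul_left, hx, mul_zero]
    have hW : ∀ ε : Fin N' → Bool, ∃ W : E ≃ₗᵢ[ℝ] E,
        W (f (Fin.last m)) = (Real.sqrt N')⁻¹ • ∑ i, (if ε i then (1 : ℝ) else -1) • s i ∧
          ∀ u ∈ U ⊔ S, W u = u := by
      intro ε
      refine exists_refl (U ⊔ S) hlast ?_ ?_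
      · exact Submodule.smul_mem _ _ (Submodule.sum_mem _ fun i _ =>
          Submodule.smul_mem _ _ (hsU i))
      · rw [norm_signs hN'pos s hs ε]
        exact hf.1 _
    choose W hW1 hW2 using hW
    refine ⟨Ω' × (Fin N' → Bool), inferInstance, inferInstance,
      fun p => (W p.2).trans (Θ' p.1), ?_, ?_⟩
    · intro p x hx
      rw [LinearIsometryEquiv.trans_apply, hW2 p.2 x (Submodule.mem_sup_left hx), hΘ' p.1 x hx]
    · intro A
      have h1 : ∀ p : Ω' × (Fin N' → Bool),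
          Real.exp (∑ l, ⟪((W p.2).trans (Θ' p.1)) (f l), A l⟫) =
          Real.exp (∑ l, ⟪Θ' p.1 (f' l), A l.castSucc⟫) *
            Real.exp ⟪(Real.sqrt N')⁻¹ • ∑ i, (if p.2 i then (1 : ℝ) else -1) • Θ' p.1 (s i),
              A (Fin.last m)⟫ := by
        intro p
        rw [← Real.exp_add, Fin.sum_univ_castSucc]
        congr 1
        congr 1
        · refine Finset.sum_congr rfl fun l _ => ?_
          rw [LinearIsometryEquiv.trans_apply, hW2 p.2 (f l.castSucc)
            (Submodule.mem_sup_right (Submodule.subset_span ⟨l, rfl⟩))]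
        · rw [LinearIsometryEquiv.trans_apply, hW1, map_smul, map_sum]
          simp only [map_smul]
      rw [Finset.sum_congr rfl fun p _ => h1 p, Fintype.sum_prod_type]
      simp only [← Finset.mul_sum]
      have h2 : ∀ ω : Ω', ∑ ε : Fin N' → Bool,
          Real.exp ⟪(Real.sqrt N')⁻¹ • ∑ i, (if ε i then (1 : ℝ) else -1) • Θ' ω (s i),
              A (Fin.last m)⟫ ≤ 2 ^ N' * Real.exp (‖A (Fin.last m)‖ ^ 2 / (2 * N')) := by
        intro ω
        exact rad_bound hN'pos (fun i => Θ' ω (s i))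
          (hs.comp_linearIsometry (Θ' ω).toLinearIsometry) (A (Fin.last m))
      have h3 : ∑ ω : Ω', Real.exp (∑ l, ⟪Θ' ω (f' l), A l.castSucc⟫) *
          ∑ ε : Fin N' → Bool,
          Real.exp ⟪(Real.sqrt N')⁻¹ • ∑ i, (if ε i then (1 : ℝ) else -1) • Θ' ω (s i),
              A (Fin.last m)⟫ ≤
          (∑ ω : Ω', Real.exp (∑ l, ⟪Θ' ω (f' l), A l.castSucc⟫)) *
            (2 ^ N' * Real.exp (‖A (Fin.last m)‖ ^ 2 / (2 * N'))) := by
        rw [Finset.sum_mul]
        exact Finset.sum_le_sum fun ω _ =>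
          mul_le_mul_of_nonneg_left (h2 ω) (Real.exp_pos _).le
      refine h3.trans ?_
      have h4 := hA' (fun l => A l.castSucc)
      refine (mul_le_mul_of_nonneg_right h4 (by positivity)).trans ?_
      have hr : (finrank ℝ Uᗮ : ℝ) = N' + m := by exact_mod_cast hfin.symm
      have h5 : (∑ l : Fin m, ‖A l.castSucc‖ ^ 2) / (2 * ((finrank ℝ Uᗮ : ℝ) - m + 1)) ≤
          (∑ l : Fin m, ‖A l.castSucc‖ ^ 2) / (2 * N') := by
        apply div_le_div_of_nonneg_left (Finset.sum_nonneg fun l _ => by positivity)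
          (by positivity)
        rw [hr]
        linarith
      have h6 : (∑ l : Fin (m + 1), ‖A l‖ ^ 2) /
          (2 * ((finrank ℝ Uᗮ : ℝ) - ((m + 1 : ℕ) : ℝ) + 1)) =
          (∑ l : Fin m, ‖A l.castSucc‖ ^ 2) / (2 * N') +
            ‖A (Fin.last m)‖ ^ 2 / (2 * N') := by
        rw [Fin.sum_univ_castSucc, ← add_div, hr]
        congr 1
        push_cast
        ring
      rw [h6, Real.exp_add, Fintype.card_prod, Fintype.card_fun, Fintype.card_bool,
        Fintype.card_fin]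
      push_cast
      have h7 := Real.exp_le_exp.mpr h5
      have h8 : (0 : ℝ) ≤ Fintype.card Ω' := Nat.cast_nonneg _
      calc (Fintype.card Ω' : ℝ) * Real.exp ((∑ l : Fin m, ‖A l.castSucc‖ ^ 2) /
              (2 * ((finrank ℝ Uᗮ : ℝ) - m + 1))) *
            (2 ^ N' * Real.exp (‖A (Fin.last m)‖ ^ 2 / (2 * N')))
          ≤ (Fintype.card Ω' : ℝ) * Real.exp ((∑ l : Fin m, ‖A l.castSucc‖ ^ 2) / (2 * N')) *
            (2 ^ N' * Real.exp (‖A (Fin.last m)‖ ^ 2 / (2 * N'))) := by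
            apply mul_le_mul_of_nonneg_right _ (by positivity)
            exact mul_le_mul_of_nonneg_left h7 h8
        _ = _ := by ring

end Pool.Agent.H70.SS
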