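import Pool.Agent.H70.SS.Defs

/-!
# The uniform measure on a finite type, resampling on `S`

`integral_uni`: `MeasureTheory.integral_count`, `integral_smul_measure`.

PROOF of `mix_pres`. `(u, h) ↦ mix S u h` has coordinates `i ↦ (if i ∈ S then u i else h i)`. Show
that the image of `μ^n × μ^n` is the product measure by `Measure.pi_eq` on boxes: the preimage of
the box `∏ s i` is the product of the boxes with sides `s i` (`i ∈ S`, else `univ`) and `s i`
(`i ∉ S`, else `univ`), so the measure is
`(∏ i, if i ∈ S then μ (s i) else 1) * (∏ i, if i ∈ S then 1 else μ (s i)) = ∏ μ (s i)`.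
-/

set_option autoImplicit false

namespace Pool.Agent.H70.SS

open MeasureTheory ProbabilityTheory
open scoped BigOperators

instance isProbabilityMeasure_uni (Ω : Type) [Fintype Ω] [Nonempty Ω] [MeasurableSpace Ω]
    [MeasurableSingletonClass Ω] : IsProbabilityMeasure (uni Ω) := by
  refine ⟨?_⟩
  have h0 : (Fintype.card Ω : ENNReal) ≠ 0 := by
    simp [Fintype.card_ne_zero]
  have h1 : (Fintype.card Ω : ENNReal) ≠ ⊤ := ENNReal.natCast_ne_top _
  have h2 : (Measure.count : Measure Ω) Set.univ = Fintype.card Ω := by
    rw [← Finset.coe_univ, Measure.count_apply_finset]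
    simp
  unfold uni
  rw [Measure.smul_apply, h2, smul_eq_mul, ENNReal.inv_mul_cancel h0 h1]

theorem integral_uni (Ω : Type) [Fintype Ω] [Nonempty Ω] [MeasurableSpace Ω]
    [MeasurableSingletonClass Ω] (f : Ω → ℝ) :
    ∫ ω, f ω ∂(uni Ω) = (Fintype.card Ω : ℝ)⁻¹ * ∑ ω, f ω := by
  unfold uni
  rw [integral_smul_measure, integral_count, smul_eq_mul, ENNReal.toReal_inv,
    ENNReal.toReal_natCast]

theorem measurable_mix {G : Type} [MeasurableSpace G] {n : ℕ} (S : Finset (Fin n)) :
    Measurable fun p : (Fin n → G) × (Fin n → G) => mix S p.1 p.2 := by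
  refine measurable_pi_iff.2 fun i => ?_
  by_cases hi : i ∈ S
  · have h1 : (fun p : (Fin n → G) × (Fin n → G) => mix S p.1 p.2 i) = fun p => p.1 i := by
      funext p
      simp [mix, hi]
    rw [h1]
    exact (measurable_pi_apply i).comp measurable_fst
  · have h1 : (fun p : (Fin n → G) × (Fin n → G) => mix S p.1 p.2 i) = fun p => p.2 i := by
      funext p
      simp [mix, hi]
    rw [h1]
    exact (measurable_pi_apply i).comp measurable_snd

theorem mix_pres {G : Type} [MeasurableSpace G] (μ : Measure G) [IsProbabilityMeasure μ] {n : ℕ}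
    (S : Finset (Fin n)) :
    MeasurePreserving (fun p : (Fin n → G) × (Fin n → G) => mix S p.1 p.2)
      ((Measure.pi fun _ : Fin n => μ).prod (Measure.pi fun _ : Fin n => μ))
      (Measure.pi fun _ : Fin n => μ) := by
  refine ⟨measurable_mix S, (Measure.pi_eq fun s hs => ?_).symm⟩
  rw [Measure.map_apply (measurable_mix S) (MeasurableSet.univ_pi hs)]
  have h1 : (fun p : (Fin n → G) × (Fin n → G) => mix S p.1 p.2) ⁻¹' (Set.univ.pi s) =
      (Set.univ.pi fun i => if i ∈ S then s i else Set.univ) ×ˢ
        (Set.univ.pi fun i => if i ∈ S then Set.univ else s i) := by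
    ext p
    simp only [Set.mem_preimage, Set.mem_pi, Set.mem_univ, true_implies, Set.mem_prod, mix]
    constructor
    · intro h
      refine ⟨fun i => ?_, fun i => ?_⟩
      · by_cases hi : i ∈ S
        · have := h i
          rw [if_pos hi] at this
          rw [if_pos hi]
          exact this
        · rw [if_neg hi]
          trivial
      · by_cases hi : i ∈ S
        · rw [if_pos hi]
          trivial
        · have := h i
          rw [if_neg hi] at this
          rw [if_neg hi]
          exact this
    · rintro ⟨ha, hb⟩ i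
      by_cases hi : i ∈ S
      · have := ha i
        rw [if_pos hi] at this
        rw [if_pos hi]
        exact this
      · have := hb i
        rw [if_neg hi] at this
        rw [if_neg hi]
        exact this
  rw [h1, Measure.prod_prod, Measure.pi_pi, Measure.pi_pi, ← Finset.prod_mul_distrib]
  refine Finset.prod_congr rfl fun i _ => ?_
  by_cases hi : i ∈ S
  · rw [if_pos hi, if_pos hi, measure_univ, mul_one]
  · rw [if_neg hi, if_neg hi, measure_univ, one_mul]

end Pool.Agent.H70.SS
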