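import Pool.Agent.H70.SS.Ovl
import Pool.Agent.H70.SS.CM
import Pool.Agent.H70.SS.Lin
import Pool.Agent.H70.SS.HoefP
import Pool.Agent.H70.SS.RotPart
import Pool.Agent.H70.SS.Uni

/-!
# The overlap integral

PROOF of `sec_inner`. Fix `u'`, `Θ'`. By `srot_inner` and `integral_exp_lin` (with
`b (t, true) = cf lam n t * (Re Mc + Zre)`, `b (t, false) = cf lam n t * (Im Mc + Zim)`)
`exp (overlap) = ∫ w, exp (M (u, w)) * exp (R (ω, w))` where `M`, `R` are the exponents of
`hoef_part` and of `rot_part` (hypothesis `hrot`). Integrate over `u` and sum over `ω` inside of the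
integral over `w` (Fubini; everything is nonnegative, and for fixed `u'`, `Θ'` the integrand is
bounded by `exp (C ∑ |w l|)`, integrable by `integrable_exp_abs`; `u ↦ Mc ρ S u u' t` is measurable
and bounded by `n * d`):
`≤ ∫ w, exp (kM / 2 * ∑ w ^ 2) * (card Ω * exp (kN / 2 * ∑ w ^ 2))`
`≤ card Ω * ∫ w, exp (κ / 2 * ∑ w ^ 2) = card Ω * ((√(1 - κ))⁻¹) ^ (2 K)`
(`integral_exp_quad`, `card_idx`).
-/

set_option autoImplicit false

namespace Pool.Agent.H70.SS

open MeasureTheory ProbabilityTheory Module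
open scoped BigOperators ComplexConjugate Matrix RealInnerProductSpace
open Pool.Agent.Results.MP_634cec_lc.LinearDegree

/-- integral form of the linearised second moment -/
theorem sec_aux {X : Type*} [MeasurableSpace X] (P : Measure X) [IsProbabilityMeasure P]
    {ι : Type*} [Fintype ι] {Ω : Type*} [Fintype Ω] (a : X → ι → ℝ) (r : Ω → ι → ℝ) (C : ℝ)
    (ha : ∀ l, Measurable fun u => a u l) (hC : ∀ u l, |a u l| ≤ C)
    (k1 k2 κ : ℝ) (hκ : κ < 1) (hk : k1 + k2 ≤ κ)
    (h1 : ∀ w : ι → ℝ, ∫ u, Real.exp (∑ l, w l * a u l) ∂P ≤ Real.exp (k1 / 2 * ∑ l, w l ^ 2))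
    (h2 : ∀ w : ι → ℝ, ∑ ω, Real.exp (∑ l, w l * r ω l) ≤
      Fintype.card Ω * Real.exp (k2 / 2 * ∑ l, w l ^ 2)) :
    ∑ ω, ∫ u, Real.exp ((∑ l, (a u l + r ω l) ^ 2) / 2) ∂P ≤
      Fintype.card Ω * ((Real.sqrt (1 - κ))⁻¹) ^ Fintype.card ι := by
  classical
  have hF : ∀ ω, Integrable (Function.uncurry fun (u : X) (w : ι → ℝ) =>
      Real.exp (∑ l, w l * (a u l + r ω l))) (P.prod (gam ι)) := by
    intro ω
    have hm : Measurable (Function.uncurry fun (u : X) (w : ι → ℝ) =>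
        Real.exp (∑ l, w l * (a u l + r ω l))) := by
      refine Real.measurable_exp.comp (Finset.measurable_sum _ fun l _ => ?_)
      exact ((measurable_pi_apply l).comp measurable_snd).mul
        (((ha l).comp measurable_fst).add_const _)
    refine ((integrable_exp_abs (ι := ι) (C + ∑ l, |r ω l|)).comp_snd P).mono'
      hm.aestronglyMeasurable (Filter.Eventually.of_forall ?_)
    rintro ⟨u, w⟩
    simp only [Function.uncurry, Real.norm_eq_abs, Real.abs_exp]
    refine Real.exp_le_exp.2 ?_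
    rw [Finset.mul_sum]
    refine Finset.sum_le_sum fun l _ => ?_
    have h3 : |a u l + r ω l| ≤ C + ∑ l, |r ω l| :=
      (abs_add_le _ _).trans (add_le_add (hC u l)
        (Finset.single_le_sum (f := fun l => |r ω l|) (fun i _ => abs_nonneg _)
          (Finset.mem_univ l)))
    calc w l * (a u l + r ω l) ≤ |w l * (a u l + r ω l)| := le_abs_self _
      _ = |w l| * |a u l + r ω l| := abs_mul _ _
      _ ≤ |w l| * (C + ∑ l, |r ω l|) := mul_le_mul_of_nonneg_left h3 (abs_nonneg _)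
      _ = (C + ∑ l, |r ω l|) * |w l| := mul_comm _ _
  have hsw : ∀ ω, ∫ u, Real.exp ((∑ l, (a u l + r ω l) ^ 2) / 2) ∂P =
      ∫ w, (∫ u, Real.exp (∑ l, w l * (a u l + r ω l)) ∂P) ∂(gam ι) := by
    intro ω
    rw [← integral_integral_swap (hF ω)]
    refine integral_congr_ae (Filter.Eventually.of_forall fun u => ?_)
    exact (integral_exp_lin fun l => a u l + r ω l).symm
  have hint : ∀ ω, Integrable (fun w : ι → ℝ =>
      ∫ u, Real.exp (∑ l, w l * (a u l + r ω l)) ∂P) (gam ι) := fun ω =>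
    (hF ω).integral_prod_right
  have hpt : ∀ (ω : Ω) (w : ι → ℝ), ∫ u, Real.exp (∑ l, w l * (a u l + r ω l)) ∂P =
      Real.exp (∑ l, w l * r ω l) * ∫ u, Real.exp (∑ l, w l * a u l) ∂P := by
    intro ω w
    rw [← integral_const_mul]
    refine integral_congr_ae (Filter.Eventually.of_forall fun u => ?_)
    simp only
    rw [← Real.exp_add, ← Finset.sum_add_distrib]
    congr 1
    refine Finset.sum_congr rfl fun l _ => ?_
    ring
  calc ∑ ω, ∫ u, Real.exp ((∑ l, (a u l + r ω l) ^ 2) / 2) ∂P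
      = ∑ ω, ∫ w, (∫ u, Real.exp (∑ l, w l * (a u l + r ω l)) ∂P) ∂(gam ι) :=
        Finset.sum_congr rfl fun ω _ => hsw ω
    _ = ∫ w, ∑ ω, (∫ u, Real.exp (∑ l, w l * (a u l + r ω l)) ∂P) ∂(gam ι) :=
        (integral_finsetSum _ fun ω _ => hint ω).symm
    _ ≤ ∫ w, Fintype.card Ω * Real.exp (κ / 2 * ∑ l, w l ^ 2) ∂(gam ι) := by
        refine integral_mono (integrable_finsetSum _ fun ω _ => hint ω)
          ((integrable_exp_quad hκ).const_mul _) fun w => ?_
        simp only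
        have h3 : 0 ≤ ∫ u, Real.exp (∑ l, w l * a u l) ∂P :=
          integral_nonneg fun u => (Real.exp_pos _).le
        have h4 : (0 : ℝ) ≤ ∑ l, w l ^ 2 := Finset.sum_nonneg fun l _ => sq_nonneg _
        calc ∑ ω, ∫ u, Real.exp (∑ l, w l * (a u l + r ω l)) ∂P
            = (∑ ω, Real.exp (∑ l, w l * r ω l)) * ∫ u, Real.exp (∑ l, w l * a u l) ∂P := by
              rw [Finset.sum_mul]
              exact Finset.sum_congr rfl fun ω _ => hpt ω w
          _ ≤ (Fintype.card Ω * Real.exp (k2 / 2 * ∑ l, w l ^ 2)) *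
                Real.exp (k1 / 2 * ∑ l, w l ^ 2) :=
              mul_le_mul (h2 w) (h1 w) h3 (by positivity)
          _ = Fintype.card Ω * Real.exp ((k1 + k2) / 2 * ∑ l, w l ^ 2) := by
              rw [mul_assoc, ← Real.exp_add]
              congr 2
              ring
          _ ≤ Fintype.card Ω * Real.exp (κ / 2 * ∑ l, w l ^ 2) := by
              refine mul_le_mul_of_nonneg_left (Real.exp_le_exp.2 ?_) (Nat.cast_nonneg _)
              exact mul_le_mul_of_nonneg_right (by linarith) h4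
    _ = Fintype.card Ω * ((Real.sqrt (1 - κ))⁻¹) ^ Fintype.card ι := by
        rw [integral_const_mul, integral_exp_quad hκ]

theorem sum_bool {ι : Type*} [Fintype ι] (f : ι × Bool → ℝ) :
    ∑ l, f l = ∑ t, (f (t, true) + f (t, false)) := by
  rw [Fintype.sum_prod_type]
  exact Finset.sum_congr rfl fun t _ => Fintype.sum_bool _

theorem norm_Mc_le {G : Type} [Group G] {L n : ℕ} {d : Fin L → ℕ}
    (ρ : ∀ k : Fin L, G →* Matrix.unitaryGroup (Fin (d k)) ℂ) (S : Finset (Fin n))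
    (u u' : Fin n → G) (t : VIdx d) : ‖Mc ρ S u u' t‖ ≤ S.card * d t.1 := by
  unfold Mc
  have h1 : ∀ i ∈ S, ‖∑ a : Fin (d t.1),
      (ρ t.1 (u i) : Matrix (Fin (d t.1)) (Fin (d t.1)) ℂ) a t.2.1 *
        conj ((ρ t.1 (u' i) : Matrix (Fin (d t.1)) (Fin (d t.1)) ℂ) a t.2.2)‖ ≤ d t.1 := by
    intro i _
    refine (norm_sum_le_of_le _ (f := fun a : Fin (d t.1) =>
      (ρ t.1 (u i) : Matrix (Fin (d t.1)) (Fin (d t.1)) ℂ) a t.2.1 *
        conj ((ρ t.1 (u' i) : Matrix (Fin (d t.1)) (Fin (d t.1)) ℂ) a t.2.2))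
      (n := fun _ => (1 : ℝ)) fun a _ => ?_).trans (by simp)
    rw [norm_mul, RCLike.norm_conj]
    exact mul_le_one₀ (entry_norm_bound_of_unitary (ρ t.1 (u i)).2 _ _) (norm_nonneg _)
      (entry_norm_bound_of_unitary (ρ t.1 (u' i)).2 _ _)
  refine (norm_sum_le_of_le S h1).trans ?_
  rw [Finset.sum_const, nsmul_eq_mul]

variable {G : Type} [Group G] [TopologicalSpace G] [IsTopologicalGroup G] [CompactSpace G]
  [MeasurableSpace G] [BorelSpace G] (μ : Measure G) [μ.IsHaarMeasure] [IsProbabilityMeasure μ]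

theorem sec_inner {L n : ℕ} {d : Fin L → ℕ} (lam : ℝ) (hn : 0 < n)
    (ρ : ∀ k : Fin L, G →* Matrix.unitaryGroup (Fin (d k)) ℂ) (hρ : Admissible ρ)
    (S : Finset (Fin n)) (h : Fin n → G) (κ κN : ℝ) (hκ : κ < 1)
    (hsum : kM lam (numK d) n S.card + κN ≤ κ)
    {Ω : Type} [Fintype Ω] (Θ : Ω → EV n ≃ₗᵢ[ℝ] EV n) (hΘ : ∀ ω, ∀ x ∈ fixS S, Θ ω x = x)
    (hrot : ∀ (Θ' : EV n ≃ₗᵢ[ℝ] EV n) (w : VIdx d × Bool → ℝ),
        ∑ ω, Real.exp (∑ t : VIdx d, cf lam n t *
          (w (t, true) * Zre (fun l => Θ ω (yv ρ S h l)) (fun l => Θ' (yv ρ S h l)) t +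
            w (t, false) * Zim (fun l => Θ ω (yv ρ S h l)) (fun l => Θ' (yv ρ S h l)) t)) ≤
        Fintype.card Ω * Real.exp (κN / 2 * ∑ l, w l ^ 2))
    (u' : Fin n → G) (Θ' : EV n ≃ₗᵢ[ℝ] EV n) (hΘ' : ∀ x ∈ fixS S, Θ' x = x) :
    ∑ ω, ∫ u, Real.exp (∑ c, srot ρ lam (mix S u h) (Θ ω) c * srot ρ lam (mix S u' h) Θ' c)
      ∂(Measure.pi fun _ : Fin n => μ) ≤
      Fintype.card Ω * ((Real.sqrt (1 - κ))⁻¹) ^ (2 * numK d) := by
  classical
  set a : (Fin n → G) → VIdx d × Bool → ℝ := fun u l =>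
    cf lam n l.1 * (if l.2 then (Mc ρ S u u' l.1).re else (Mc ρ S u u' l.1).im) with hadef
  set r : Ω → VIdx d × Bool → ℝ := fun ω l =>
    cf lam n l.1 * (if l.2 then
      Zre (fun l => Θ ω (yv ρ S h l)) (fun l => Θ' (yv ρ S h l)) l.1 else
      Zim (fun l => Θ ω (yv ρ S h l)) (fun l => Θ' (yv ρ S h l)) l.1) with hrdef
  have hover : ∀ (ω : Ω) (u : Fin n → G),
      ∑ c, srot ρ lam (mix S u h) (Θ ω) c * srot ρ lam (mix S u' h) Θ' c =
        (∑ l, (a u l + r ω l) ^ 2) / 2 := by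
    intro ω u
    rw [srot_inner ρ lam S u u' h (Θ ω) Θ' (hΘ ω) hΘ', sum_bool]
    congr 1
    refine Finset.sum_congr rfl fun t _ => ?_
    simp only [hadef, hrdef, if_true, Bool.false_eq_true, if_false]
    ring
  have hmeas : ∀ l, Measurable fun u => a u l := by
    intro l
    have hMc : Measurable fun u : Fin n → G => Mc ρ S u u' l.1 := by
      unfold Mc
      refine Finset.measurable_sum _ fun i _ => Finset.measurable_sum _ fun x _ => ?_
      refine Measurable.mul_const ?_ _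
      have hc : Continuous fun g : G =>
          (ρ l.1.1 g : Matrix (Fin (d l.1.1)) (Fin (d l.1.1)) ℂ) x l.1.2.1 :=
        (hρ.1 l.1.1).matrix_elem x l.1.2.1
      exact hc.measurable.comp (measurable_pi_apply i)
    simp only [hadef]
    refine Measurable.const_mul ?_ _
    cases l.2
    · exact Complex.measurable_im.comp hMc
    · exact Complex.measurable_re.comp hMc
  have hbd : ∀ u l, |a u l| ≤ ∑ l : VIdx d × Bool, |cf lam n l.1| * (S.card * d l.1.1) := by
    intro u l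
    refine le_trans ?_ (Finset.single_le_sum
      (f := fun l : VIdx d × Bool => |cf lam n l.1| * ((S.card : ℝ) * d l.1.1))
      (fun i _ => by positivity) (Finset.mem_univ l))
    simp only [hadef]
    rw [abs_mul]
    refine mul_le_mul_of_nonneg_left ?_ (abs_nonneg _)
    refine le_trans ?_ (norm_Mc_le ρ S u u' l.1)
    cases l.2
    · exact Complex.abs_im_le_norm _
    · exact Complex.abs_re_le_norm _
  have h1 : ∀ w : VIdx d × Bool → ℝ,
      ∫ u, Real.exp (∑ l, w l * a u l) ∂(Measure.pi fun _ : Fin n => μ) ≤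
        Real.exp (kM lam (numK d) n S.card / 2 * ∑ l, w l ^ 2) := by
    intro w
    refine le_trans (le_of_eq ?_) (hoef_part μ lam hn ρ hρ S u' w)
    refine integral_congr_ae (Filter.Eventually.of_forall fun u => ?_)
    simp only
    rw [sum_bool]
    congr 1
    refine Finset.sum_congr rfl fun t _ => ?_
    simp only [hadef, if_true, Bool.false_eq_true, if_false]
    ring
  have h2 : ∀ w : VIdx d × Bool → ℝ, ∑ ω, Real.exp (∑ l, w l * r ω l) ≤
      Fintype.card Ω * Real.exp (κN / 2 * ∑ l, w l ^ 2) := by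
    intro w
    refine le_trans (le_of_eq ?_) (hrot Θ' w)
    refine Finset.sum_congr rfl fun ω _ => ?_
    rw [sum_bool]
    congr 1
    refine Finset.sum_congr rfl fun t _ => ?_
    simp only [hrdef, if_true, Bool.false_eq_true, if_false]
    ring
  have hfin := sec_aux (Measure.pi fun _ : Fin n => μ) a r _ hmeas hbd _ κN κ hκ hsum h1 h2
  rw [card_idx] at hfin
  refine le_trans (le_of_eq ?_) hfin
  refine Finset.sum_congr rfl fun ω _ => ?_
  refine integral_congr_ae (Filter.Eventually.of_forall fun u => ?_)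
  simp only
  rw [hover ω u]

end Pool.Agent.H70.SS
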